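import Pool.Agent.Lib.MP_d632e4_lc.Ladder

set_option autoImplicit false

/-!
# Inserting blocks of arbitrary length into a ladder
-/

namespace Pool.Agent.Lib.MP_d632e4_lc

open Cardinal Ordinal Order Set

section

variable {l : Cardinal.{0}} {α : Ordinal.{0}}

theorem add_lt_of_cof (hα : α.cof = l) {x k : Ordinal.{0}} (hx : x < α)
    (hk : k < l.ord) : x + k < α := by
  by_contra hcon
  push Not at hcon
  have h1 : x + (α - x) = α := Ordinal.add_sub_cancel_of_le hx.le
  have h2 : α - x ≤ k := sub_le.2 hcon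
  have h3 : α - x ≠ 0 := by
    intro h
    rw [h, add_zero] at h1
    exact hx.ne h1
  have h4 : (α - x).cof = l := by
    rw [← hα, ← cof_add x h3, h1]
  have h5 : l ≤ (α - x).card := by
    rw [← h4]
    exact cof_le_card _
  exact absurd (lt_ord.1 hk) (not_lt.2 (h5.trans (card_le_card h2)))

theorem mul_add_lt_cases {β a b r r' : Ordinal.{0}} (hr' : r' < β)
    (h : β * a + r < β * b + r') : a < b ∨ (a = b ∧ r < r') := by
  rcases lt_trichotomy a b with h1 | h1 | h1
  · exact Or.inl h1
  · subst h1
    exact Or.inr ⟨rfl, (add_lt_add_iff_left _).1 h⟩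
  · exfalso
    have h2 : β * b + r' < β * (b + 1) := by
      rw [mul_add, mul_one]
      exact (add_lt_add_iff_left _).2 hr'
    have h3 : β * (b + 1) ≤ β * a := mul_le_mul_right (Order.add_one_le_of_lt h1) _
    exact absurd (h.trans (h2.trans_le h3)) (not_lt.2 le_self_add)

theorem mul_add_lt {β a b r : Ordinal.{0}} (hr : r < β) (h : a < b) : β * a + r < β * b := by
  have h2 : β * a + r < β * (a + 1) := by
    rw [mul_add, mul_one]
    exact (add_lt_add_iff_left _).2 hr
  exact h2.trans_le (mul_le_mul_right (Order.add_one_le_of_lt h) _)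

/-- Inserting a block of length `β` after every point of a ladder: the new ladder has the old
point in position `i` and the points of the block in the following positions, for a closed
unbounded set of limit ordinals `i`. -/
theorem ladder_block (hr : l.IsRegular) (hc : ℵ₀ < l) (hα : α.cof = l)
    {d : Ordinal.{0} → Ordinal.{0}} (hd : Ladder l α d) {β : Ordinal.{0}} (hβ1 : 1 < β)
    (hβ : β < l.ord) (t : Ordinal.{0} → Ordinal.{0} → Ordinal.{0}) :
    ∃ c, Ladder l α c ∧ ∃ e, Club l.ord e ∧ ∀ i ∈ e,
      (∀ k, 0 < k → k < β → d i < t i k ∧ t i k < α) →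
      (∀ k k', 0 < k → k < k' → k' < β → t i k < t i k') →
      (∀ k < β, IsSuccLimit k → ∀ γ, (∀ k', 0 < k' → k' < k → t i k' ≤ γ) → t i k ≤ γ) →
      ∀ k, 0 < k → k < β → c (i + k) = t i k := by
  classical
  have hβ0 : 0 < β := zero_lt_one.trans hβ1
  have hcof : ℵ₀ < α.cof := by rwa [hα]
  have hLcof : l.ord.cof = l := hr.cof_ord
  let good : Ordinal.{0} → Prop := fun i =>
    (∀ k, 0 < k → k < β → d i < t i k ∧ t i k < α) ∧
      (∀ k k', 0 < k → k < k' → k' < β → t i k < t i k') ∧
      (∀ k < β, IsSuccLimit k → ∀ γ, (∀ k', 0 < k' → k' < k → t i k' ≤ γ) → t i k ≤ γ)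
  let pt : Ordinal.{0} → Ordinal.{0} → Ordinal.{0} → Ordinal.{0} := fun i b k =>
    if k = 0 then b else if b = d i ∧ good i then t i k else max b (d i) + k
  have pt0 : ∀ i b, pt i b 0 = b := fun i b => by simp [pt]
  have ptgood : ∀ i b k, b = d i → good i → 0 < k → pt i b k = t i k := by
    intro i b k hb hg hk
    simp only [pt]
    rw [if_neg hk.ne', if_pos ⟨hb, hg⟩]
  have ptbad : ∀ i b k, ¬ (b = d i ∧ good i) → 0 < k → pt i b k = max b (d i) + k := by
    intro i b k hb hk
    simp only [pt]
    rw [if_neg hk.ne', if_neg hb]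
  have ptmono : ∀ i b k k', k < k' → k' < β → pt i b k < pt i b k' := by
    intro i b k k' hkk' hk'
    have hk'0 : 0 < k' := (zero_le).trans_lt hkk'
    by_cases hg : b = d i ∧ good i
    · rcases eq_or_ne k 0 with rfl | hk
      · rw [pt0, ptgood i b k' hg.1 hg.2 hk'0, hg.1]
        exact (hg.2.1 k' hk'0 hk').1
      · have hk0 : 0 < k := pos_iff_ne_zero.2 hk
        rw [ptgood i b k' hg.1 hg.2 hk'0, ptgood i b k hg.1 hg.2 hk0]
        exact hg.2.2.1 k k' hk0 hkk' hk'
    · rcases eq_or_ne k 0 with rfl | hk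
      · rw [pt0, ptbad i b k' hg hk'0]
        refine (le_max_left b (d i)).trans_lt ?_
        exact (lt_add_iff_pos_right _).2 hk'0
      · have hk0 : 0 < k := pos_iff_ne_zero.2 hk
        rw [ptbad i b k' hg hk'0, ptbad i b k hg hk0]
        exact (add_lt_add_iff_left _).2 hkk'
  have ptα : ∀ i < l.ord, ∀ b < α, ∀ k < β, pt i b k < α := by
    intro i hi b hb k hk
    rcases eq_or_ne k 0 with rfl | hk0
    · rw [pt0]; exact hb
    · have hk0 : 0 < k := pos_iff_ne_zero.2 hk0
      by_cases hg : b = d i ∧ good i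
      · rw [ptgood i b k hg.1 hg.2 hk0]
        exact (hg.2.1 k hk0 hk).2
      · rw [ptbad i b k hg hk0]
        exact add_lt_of_cof hα (max_lt hb (hd.lt i hi)) (hk.trans hβ)
  have ptcont : ∀ i b k, k < β → IsSuccLimit k → ∀ γ, (∀ k' < k, pt i b k' ≤ γ) →
      pt i b k ≤ γ := by
    intro i b k hk hlim γ hγ
    have hk0 : 0 < k := hlim.bot_lt
    by_cases hg : b = d i ∧ good i
    · rw [ptgood i b k hg.1 hg.2 hk0]
      refine hg.2.2.2 k hk hlim γ fun k' hk'0 hk'k => ?_
      rw [← ptgood i b k' hg.1 hg.2 hk'0]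
      exact hγ k' hk'k
    · rw [ptbad i b k hg hk0, add_le_iff_of_isSuccLimit hlim]
      intro k' hk'
      have h1 : k' + 1 < k := hlim.succ_lt hk'
      have h2 := hγ (k' + 1) h1
      rw [ptbad i b (k' + 1) hg ((zero_le).trans_lt (lt_add_one k'))] at h2
      refine le_trans ?_ h2
      exact add_le_add_right (lt_add_one k').le _
  -- the supremum of a block
  let bs : Ordinal.{0} → Ordinal.{0} → Ordinal.{0} := fun i b => ⨆ k : Set.Iio β, pt i b k.1 + 1
  have bslt : ∀ i b k, k < β → pt i b k < bs i b := by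
    intro i b k hk
    have := Ordinal.le_iSup (fun k : Set.Iio β => pt i b k.1 + 1) ⟨k, hk⟩
    exact (lt_add_one _).trans_le this
  have bsle : ∀ i b γ, (∀ k < β, pt i b k + 1 ≤ γ) → bs i b ≤ γ := by
    intro i b γ h
    exact Ordinal.iSup_le fun k => h k.1 k.2
  have bsself : ∀ i b, b < bs i b := by
    intro i b
    have := bslt i b 0 hβ0
    rwa [pt0] at this
  have bsd : ∀ i b, d i < bs i b := by
    intro i b
    refine lt_trans ?_ (bslt i b 1 hβ1)
    by_cases hg : b = d i ∧ good i
    · rw [ptgood i b 1 hg.1 hg.2 zero_lt_one]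
      exact (hg.2.1 1 zero_lt_one hβ1).1
    · rw [ptbad i b 1 hg zero_lt_one]
      exact (le_max_right b (d i)).trans_lt (lt_add_one _)
  have bsα : ∀ i < l.ord, ∀ b < α, bs i b < α := by
    intro i hi b hb
    obtain ⟨x, hx, hx'⟩ := exists_bound_ord (δ := α) (ξ := β)
      (by rw [hα]; exact lt_ord.1 hβ) (fun k => pt i b k + 1)
      (fun k hk => add_one_lt_of_cof hcof (ptα i hi b hb k hk))
    exact (bsle i b x hx').trans_lt hx
  let B : Ordinal.{0} → Ordinal.{0} := recOrd bs
  have hBmono : ∀ i j, i < j → B i < B j := fun i j h => recOrd_mono _ bsself h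
  have hBlt : ∀ i < l.ord, B i < α := recOrd_lt hα _ bsα
  have hBle : ∀ i j, i < j → bs i (B i) ≤ B j := fun i j h => le_recOrd bs h
  have hmul : ∀ a < l.ord, ∀ k < β, β * a + k < l.ord := fun a ha k hk =>
    isPrincipal_add_ord hc.le (isPrincipal_mul_ord hc.le hβ ha) (hk.trans hβ)
  let c : Ordinal.{0} → Ordinal.{0} := fun i => pt (i / β) (B (i / β)) (i % β)
  have hcval : ∀ a k, k < β → c (β * a + k) = pt a (B a) k := by
    intro a k hk
    have h1 : (β * a + k) / β = a := by
      rw [mul_add_div a hβ0.ne' k, div_eq_zero_of_lt hk, add_zero]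
    have h2 : (β * a + k) % β = k := by
      rw [mul_add_mod_self, mod_eq_of_lt hk]
    simp only [c, h1, h2]
  have hdm : ∀ i : Ordinal.{0}, β * (i / β) + i % β = i := fun i => div_add_mod i β
  have hml : ∀ i : Ordinal.{0}, i % β < β := fun i => mod_lt i hβ0.ne'
  have hdle : ∀ i : Ordinal.{0}, i / β ≤ i := by
    intro i
    conv_rhs => rw [← hdm i]
    refine le_trans ?_ le_self_add
    exact le_mul_of_one_le_left (zero_le) hβ1.le
  have hcL : Ladder l α c := by
    refine ⟨fun i j hij hj => ?_, fun i hi => ?_, fun x hx => ?_, fun i hi hlim γ hγ => ?_⟩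
    · have hlt : β * (i / β) + i % β < β * (j / β) + j % β := by
        rw [hdm, hdm]; exact hij
      rcases mul_add_lt_cases (hml j) hlt with h | ⟨h, h'⟩
      · calc c i < bs (i / β) (B (i / β)) := bslt _ _ _ (hml i)
          _ ≤ B (j / β) := hBle _ _ h
          _ = pt (j / β) (B (j / β)) 0 := (pt0 _ _).symm
          _ ≤ c j := by
              rcases eq_or_ne (j % β) 0 with h0 | h0
              · simp only [c, h0]; exact le_rfl
              · exact (ptmono _ _ _ _ (pos_iff_ne_zero.2 h0) (hml j)).le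
      · simp only [c]
        rw [h]
        exact ptmono _ _ _ _ h' (hml j)
    · have h1 : i / β < l.ord := (hdle i).trans_lt hi
      exact ptα _ h1 _ (hBlt _ h1) _ (hml i)
    · obtain ⟨j, hj, hj'⟩ := hd.unb x hx
      refine ⟨β * (j + 1) + 0, hmul _ (ord_succ_lt hc.le hj) 0 hβ0, ?_⟩
      rw [hcval _ _ hβ0, pt0]
      exact (hj'.trans (bsd j (B j))).trans_le (hBle j (j + 1) (lt_add_one j))
    · rcases eq_or_ne (i % β) 0 with h0 | h0
      · simp only [c, h0, pt0]
        by_contra hcon
        push Not at hcon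
        obtain ⟨a, ha, ha'⟩ := (lt_recOrd_iff bs).1 hcon
        refine absurd ha' (not_lt.2 (bsle _ _ γ fun k hk => ?_))
        have hi0 : i = β * (i / β) := by
          have := hdm i
          rw [h0, add_zero] at this
          exact this.symm
        have h1 : β * a + k < i := by
          rw [hi0]
          exact mul_add_lt hk ha
        have h2 : β * a + k + 1 < i := hlim.succ_lt h1
        have h3 := hγ _ h2
        refine Order.add_one_le_of_lt (lt_of_lt_of_le ?_ h3)
        have h4 : c (β * a + k) = pt a (B a) k := hcval a k hk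
        rw [show recOrd bs a = B a from rfl, ← h4]
        -- monotonicity of `c`
        have hlt : β * ((β * a + k) / β) + (β * a + k) % β <
            β * ((β * a + k + 1) / β) + (β * a + k + 1) % β := by
          rw [hdm, hdm]; exact lt_add_one _
        rcases mul_add_lt_cases (hml _) hlt with h | ⟨h, h'⟩
        · calc c (β * a + k) < bs ((β * a + k) / β) (B ((β * a + k) / β)) := bslt _ _ _ (hml _)
            _ ≤ B ((β * a + k + 1) / β) := hBle _ _ h
            _ = pt ((β * a + k + 1) / β) (B ((β * a + k + 1) / β)) 0 := (pt0 _ _).symm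
            _ ≤ c (β * a + k + 1) := by
                rcases eq_or_ne ((β * a + k + 1) % β) 0 with h0 | h0
                · simp only [c, h0]; exact le_rfl
                · exact (ptmono _ _ _ _ (pos_iff_ne_zero.2 h0) (hml _)).le
        · simp only [c]
          rw [h]
          exact ptmono _ _ _ _ h' (hml _)
      · have hrlim : IsSuccLimit (i % β) := by
          rcases zero_or_succ_or_isSuccLimit (i % β) with h | ⟨a, h⟩ | h
          · exact absurd h h0
          · exfalso
            have h1 := hdm i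
            rw [← h, Order.succ_eq_add_one, ← add_assoc] at h1
            rw [← h1] at hlim
            exact (not_isSuccLimit_add_one _) hlim
          · exact h
        refine ptcont _ _ _ (hml i) hrlim γ fun k' hk' => ?_
        have hk'β : k' < β := hk'.trans (hml i)
        rw [← hcval _ _ hk'β]
        refine hγ _ ?_
        conv_rhs => rw [← hdm i]
        exact (add_lt_add_iff_left _).2 hk'
  -- the closed unbounded set
  have hidx : ∀ j, ∃ q, j < l.ord → q < l.ord ∧ β * (j + 1) ≤ q ∧ B j < d q := by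
    intro j
    by_cases hj : j < l.ord
    · obtain ⟨q, hq, hq'⟩ := hd.unb (B j) (hBlt j hj)
      have h1 : β * (j + 1) < l.ord := by
        have := hmul (j + 1) (ord_succ_lt hc.le hj) 0 hβ0
        rwa [add_zero] at this
      refine ⟨max q (β * (j + 1)), fun _ => ⟨max_lt hq h1, le_max_right _ _, ?_⟩⟩
      exact hq'.trans_le (hd.le (le_max_left _ _) (max_lt hq h1))
    · exact ⟨0, fun h => absurd h hj⟩
  choose q hq using hidx
  refine ⟨c, hcL, {x | x < l.ord ∧ IsSuccLimit x ∧ ∀ i < x, q i < x},
    club_closure hr hc q (fun i hi => (hq i hi).1), ?_⟩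
  rintro i ⟨hi, hlim, hqi⟩ h1 h2 h3 k hk0 hkβ
  have hmi : β * i = i := by
    refine le_antisymm ?_ (le_mul_of_one_le_left (zero_le) hβ1.le)
    rw [mul_le_iff_of_isSuccLimit hlim]
    intro j hj
    refine le_trans ?_ (((hq j (hj.trans hi)).2.1).trans (hqi j hj).le)
    exact mul_le_mul_right (lt_add_one j).le _
  have hBi : B i = d i := by
    refine le_antisymm ?_ ?_
    · refine recOrd_cont _ hlim fun j hj => ?_
      exact ((hq j (hj.trans hi)).2.2.le).trans (hd.le (hqi j hj).le hi)
    · refine hd.cont i hi hlim _ fun j hj => ?_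
      exact (bsd j (B j)).le.trans (hBle j i hj)
  have h4 := hcval i k hkβ
  rw [hmi, hBi, ptgood i (d i) k rfl ⟨h1, h2, h3⟩ hk0] at h4
  exact h4

end

end Pool.Agent.Lib.MP_d632e4_lc
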