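import Mathlib

set_option autoImplicit false

/-!
# Closed unbounded and stationary subsets of a regular uncountable cardinal
-/

namespace Pool.Agent.Lib.MP_d632e4_lc

open Cardinal Ordinal Order Set

/-- `D` is a closed unbounded subset of the ordinal `δ`. -/
def Club (δ : Ordinal.{0}) (D : Set Ordinal.{0}) : Prop :=
  (∀ x ∈ D, x < δ) ∧ (∀ β < δ, ∃ γ ∈ D, β < γ) ∧
    (∀ γ < δ, 0 < γ → (∀ β < γ, ∃ x ∈ D, β < x ∧ x < γ) → γ ∈ D)

/-- `T` is a stationary subset of the ordinal `δ`. -/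
def Stat (δ : Ordinal.{0}) (T : Set Ordinal.{0}) : Prop :=
  (∀ x ∈ T, x < δ) ∧ ∀ D, Club δ D → (T ∩ D).Nonempty

theorem exists_bound {ι : Type} {δ : Ordinal.{0}} (h : #ι < δ.cof) (f : ι → Ordinal.{0})
    (hf : ∀ i, f i < δ) : ∃ b < δ, ∀ i, f i ≤ b :=
  ⟨⨆ i, f i, iSup_lt_of_lt_cof h hf, fun i => Ordinal.le_iSup f i⟩

theorem exists_bound_ord {δ ξ : Ordinal.{0}} (h : ξ.card < δ.cof) (f : Ordinal.{0} → Ordinal.{0})
    (hf : ∀ j < ξ, f j < δ) : ∃ b < δ, ∀ j < ξ, f j ≤ b := by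
  have h1 : #ξ.ToType < δ.cof := by
    rwa [Cardinal.mk_toType]
  obtain ⟨b, hb, hb'⟩ := exists_bound h1 (fun x : ξ.ToType => f (ToType.mk.symm x : Set.Iio ξ).1)
    (fun x => hf _ (ToType.mk.symm x : Set.Iio ξ).2)
  refine ⟨b, hb, fun j hj => ?_⟩
  have := hb' (ToType.mk ⟨j, hj⟩)
  simpa using this

section

variable {c : Cardinal.{0}}

theorem ord_succ_lt (hc : ℵ₀ ≤ c) {β : Ordinal.{0}} (h : β < c.ord) : β + 1 < c.ord := by
  have := isSuccLimit_ord hc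
  exact this.succ_lt h

theorem card_lt_of_lt_ord {β : Ordinal.{0}} (h : β < c.ord) : β.card < c := lt_ord.1 h

/-- the supremum of a sequence of length `ω` below a regular uncountable cardinal -/
theorem exists_limit_nat {δ : Ordinal.{0}} (hc : ℵ₀ < δ.cof) (f : ℕ → Ordinal.{0})
    (hf : ∀ n, f n < δ) (hm : ∀ n, f n < f (n + 1)) :
    ∃ γ < δ, (∀ n, f n < γ) ∧ ∀ β < γ, ∃ n, β < f n := by
  refine ⟨⨆ n, f n, iSup_lt_of_lt_cof (by simpa using hc) hf, fun n => ?_, fun β hβ => ?_⟩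
  · exact (hm n).trans_le (Ordinal.le_iSup f (n + 1))
  · exact Ordinal.lt_iSup_iff.1 hβ

theorem club_iInter {ι : Type} (hr : c.IsRegular) (hc : ℵ₀ < c) (hι : #ι < c)
    (D : ι → Set Ordinal.{0}) (hD : ∀ i, Club c.ord (D i)) :
    Club c.ord {x | x < c.ord ∧ ∀ i, x ∈ D i} := by
  refine ⟨fun x hx => hx.1, fun β hβ => ?_, fun γ hγ h0 h => ⟨hγ, fun i => ?_⟩⟩
  · have hcof : c.ord.cof = c := hr.cof_ord
    have step : ∀ b : Ordinal.{0}, b < c.ord → ∃ b' < c.ord, b < b' ∧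
        ∀ i, ∃ x ∈ D i, b < x ∧ x ≤ b' := by
      intro b hb
      choose g hg hbg using fun i => (hD i).2.1 b hb
      obtain ⟨b', hb', hle⟩ := exists_bound (by rwa [hcof]) g (fun i => (hD i).1 _ (hg i))
      refine ⟨max b' (b + 1), max_lt hb' (ord_succ_lt hc.le hb), ?_, fun i => ⟨g i, hg i, hbg i, ?_⟩⟩
      · exact lt_max_of_lt_right (lt_add_one b)
      · exact (hle i).trans (le_max_left _ _)
    choose! s hs1 hs2 hs3 using step
    let f : ℕ → Ordinal.{0} := fun n => s^[n] β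
    have hfs : ∀ n, f (n + 1) = s (f n) := fun n => Function.iterate_succ_apply' s n β
    have hf : ∀ n, f n < c.ord := by
      intro n
      induction n with
      | zero => exact hβ
      | succ n ih => rw [hfs]; exact hs1 _ ih
    obtain ⟨γ, hγ, h1, h2⟩ := exists_limit_nat (by rwa [hcof]) f hf
      (fun n => by rw [hfs]; exact hs2 _ (hf n))
    refine ⟨γ, ⟨hγ, fun i => ?_⟩, h1 0⟩
    refine (hD i).2.2 γ hγ (zero_le.trans_lt (h1 0)) fun b hb => ?_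
    obtain ⟨n, hn⟩ := h2 b hb
    obtain ⟨x, hx, hx1, hx2⟩ := hs3 (f n) (hf n) i
    refine ⟨x, hx, hn.trans hx1, ?_⟩
    refine hx2.trans_lt ?_
    rw [← hfs]
    exact h1 (n + 1)
  · refine (hD i).2.2 γ hγ h0 fun β hβ => ?_
    obtain ⟨x, hx, h1⟩ := h β hβ
    exact ⟨x, hx.2 i, h1⟩

theorem club_top (hc : ℵ₀ ≤ c) : Club c.ord {x | x < c.ord} := by
  refine ⟨fun x hx => hx, fun β hβ => ⟨β + 1, ord_succ_lt hc hβ, lt_add_one β⟩,
    fun γ hγ _ _ => hγ⟩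

theorem club_inter (hr : c.IsRegular) (hc : ℵ₀ < c) {D E : Set Ordinal.{0}}
    (hD : Club c.ord D) (hE : Club c.ord E) : Club c.ord (D ∩ E) := by
  have h := club_iInter (ι := Bool) hr hc (by
    refine lt_of_lt_of_le ?_ hc.le
    exact Cardinal.lt_aleph0_of_finite Bool) (fun b => if b then D else E) (by
    intro b; cases b <;> simpa)
  refine ⟨fun x hx => hD.1 x hx.1, fun β hβ => ?_, fun γ hγ h0 h1 => ⟨?_, ?_⟩⟩
  · obtain ⟨γ, hγ, hb⟩ := h.2.1 β hβ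
    exact ⟨γ, ⟨by simpa using hγ.2 true, by simpa using hγ.2 false⟩, hb⟩
  · exact hD.2.2 γ hγ h0 fun β hβ => by
      obtain ⟨x, hx, h2⟩ := h1 β hβ
      exact ⟨x, hx.1, h2⟩
  · exact hE.2.2 γ hγ h0 fun β hβ => by
      obtain ⟨x, hx, h2⟩ := h1 β hβ
      exact ⟨x, hx.2, h2⟩

/-- diagonal intersections -/
theorem club_diag (hr : c.IsRegular) (hc : ℵ₀ < c) (D : Ordinal.{0} → Set Ordinal.{0})
    (hD : ∀ i < c.ord, Club c.ord (D i)) :
    Club c.ord {x | x < c.ord ∧ ∀ i < x, x ∈ D i} := by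
  refine ⟨fun x hx => hx.1, fun β hβ => ?_, fun γ hγ h0 h => ⟨hγ, fun i hi => ?_⟩⟩
  · have hcof : c.ord.cof = c := hr.cof_ord
    have step : ∀ b : Ordinal.{0}, b < c.ord → ∃ b' < c.ord, b < b' ∧
        ∀ i < b, ∃ x ∈ D i, b < x ∧ x ≤ b' := by
      intro b hb
      have hg : ∀ i, ∃ x, i < b → x ∈ D i ∧ b < x := by
        intro i
        by_cases hi : i < b
        · obtain ⟨x, hx, hbx⟩ := (hD i (hi.trans hb)).2.1 b hb
          exact ⟨x, fun _ => ⟨hx, hbx⟩⟩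
        · exact ⟨0, fun h => absurd h hi⟩
      choose g hg using hg
      obtain ⟨b', hb', hle⟩ := exists_bound_ord (δ := c.ord) (ξ := b)
        (by rw [hcof]; exact card_lt_of_lt_ord hb) g
        (fun i hi => (hD i (hi.trans hb)).1 _ (hg i hi).1)
      refine ⟨max b' (b + 1), max_lt hb' (ord_succ_lt hc.le hb), ?_,
        fun i hi => ⟨g i, (hg i hi).1, (hg i hi).2, ?_⟩⟩
      · exact lt_max_of_lt_right (lt_add_one b)
      · exact (hle i hi).trans (le_max_left _ _)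
    choose! s hs1 hs2 hs3 using step
    let f : ℕ → Ordinal.{0} := fun n => s^[n] β
    have hfs : ∀ n, f (n + 1) = s (f n) := fun n => Function.iterate_succ_apply' s n β
    have hf : ∀ n, f n < c.ord := by
      intro n
      induction n with
      | zero => exact hβ
      | succ n ih => rw [hfs]; exact hs1 _ ih
    have hmono : ∀ n, f n < f (n + 1) := fun n => by rw [hfs]; exact hs2 _ (hf n)
    have hmono' : StrictMono f := strictMono_nat_of_lt_succ hmono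
    obtain ⟨γ, hγ, h1, h2⟩ := exists_limit_nat (by rwa [hcof]) f hf hmono
    refine ⟨γ, ⟨hγ, fun i hi => ?_⟩, h1 0⟩
    refine (hD i (hi.trans hγ)).2.2 γ hγ (zero_le.trans_lt (h1 0)) fun b hb => ?_
    obtain ⟨n, hn⟩ := h2 (max b i) (max_lt hb hi)
    obtain ⟨x, hx, hx1, hx2⟩ := hs3 (f n) (hf n) i ((le_max_right _ _).trans_lt hn)
    refine ⟨x, hx, ((le_max_left _ _).trans_lt hn).trans hx1, ?_⟩
    refine hx2.trans_lt ?_
    rw [← hfs]
    exact h1 (n + 1)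
  · refine (hD i (hi.trans hγ)).2.2 γ hγ h0 fun β hβ => ?_
    obtain ⟨x, hx, h1, h2⟩ := h (max β i) (max_lt hβ hi)
    exact ⟨x, hx.2 i ((le_max_right _ _).trans_lt h1), (le_max_left _ _).trans_lt h1, h2⟩

theorem Stat.mono {δ : Ordinal.{0}} {S T : Set Ordinal.{0}} (hS : Stat δ S) (h : S ⊆ T)
    (hT : ∀ x ∈ T, x < δ) : Stat δ T :=
  ⟨hT, fun D hD => (hS.2 D hD).mono (Set.inter_subset_inter_left _ h)⟩

theorem Stat.inter_club (hr : c.IsRegular) (hc : ℵ₀ < c) {T D : Set Ordinal.{0}}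
    (hT : Stat c.ord T) (hD : Club c.ord D) : Stat c.ord (T ∩ D) := by
  refine ⟨fun x hx => hT.1 x hx.1, fun E hE => ?_⟩
  obtain ⟨x, hx, hx'⟩ := hT.2 _ (club_inter hr hc hD hE)
  exact ⟨x, ⟨hx, hx'.1⟩, hx'.2⟩

theorem exists_club_of_not_stat {δ : Ordinal.{0}} {T : Set Ordinal.{0}} (hT : ∀ x ∈ T, x < δ)
    (h : ¬ Stat δ T) : ∃ D, Club δ D ∧ ∀ x ∈ T, x ∉ D := by
  by_contra hcon
  refine h ⟨hT, fun D hD => ?_⟩
  by_contra h2
  exact hcon ⟨D, hD, fun x hx hxD => h2 ⟨x, hx, hxD⟩⟩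

theorem stat_union {ι : Type} (hr : c.IsRegular) (hc : ℵ₀ < c) (hι : #ι < c)
    (T : ι → Set Ordinal.{0}) (hT : ∀ i, ∀ x ∈ T i, x < c.ord) {S : Set Ordinal.{0}}
    (hS : Stat c.ord S) (h : ∀ x ∈ S, ∃ i, x ∈ T i) : ∃ i, Stat c.ord (T i) := by
  by_contra hcon
  have h1 : ∀ i, ∃ D, Club c.ord D ∧ ∀ x ∈ T i, x ∉ D := fun i =>
    exists_club_of_not_stat (hT i) fun h2 => hcon ⟨i, h2⟩
  choose D hD hdis using h1
  obtain ⟨x, hx, hd⟩ := hS.2 _ (club_iInter hr hc hι D hD)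
  obtain ⟨i, hi⟩ := h x hx
  exact hdis i x hi (hd.2 i)

theorem fodor (hr : c.IsRegular) (hc : ℵ₀ < c) {S : Set Ordinal.{0}} (hS : Stat c.ord S)
    (f : Ordinal.{0} → Ordinal.{0}) (hf : ∀ x ∈ S, f x < x) :
    ∃ η, Stat c.ord {x | x ∈ S ∧ f x = η} := by
  by_contra hcon
  have h1 : ∀ η, ∃ D, Club c.ord D ∧ ∀ x ∈ S, f x = η → x ∉ D := by
    intro η
    obtain ⟨D, hD, hd⟩ := exists_club_of_not_stat (δ := c.ord)
      (T := {x | x ∈ S ∧ f x = η}) (fun x hx => hS.1 x hx.1) fun h2 => hcon ⟨η, h2⟩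
    exact ⟨D, hD, fun x hx hxη => hd x ⟨hx, hxη⟩⟩
  choose D hD hdis using h1
  obtain ⟨x, hx, hd⟩ := hS.2 _ (club_diag hr hc D fun i _ => hD i)
  exact hdis (f x) x hx rfl (hd.2 (f x) (hf x hx))

/-- Fodor's lemma for finitely many regressive functions -/
theorem fodor_fin (hr : c.IsRegular) (hc : ℵ₀ < c) {S : Set Ordinal.{0}} (hS : Stat c.ord S)
    (f : ℕ → Ordinal.{0} → Ordinal.{0}) (n : ℕ) (hf : ∀ k < n, ∀ x ∈ S, f k x < x) :
    ∃ η : ℕ → Ordinal.{0}, Stat c.ord {x | x ∈ S ∧ ∀ k < n, f k x = η k} := by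
  induction n with
  | zero =>
    refine ⟨fun _ => 0, ?_⟩
    simpa using hS
  | succ n ih =>
    obtain ⟨η, hη⟩ := ih fun k hk => hf k (hk.trans (Nat.lt_succ_self n))
    obtain ⟨ε, hε⟩ := fodor hr hc hη (f n) fun x hx => hf n (Nat.lt_succ_self n) x hx.1
    refine ⟨fun k => if k = n then ε else η k, hε.mono ?_ ?_⟩
    · rintro x ⟨⟨hx, h1⟩, h2⟩
      refine ⟨hx, fun k hk => ?_⟩
      by_cases hkn : k = n
      · simp [hkn, h2]
      · simp only [hkn, if_false]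
        exact h1 k (lt_of_le_of_ne (Nat.lt_succ_iff.1 hk) hkn)
    · exact fun x hx => hS.1 x hx.1

/-- the points of a closed unbounded set in which it is unbounded -/
def acc (D : Set Ordinal.{0}) : Set Ordinal.{0} :=
  {x | x ∈ D ∧ 0 < x ∧ ∀ β < x, ∃ y ∈ D, β < y ∧ y < x}

theorem club_acc (hr : c.IsRegular) (hc : ℵ₀ < c) {D : Set Ordinal.{0}} (hD : Club c.ord D) :
    Club c.ord (acc D) := by
  have hcof : c.ord.cof = c := hr.cof_ord
  refine ⟨fun x hx => hD.1 x hx.1, fun β hβ => ?_, fun γ hγ h0 h => ?_⟩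
  · have step : ∀ b : Ordinal.{0}, b < c.ord → ∃ b' ∈ D, b < b' := fun b hb => hD.2.1 b hb
    choose! s hs1 hs2 using step
    let f : ℕ → Ordinal.{0} := fun n => s^[n + 1] β
    have hfs : ∀ n, f (n + 1) = s (f n) := fun n => Function.iterate_succ_apply' s (n + 1) β
    have hf : ∀ n, f n ∈ D := by
      intro n
      induction n with
      | zero => exact hs1 β hβ
      | succ n ih => rw [hfs]; exact hs1 _ (hD.1 _ ih)
    obtain ⟨γ, hγ, h1, h2⟩ := exists_limit_nat (by rwa [hcof]) f (fun n => hD.1 _ (hf n))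
      (fun n => by rw [hfs]; exact hs2 _ (hD.1 _ (hf n)))
    have h3 : ∀ b < γ, ∃ y ∈ D, b < y ∧ y < γ := by
      intro b hb
      obtain ⟨n, hn⟩ := h2 b hb
      exact ⟨f n, hf n, hn, h1 n⟩
    have h0 : 0 < γ := zero_le.trans_lt (h1 0)
    exact ⟨γ, ⟨hD.2.2 γ hγ h0 h3, h0, h3⟩, (hs2 β hβ).trans (h1 0)⟩
  · have h3 : ∀ b < γ, ∃ y ∈ D, b < y ∧ y < γ := by
      intro b hb
      obtain ⟨x, hx, h1⟩ := h b hb
      exact ⟨x, hx.1, h1⟩
    exact ⟨hD.2.2 γ hγ h0 h3, h0, h3⟩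

/-- the limit ordinals closed under a function -/
theorem club_closure (hr : c.IsRegular) (hc : ℵ₀ < c) (h : Ordinal.{0} → Ordinal.{0})
    (hh : ∀ i < c.ord, h i < c.ord) :
    Club c.ord {x | x < c.ord ∧ IsSuccLimit x ∧ ∀ i < x, h i < x} := by
  have hcof : c.ord.cof = c := hr.cof_ord
  refine ⟨fun x hx => hx.1, fun β hβ => ?_, fun γ hγ h0 hγ' => ⟨hγ, ?_, fun i hi => ?_⟩⟩
  · have step : ∀ b : Ordinal.{0}, b < c.ord → ∃ b' < c.ord, b < b' ∧ ∀ i < b, h i < b' := by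
      intro b hb
      obtain ⟨b', hb', hle⟩ := exists_bound_ord (δ := c.ord) (ξ := b)
        (by rw [hcof]; exact card_lt_of_lt_ord hb) h (fun i hi => hh i (hi.trans hb))
      refine ⟨max b' b + 1, ord_succ_lt hc.le (max_lt hb' hb), ?_, fun i hi => ?_⟩
      · exact (le_max_right _ _).trans_lt (lt_add_one _)
      · exact ((hle i hi).trans (le_max_left _ _)).trans_lt (lt_add_one _)
    choose! s hs1 hs2 hs3 using step
    let f : ℕ → Ordinal.{0} := fun n => s^[n] β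
    have hfs : ∀ n, f (n + 1) = s (f n) := fun n => Function.iterate_succ_apply' s n β
    have hf : ∀ n, f n < c.ord := by
      intro n
      induction n with
      | zero => exact hβ
      | succ n ih => rw [hfs]; exact hs1 _ ih
    obtain ⟨γ, hγ, h1, h2⟩ := exists_limit_nat (by rwa [hcof]) f hf
      (fun n => by rw [hfs]; exact hs2 _ (hf n))
    refine ⟨γ, ⟨hγ, ?_, fun i hi => ?_⟩, h1 0⟩
    · refine (isSuccLimit_iff_of_orderBot).2 ⟨(zero_le.trans_lt (h1 0)).ne', ?_⟩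
      intro a ha
      obtain ⟨n, hn⟩ := h2 a ha.1
      exact ha.2 hn (h1 n)
    · obtain ⟨n, hn⟩ := h2 i hi
      refine (hs3 (f n) (hf n) i hn).trans ?_
      rw [← hfs]
      exact h1 (n + 1)
  · refine (isSuccLimit_iff_of_orderBot).2 ⟨h0.ne', ?_⟩
    intro a ha
    obtain ⟨x, _, h1, h2⟩ := hγ' a ha.1
    exact ha.2 h1 h2
  · obtain ⟨x, hx, h1, h2⟩ := hγ' i hi
    exact (hx.2.2 i h1).trans h2

end

end Pool.Agent.Lib.MP_d632e4_lc
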