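import Pool.Agent.Lib.MP_d632e4_lc.Windows

set_option autoImplicit false

/-!
# `b(l)` ladders at every point suffice

`unbounded_club`: from a family of functions which is unbounded modulo bounded sets one gets a
family of the same size which is unbounded modulo nonstationary sets (windows argument).
`enough`: the ladders given by such a family guess `n` consecutive successor points of every closed
unbounded set at every limit point of cofinality `l`.
-/

namespace Pool.Agent.Lib.MP_d632e4_lc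

open Cardinal Ordinal Order Set

theorem unbounded_club {l : Cardinal.{0}} (hr : l.IsRegular) (hc : ℵ₀ < l)
    (F : Set (Ordinal.{0} → Ordinal.{0})) (hF : ∀ f ∈ F, ∀ i < l.ord, f i < l.ord)
    (hFu : ∀ h : Ordinal.{0} → Ordinal.{0}, (∀ i < l.ord, h i < l.ord) →
      ∃ f ∈ F, ∀ j < l.ord, ∃ i < l.ord, j ≤ i ∧ h i < f i) :
    ∃ F' : Set (Ordinal.{0} → Ordinal.{0}), #F' ≤ #F ∧ (∀ f ∈ F', ∀ i < l.ord, f i < l.ord) ∧
      ∀ g : Ordinal.{0} → Ordinal.{0}, (∀ i < l.ord, g i < l.ord) →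
        ∃ f ∈ F', Stat l.ord {i | i < l.ord ∧ g i ≤ f i} := by
  classical
  by_contra hcon
  have hlcof : l.ord.cof = l := hr.cof_ord
  have h0l : 0 < l.ord := omega0_pos.trans_le (omega0_le_ord.2 hc.le)
  -- every family indexed by `F` is bounded modulo nonstationary sets
  have step : ∀ u : F → Ordinal.{0} → Ordinal.{0}, ∃ g : Ordinal.{0} → Ordinal.{0},
      ∃ C : F → Set Ordinal.{0}, (∀ i < l.ord, g i < l.ord) ∧ (∀ f, Club l.ord (C f)) ∧
        ((∀ f, ∀ i < l.ord, u f i < l.ord) → ∀ f, ∀ i ∈ C f, u f i < g i) := by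
    intro u
    by_cases hu : ∀ f, ∀ i < l.ord, u f i < l.ord
    · have h1 : ∃ g : Ordinal.{0} → Ordinal.{0}, (∀ i < l.ord, g i < l.ord) ∧
          ∀ f ∈ Set.range u, ¬ Stat l.ord {i | i < l.ord ∧ g i ≤ f i} := by
        by_contra h2
        push Not at h2
        refine hcon ⟨Set.range u, Cardinal.mk_range_le, ?_, fun g hg => h2 g hg⟩
        rintro _ ⟨f, rfl⟩ i hi
        exact hu f i hi
      obtain ⟨g, hg, hg'⟩ := h1
      choose C hC hC' using fun f => exists_club_of_not_stat (fun x hx => hx.1)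
        (hg' (u f) ⟨f, rfl⟩)
      refine ⟨g, C, hg, hC, fun _ f i hi => ?_⟩
      by_contra h3
      exact hC' f i ⟨(hC f).1 i hi, not_lt.1 h3⟩ hi
    · exact ⟨fun _ => 0, fun _ => _, fun _ _ => h0l, fun _ => club_top hc.le,
        fun h2 => absurd h2 hu⟩
  choose G C hG hC hGC using step
  -- values of `f` up to `y`
  have hS : ∀ f : F, ∀ y, ∃ z, (y < l.ord → z < l.ord) ∧ (y < l.ord → ∀ x ≤ y, f.1 x ≤ z) := by
    intro f y
    by_cases hy : y < l.ord
    · have hy1 := ord_succ_lt hc.le hy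
      obtain ⟨z, hz, hz'⟩ := exists_bound_ord (δ := l.ord) (ξ := y + 1)
        (by rw [hlcof]; exact card_lt_of_lt_ord hy1) f.1 (fun x hx => hF f.1 f.2 x (hx.trans hy1))
      exact ⟨z, fun _ => hz, fun _ x hx => hz' x (lt_of_le_of_lt hx (lt_add_one y))⟩
    · exact ⟨0, fun h2 => absurd h2 hy, fun h2 => absurd h2 hy⟩
  choose S hS1 hS2 using hS
  let nx : Set Ordinal.{0} → Ordinal.{0} → Ordinal.{0} := fun K b =>
    if hb : ∃ x ∈ K, b < x then hb.choose else b + 1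
  have hnx1 : ∀ K b, b < nx K b := by
    intro K b
    by_cases hb : ∃ x ∈ K, b < x
    · simp only [nx, dif_pos hb]
      exact hb.choose_spec.2
    · simp only [nx, dif_neg hb]
      exact lt_add_one b
  have hnx2 : ∀ K, Club l.ord K → ∀ b < l.ord, nx K b ∈ K := by
    intro K hK b hb
    have hb' : ∃ x ∈ K, b < x := hK.2.1 b hb
    simp only [nx, dif_pos hb']
    exact hb'.choose_spec.1
  -- stages: the bounds `b` and the closed unbounded sets `K f`
  let U : (Ordinal.{0} → Ordinal.{0}) × (F → Set Ordinal.{0}) → F → Ordinal.{0} → Ordinal.{0} :=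
    fun p f i => nx (p.2 f) (max (p.1 i) (S f (p.1 i)))
  let R : ℕ → (Ordinal.{0} → Ordinal.{0}) × (F → Set Ordinal.{0}) :=
    fun m => Nat.rec ((fun i => i + 1), fun _ => {x | x < l.ord})
      (fun _ p => ((fun i => max (G (U p) i) (p.1 i) + 1), fun f => p.2 f ∩ C (U p) f)) m
  have hR1 : ∀ m i, (R (m + 1)).1 i = max (G (U (R m)) i) ((R m).1 i) + 1 := fun m i => rfl
  have hR2 : ∀ m f, (R (m + 1)).2 f = (R m).2 f ∩ C (U (R m)) f := fun m f => rfl
  have hK : ∀ m f, Club l.ord ((R m).2 f) := by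
    intro m
    induction m with
    | zero => exact fun f => club_top hc.le
    | succ m ih => exact fun f => club_inter hr hc (ih f) (hC _ f)
  have hb : ∀ m, ∀ i < l.ord, (R m).1 i < l.ord := by
    intro m
    induction m with
    | zero => exact fun i hi => ord_succ_lt hc.le hi
    | succ m ih => exact fun i hi => ord_succ_lt hc.le (max_lt (hG _ i hi) (ih i hi))
  have hU : ∀ m f, ∀ i < l.ord, U (R m) f i ∈ (R m).2 f := fun m f i hi =>
    hnx2 _ (hK m f) _ (max_lt (hb m i hi) (hS1 f _ (hb m i hi)))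
  have hUl : ∀ m f, ∀ i < l.ord, U (R m) f i < l.ord := fun m f i hi => (hK m f).1 _ (hU m f i hi)
  have hUb : ∀ m f i, max ((R m).1 i) (S f ((R m).1 i)) < U (R m) f i := fun m f i => hnx1 _ _
  have hUG : ∀ m f, ∀ i ∈ (R (m + 1)).2 f, U (R m) f i < (R (m + 1)).1 i := by
    intro m f i hi
    have h1 := hGC (U (R m)) (hUl m) f i hi.2
    rw [hR1]
    exact (h1.trans_le (le_max_left _ _)).trans (lt_add_one _)
  have hbm : ∀ m i, (R m).1 i < (R (m + 1)).1 i := by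
    intro m i
    rw [hR1]
    exact (le_max_right _ _).trans_lt (lt_add_one _)
  have hanti : ∀ m m' f, m ≤ m' → (R m').2 f ⊆ (R m).2 f := by
    intro m m' f hmm'
    induction m', hmm' using Nat.le_induction with
    | base => exact subset_rfl
    | succ k _ ih => exact Set.inter_subset_left.trans ih
  have hω' : #ℕ < l := by simpa using hc
  let s : Ordinal.{0} → Ordinal.{0} := fun i => ⨆ m, (R m).1 i
  have hsl : ∀ i < l.ord, s i < l.ord := fun i hi =>
    iSup_lt_of_lt_cof (by rw [hlcof]; exact hω') (fun m => hb m i hi)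
  have hbs : ∀ m i, (R m).1 i < s i := fun m i =>
    (hbm m i).trans_le (Ordinal.le_iSup (fun m => (R m).1 i) (m + 1))
  -- the bound of all the functions
  have hB : ∀ j, ∃ z, (j < l.ord → z < l.ord) ∧ (j < l.ord → ∀ i ≤ j, s i ≤ z) := by
    intro j
    by_cases hj : j < l.ord
    · have hj1 := ord_succ_lt hc.le hj
      obtain ⟨z, hz, hz'⟩ := exists_bound_ord (δ := l.ord) (ξ := j + 1)
        (by rw [hlcof]; exact card_lt_of_lt_ord hj1) s (fun x hx => hsl x (hx.trans hj1))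
      exact ⟨z, fun _ => hz, fun _ x hx => hz' x (lt_of_le_of_lt hx (lt_add_one j))⟩
    · exact ⟨0, fun h2 => absurd h2 hj, fun h2 => absurd h2 hj⟩
  choose B hB1 hB2 using hB
  obtain ⟨f, hfF, hfB⟩ := hFu B (fun i hi => hB1 i hi)
  let f' : F := ⟨f, hfF⟩
  have hKω := club_iInter hr hc hω' (fun m => (R m).2 f') fun m => hK m f'
  set Kω : Set Ordinal.{0} := {x | x < l.ord ∧ ∀ m, x ∈ (R m).2 f'} with hKωdef
  obtain ⟨i₀, hi₀, _⟩ := hKω.2.1 0 h0l
  obtain ⟨j, hj, hj0, hjB⟩ := hfB i₀ (hKω.1 _ hi₀)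
  have hi' : nu Kω j ∈ Kω := nu_mem hKω hj ⟨i₀, hi₀, hj0⟩
  have hi'l : nu Kω j < l.ord := hKω.1 _ hi'
  set i := nu Kω j with hidef
  have hmono : StrictMono fun m => (R m).1 i := strictMono_nat_of_lt_succ fun m => hbm m i
  have hsK : ∀ m, s i ∈ (R m).2 f' := by
    intro m
    refine (hK m f').2.2 _ (hsl i hi'l) (zero_le.trans_lt (hbs 0 i)) fun β hβ => ?_
    obtain ⟨k, hk⟩ := Ordinal.lt_iSup_iff.1 hβ
    obtain ⟨q, hq1, hq2⟩ : ∃ q : ℕ, m ≤ q ∧ k ≤ q := ⟨max m k, le_max_left _ _, le_max_right _ _⟩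
    refine ⟨U (R q) f' i, hanti m q f' hq1 (hU q f' i hi'l), ?_, ?_⟩
    · exact (lt_of_lt_of_le hk (hmono.monotone hq2)).trans
        ((le_max_left _ _).trans_lt (hUb q f' i))
    · exact (hUG q f' i (hi'.2 (q + 1))).trans (hbs (q + 1) i)
  have hjs : j < s i := by
    by_contra hle
    push Not at hle
    have h1 : s i ≤ i := le_nu (D := Kω) ⟨hsl i hi'l, hsK⟩ hle
    have h2 : i < s i := (lt_add_one i).trans (hbs 0 i)
    exact absurd h1 (not_le.2 h2)
  obtain ⟨m, hm⟩ := Ordinal.lt_iSup_iff.1 hjs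
  have h3 : f j ≤ S f' ((R m).1 i) := hS2 f' _ (hb m i hi'l) j hm.le
  have h4 : S f' ((R m).1 i) < s i := ((le_max_right _ _).trans_lt (hUb m f' i)).trans
    ((hUG m f' i (hi'.2 (m + 1))).trans (hbs (m + 1) i))
  have h5 : s i ≤ B j := hB2 j hj i (nu_le _ _)
  exact absurd (h3.trans_lt (h4.trans_le h5)) (not_lt.2 hjB.le)

theorem enough {l m : Cardinal.{0}} (hm : ℵ₀ ≤ m) (hl : l = succ m) (n : ℕ)
    (F : Set (Ordinal.{0} → Ordinal.{0})) (hF : ∀ f ∈ F, ∀ i < l.ord, f i < l.ord)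
    (hFu : ∀ g : Ordinal.{0} → Ordinal.{0}, (∀ i < l.ord, g i < l.ord) →
      ∃ f ∈ F, Stat l.ord {i | i < l.ord ∧ g i ≤ f i}) :
    ∃ c : F × (Fin n → m.ord.ToType) → Ordinal.{0} → Ordinal.{0} → Ordinal.{0},
      (∀ α < (succ l).ord, α.cof = l → ∀ p, Ladder l α (c p α)) ∧
      ∀ α < (succ l).ord, α.cof = l → ∀ D : Set Ordinal.{0},
        (∀ β < α, ∃ x ∈ D, β < x ∧ x < α) →
          ∃ p, Stat l.ord {i | i < l.ord ∧ ∀ k : ℕ, 1 ≤ k → k ≤ n → c p α (i + k) ∈ D} := by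
  classical
  have hml : m < l := by rw [hl]; exact lt_succ m
  have hr : l.IsRegular := by rw [hl]; exact isRegular_succ hm
  have hc : ℵ₀ < l := hm.trans_lt hml
  have hlcof : l.ord.cof = l := hr.cof_ord
  have h0l : 0 < l.ord := omega0_pos.trans_le (omega0_le_ord.2 hc.le)
  obtain ⟨d, hd⟩ := exists_ladders hc
  obtain ⟨π, hπ⟩ := exists_pi (l := l)
  obtain ⟨s, hs⟩ := exists_enum_le hm hl
  have hι : #(Fin n → m.ord.ToType) < l := (card_fin_le hm n).trans_lt hml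
  let t : F × (Fin n → m.ord.ToType) → Ordinal.{0} → Ordinal.{0} → ℕ → Ordinal.{0} :=
    fun p α i k => π α
      (s (p.1.1 i) (if h : k - 1 < n then (ToType.toOrd (p.2 ⟨k - 1, h⟩)).1 else 0))
  have hins : ∀ (p : F × (Fin n → m.ord.ToType)) α, ∃ c : Ordinal.{0} → Ordinal.{0},
      ∃ e : Set Ordinal.{0}, α < (succ l).ord → α.cof = l → Ladder l α c ∧ Club l.ord e ∧
        ∀ i ∈ e, d α i < t p α i 1 →
          (∀ k, 1 ≤ k → k < n → t p α i k < t p α i (k + 1)) →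
          (∀ k, 1 ≤ k → k ≤ n → t p α i k < α) →
          ∀ k : ℕ, 1 ≤ k → k ≤ n → c (i + k) = t p α i k := by
    intro p α
    by_cases h : α < (succ l).ord ∧ α.cof = l
    · obtain ⟨c, h1, e, h2, h3⟩ := ladder_insert hr hc h.2 (hd α h.1 h.2) n (t p α)
      exact ⟨c, e, fun _ _ => ⟨h1, h2, h3⟩⟩
    · exact ⟨fun _ => 0, ∅, fun h1 h2 => absurd ⟨h1, h2⟩ h⟩
  choose c e hce using hins
  refine ⟨c, fun α h1 h2 p => (hce p α h1 h2).1, fun α hακ hcof D hD => ?_⟩
  have hla := hd α hακ hcof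
  have hα0 : 0 < α := zero_le.trans_lt (hla.lt 0 h0l)
  obtain ⟨hπ1, hπ2⟩ := hπ α hακ hα0
  -- the next points of `D`
  have hx : ∀ b, ∃ x, b < α → x ∈ D ∧ b < x ∧ x < α := by
    intro b
    by_cases hb : b < α
    · obtain ⟨x, hx, h1, h2⟩ := hD b hb
      exact ⟨x, fun _ => ⟨hx, h1, h2⟩⟩
    · exact ⟨0, fun h2 => absurd h2 hb⟩
  choose x hx using hx
  let y : Ordinal.{0} → ℕ → Ordinal.{0} := fun i k => Nat.rec (d α i) (fun _ b => x b) k
  have hyS : ∀ i k, y i (k + 1) = x (y i k) := fun i k => rfl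
  have hy : ∀ i < l.ord, ∀ k, y i k < α := by
    intro i hi k
    induction k with
    | zero => exact hla.lt i hi
    | succ k ih =>
      rw [hyS]
      exact (hx _ ih).2.2
  have hyD : ∀ i < l.ord, ∀ k, y i (k + 1) ∈ D ∧ y i k < y i (k + 1) := fun i hi k => by
    rw [hyS]
    exact ⟨(hx _ (hy i hi k)).1, (hx _ (hy i hi k)).2.1⟩
  have hidx : ∀ i, ∀ k : ℕ, ∃ ε, ε < l.ord ∧ (i < l.ord → π α ε = y i k) := by
    intro i k
    by_cases hi : i < l.ord
    · obtain ⟨ε, hε, hε'⟩ := hπ2 _ (hy i hi k)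
      exact ⟨ε, hε, fun _ => hε'⟩
    · exact ⟨0, h0l, fun h2 => absurd h2 hi⟩
  choose ix hix1 hix2 using hidx
  have hω' : #ℕ < l := by simpa using hc
  obtain ⟨f, hfF, hfS⟩ := hFu (fun i => ⨆ k : ℕ, ix i k) (fun i _ =>
    iSup_lt_of_lt_cof (by rw [hlcof]; exact hω') (fun k => hix1 i k))
  obtain ⟨η, hη⟩ := stat_union hr hc hι
    (fun η => {i | i < l.ord ∧ ∀ k : ℕ, 1 ≤ k → k ≤ n → t (⟨f, hfF⟩, η) α i k = y i k})
    (fun η x hx => hx.1) hfS (by
      rintro i ⟨hi, hle⟩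
      have h1 : ∀ k : Fin n, ∃ η < m.ord, s (f i) η = ix i ((k : ℕ) + 1) := fun k =>
        hs _ (hF f hfF i hi) _ ((Ordinal.le_iSup (fun k : ℕ => ix i k) ((k : ℕ) + 1)).trans hle)
      choose η hη hη' using h1
      refine ⟨fun k => ToType.mk ⟨η k, hη k⟩, hi, fun k hk1 hk2 => ?_⟩
      obtain ⟨q, rfl⟩ : ∃ q, k = q + 1 := ⟨k - 1, by omega⟩
      have h2 : q + 1 - 1 < n := by omega
      have h3 : t (⟨f, hfF⟩, fun k => ToType.mk ⟨η k, hη k⟩) α i (q + 1) =
          π α (s (f i) (η ⟨q, by omega⟩)) := by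
        simp only [t, dif_pos h2, OrderIso.symm_apply_apply]
        simp
      rw [h3, hη', hix2 i _ hi])
  refine ⟨(⟨f, hfF⟩, η), (hη.inter_club hr hc (hce (⟨f, hfF⟩, η) α hακ hcof).2.1).mono ?_
    fun x hx => hx.1⟩
  rintro i ⟨⟨hi, hiη⟩, hie⟩
  refine ⟨hi, fun k hk1 hk2 => ?_⟩
  obtain ⟨_, _, hv⟩ := hce (⟨f, hfF⟩, η) α hακ hcof
  have hn : 1 ≤ n := hk1.trans hk2
  rw [hv i hie ?_ ?_ ?_ k hk1 hk2, hiη k hk1 hk2]
  · obtain ⟨q, rfl⟩ : ∃ q, k = q + 1 := ⟨k - 1, by omega⟩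
    exact (hyD i hi q).1
  · rw [hiη 1 le_rfl hn]
    exact (hyD i hi 0).2
  · intro k hk1 hk2
    rw [hiη k hk1 hk2.le, hiη (k + 1) (by omega) (by omega)]
    exact (hyD i hi k).2
  · intro k hk1 hk2
    rw [hiη k hk1 hk2]
    exact hy i hi k

end Pool.Agent.Lib.MP_d632e4_lc
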