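import Pool.Agent.Lib.MP_d632e4_lc.Long

set_option autoImplicit false

/-!
# Guessing from few candidates
-/

namespace Pool.Agent.Lib.MP_d632e4_lc

open Cardinal Ordinal Order Set

/-- an enumeration of an ordinal of cardinality at most `c` in type `c.ord` -/
theorem exists_enum {α : Ordinal.{0}} {c : Cardinal.{0}} (h : α.card ≤ c) :
    ∃ f : Ordinal.{0} → Ordinal.{0}, ∀ β < α, ∃ ε < c.ord, f ε = β := by
  classical
  have h1 : #α.ToType ≤ #c.ord.ToType := by
    rw [Cardinal.mk_toType, Cardinal.mk_toType, card_ord]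
    exact h
  obtain ⟨g⟩ := Cardinal.le_def _ _ |>.1 h1
  refine ⟨fun ε => if hε : ∃ x : α.ToType, (ToType.toOrd (g x)).1 = ε then
    (ToType.toOrd hε.choose).1 else 0, fun β hβ => ?_⟩
  let x : α.ToType := ToType.mk ⟨β, hβ⟩
  have hx : ∃ x' : α.ToType, (ToType.toOrd (g x')).1 = (ToType.toOrd (g x)).1 := ⟨x, rfl⟩
  refine ⟨(ToType.toOrd (g x)).1, (ToType.toOrd (g x)).2, ?_⟩
  simp only []
  rw [dif_pos hx]
  have h2 : hx.choose = x := by
    apply g.injective
    have h3 := hx.choose_spec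
    have h4 : ToType.toOrd (g hx.choose) = ToType.toOrd (g x) := Subtype.ext h3
    exact ToType.mk.symm.injective h4
  rw [h2]
  simp [x]

/-- the supremum of the values of a strictly increasing recursion -/
theorem recOrd_cof (g : Ordinal.{0} → Ordinal.{0} → Ordinal.{0}) (hg : ∀ j y, y < g j y)
    {θ : Cardinal.{0}} (hθ : θ.IsRegular) : (recOrd g θ.ord).cof = θ := by
  have hlim : IsSuccLimit θ.ord := isSuccLimit_ord hθ.aleph0_le
  have h1 : recOrd g θ.ord = ⨆ i : Set.Iio θ.ord, recOrd g i.1 := by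
    refine le_antisymm ?_ (Ordinal.iSup_le fun i => (recOrd_mono g hg i.2).le)
    exact recOrd_cont g hlim fun i hi =>
      Ordinal.le_iSup (fun i : Set.Iio θ.ord => recOrd g i.1) ⟨i, hi⟩
  rw [h1, cof_iSup_Iio (f := fun i : Set.Iio θ.ord => recOrd g i.1)
    (fun a b hab => recOrd_mono g hg hab) hlim.isSuccPrelimit, hθ.cof_ord]

/-- limit points of cofinality `θ` of an unbounded set -/
theorem exists_lim {l θ : Cardinal.{0}} {α : Ordinal.{0}} (hα : α.cof = l) (hθ : θ.IsRegular)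
    (hθl : θ < l) {E : Set Ordinal.{0}} (hE : ∀ x ∈ E, x < α) (hE' : ∀ β < α, ∃ x ∈ E, β < x)
    {b : Ordinal.{0}} (hb : b < α) :
    ∃ y < α, b < y ∧ y.cof = θ ∧ ∀ β < y, ∃ x ∈ E, β < x ∧ x < y := by
  classical
  have hs : ∀ β, ∃ x, β < x ∧ (β < α → x ∈ E) := by
    intro β
    by_cases h : β < α
    · obtain ⟨x, hx, hx'⟩ := hE' β h
      exact ⟨x, hx', fun _ => hx⟩
    · exact ⟨β + 1, lt_add_one β, fun h' => absurd h' h⟩
  choose s hs1 hs2 using hs
  let g : Ordinal.{0} → Ordinal.{0} → Ordinal.{0} := fun _ y => s (max y b)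
  have hg : ∀ j y, y < g j y := fun _ y => (le_max_left y b).trans_lt (hs1 _)
  have hθlim : IsSuccLimit θ.ord := isSuccLimit_ord hθ.aleph0_le
  have hlt : ∀ i < l.ord, recOrd g i < α :=
    recOrd_lt hα g fun j _ y hy => hE _ (hs2 _ (max_lt hy hb))
  have hθL : θ.ord < l.ord := ord_lt_ord.2 hθl
  refine ⟨recOrd g θ.ord, hlt _ hθL, ?_, recOrd_cof g hg hθ, fun β hβ => ?_⟩
  · have h1 := le_recOrd g hθlim.bot_lt
    exact ((le_max_right _ b).trans_lt (hs1 _)).trans_le h1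
  · obtain ⟨j, hj, hj'⟩ := (lt_recOrd_iff g).1 hβ
    have h1 : j + 1 < θ.ord := hθlim.succ_lt hj
    refine ⟨g j (recOrd g j), hs2 _ (max_lt (hlt j (hj.trans hθL)) hb), hj', ?_⟩
    exact (le_recOrd g (lt_add_one j)).trans_lt (recOrd_mono g hg h1)

/-- choosing one of few sequences of ladders -/
theorem choose_one {l : Cardinal.{0}} (hc : ℵ₀ < l) {ι : Type} (hι : #ι ≤ l)
    (W : ι → Set Ordinal.{0} → Ordinal.{0} → Set Ordinal.{0})
    (hW : ∀ η D D' α, D ⊆ D' → W η D α ⊆ W η D' α)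
    (hWl : ∀ η D α, ∀ x ∈ W η D α, x < l.ord)
    (H : ∀ D, Club (succ l).ord D → ∃ α ∈ D, α.cof = l ∧ ∃ η, Stat l.ord (W η D α)) :
    ∃ η, ∀ D, Club (succ l).ord D → Stat (succ l).ord
      {α | α < (succ l).ord ∧ α.cof = l ∧ Stat l.ord (W η D α)} := by
  have hR : (succ l).IsRegular := isRegular_succ hc.le
  have hC : ℵ₀ < succ l := hc.trans (lt_succ l)
  by_contra hcon
  push Not at hcon
  choose D hD hD' using hcon
  choose F hF hF' using fun η => exists_club_of_not_stat (fun x hx => hx.1) (hD' η)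
  have hI := club_iInter hR hC (hι.trans_lt (lt_succ l)) (fun η => D η ∩ F η)
    (fun η => club_inter hR hC (hD η) (hF η))
  obtain ⟨α, hα, hcof, η, hst⟩ := H _ hI
  refine hF' η α ⟨hα.1, hcof, hst.mono (hW η _ _ α ?_) (hWl η _ α)⟩ (hα.2 η).2
  intro x hx
  exact (hx.2 η).1

/-- inserting one point after every point of a ladder -/
theorem ladder_one {l : Cardinal.{0}} (hr : l.IsRegular) (hc : ℵ₀ < l)
    (d : Ordinal.{0} → Ordinal.{0} → Ordinal.{0})
    (hd : ∀ α < (succ l).ord, α.cof = l → Ladder l α (d α))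
    (y : Ordinal.{0} → Ordinal.{0} → Ordinal.{0}) :
    ∃ c e : Ordinal.{0} → _, ∀ α < (succ l).ord, α.cof = l →
      Ladder l α (c α) ∧ Club l.ord (e α) ∧
        ∀ i ∈ e α, d α i < y α i → y α i < α → c α (i + 1) = y α i := by
  have hins : ∀ α, ∃ c : Ordinal.{0} → Ordinal.{0}, ∃ e : Set Ordinal.{0},
      α < (succ l).ord → α.cof = l → Ladder l α c ∧ Club l.ord e ∧
        ∀ i ∈ e, d α i < y α i → y α i < α → c (i + 1) = y α i := by
    intro α
    by_cases h : α < (succ l).ord ∧ α.cof = l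
    · obtain ⟨c, h1, e, h2, h3⟩ := ladder_insert hr hc h.2 (hd α h.1 h.2) 1
        (fun i _ => y α i)
      refine ⟨c, e, fun _ _ => ⟨h1, h2, fun i hi hlt hlt' => ?_⟩⟩
      have := h3 i hi hlt (fun k hk hk' => by omega) (fun _ _ _ => hlt') 1 le_rfl le_rfl
      simpa using this
    · exact ⟨fun _ => 0, ∅, fun h1 h2 => absurd ⟨h1, h2⟩ h⟩
  choose c e hce using hins
  exact ⟨c, e, fun α h1 h2 => hce α h1 h2⟩

theorem exists_ladders {l : Cardinal.{0}} (hc : ℵ₀ < l) :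
    ∃ d : Ordinal.{0} → Ordinal.{0} → Ordinal.{0},
      ∀ α < (succ l).ord, α.cof = l → Ladder l α (d α) := by
  have hd : ∀ α, ∃ d : Ordinal.{0} → Ordinal.{0},
      α < (succ l).ord → α.cof = l → Ladder l α d := by
    intro α
    by_cases h : α.cof = l
    · obtain ⟨d, hd⟩ := exists_ladder hc h
      exact ⟨d, fun _ _ => hd⟩
    · exact ⟨fun _ => 0, fun _ h' => absurd h' h⟩
  choose d hd using hd
  exact ⟨d, hd⟩

/-- the candidates `A α` predict the closed unbounded subsets of the successor of `l` -/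
structure Predicts (l : Cardinal.{0}) (A : Ordinal.{0} → Set (Set Ordinal.{0})) : Prop where
  unb : ∀ α < (succ l).ord, α.cof = l → ∀ E ∈ A α,
    (∀ x ∈ E, x < α) ∧ ∀ β < α, ∃ x ∈ E, β < x
  guess : ∀ D, Club (succ l).ord D → Stat (succ l).ord
    {α | α < (succ l).ord ∧ α.cof = l ∧ ∃ E ∈ A α, E ⊆ D}

/-- successor cardinals: the candidates do not give a dominating family -/
theorem cof_of_few {l m : Cardinal.{0}} (hm : ℵ₀ ≤ m) (hl : l = succ m)
    {A : Ordinal.{0} → Set (Set Ordinal.{0})} (hA : Predicts l A)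
    (hN : ∀ α < (succ l).ord, α.cof = l →
      ∀ g : Set Ordinal.{0} → Ordinal.{0} → Ordinal.{0},
        (∀ E i, i < l.ord → g E i < l.ord) →
        ∃ h : Ordinal.{0} → Ordinal.{0}, (∀ i < l.ord, h i < l.ord) ∧
          ∀ E ∈ A α, Stat l.ord {i | i < l.ord ∧ g E i ≤ h i})
    {θ : Cardinal.{0}} (hθ : θ.IsRegular) (hθl : θ < l) : ∃ c, GuessesCof l θ c := by
  classical
  have hml : m < l := by rw [hl]; exact lt_succ m
  have hr : l.IsRegular := by rw [hl]; exact isRegular_succ hm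
  have hc : ℵ₀ < l := hm.trans_lt hml
  obtain ⟨d, hd⟩ := exists_ladders hc
  have he : ∀ α, ∃ e : Ordinal.{0} → Ordinal.{0},
      α < (succ l).ord → ∀ β < α, ∃ ε < l.ord, e ε = β := by
    intro α
    by_cases h : α < (succ l).ord
    · obtain ⟨e, he⟩ := exists_enum (α := α) (c := l) (lt_succ_iff.1 (lt_ord.1 h))
      exact ⟨e, fun _ => he⟩
    · exact ⟨fun _ => 0, fun h' => absurd h' h⟩
  choose e he using he
  have hs : ∀ j, ∃ s : Ordinal.{0} → Ordinal.{0},
      j < l.ord → ∀ β ≤ j, ∃ η < m.ord, s η = β := by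
    intro j
    by_cases h : j < l.ord
    · have h1 : (j + 1).card ≤ m := by
        have := lt_ord.1 (ord_succ_lt hc.le h)
        rw [hl] at this
        exact lt_succ_iff.1 this
      obtain ⟨s, hs⟩ := exists_enum h1
      exact ⟨s, fun _ β hβ => hs β (lt_of_le_of_lt hβ (lt_add_one j))⟩
    · exact ⟨fun _ => 0, fun h' => absurd h' h⟩
  choose s hs using hs
  have hg : ∀ α (E : Set Ordinal.{0}) i, ∃ ε, ε < l.ord ∧ (α < (succ l).ord → α.cof = l →
      E ∈ A α → i < l.ord → e α ε < α ∧ d α i < e α ε ∧ (e α ε).cof = θ ∧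
        ∀ β < e α ε, ∃ x ∈ E, β < x ∧ x < e α ε) := by
    intro α E i
    by_cases h : α < (succ l).ord ∧ α.cof = l ∧ E ∈ A α ∧ i < l.ord
    · obtain ⟨h1, h2, h3, h4⟩ := h
      obtain ⟨y, hy, hy', hL, hL'⟩ := exists_lim h2 hθ hθl (hA.unb α h1 h2 E h3).1
        (hA.unb α h1 h2 E h3).2 ((hd α h1 h2).lt i h4)
      obtain ⟨ε, hε, rfl⟩ := he α h1 y hy
      exact ⟨ε, hε, fun _ _ _ _ => ⟨hy, hy', hL, hL'⟩⟩
    · refine ⟨0, ?_, fun h1 h2 h3 h4 => absurd ⟨h1, h2, h3, h4⟩ h⟩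
      exact (omega0_pos).trans_le (omega0_le_ord.2 hc.le)
  choose g hg1 hg2 using hg
  have hh : ∀ α, ∃ h : Ordinal.{0} → Ordinal.{0}, α < (succ l).ord → α.cof = l →
      (∀ i < l.ord, h i < l.ord) ∧
        ∀ E ∈ A α, Stat l.ord {i | i < l.ord ∧ g α E i ≤ h i} := by
    intro α
    by_cases h : α < (succ l).ord ∧ α.cof = l
    · obtain ⟨h', hh'⟩ := hN α h.1 h.2 (g α) (fun E i _ => hg1 α E i)
      exact ⟨h', fun _ _ => hh'⟩
    · exact ⟨fun _ => 0, fun h1 h2 => absurd ⟨h1, h2⟩ h⟩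
  choose h hh using hh
  have hlad := fun p : m.ord.ToType => ladder_one hr hc d hd
    (fun α i => e α (s (h α i) (ToType.toOrd p).1))
  choose c e' hce using hlad
  have hι : #m.ord.ToType < l := by
    rw [Cardinal.mk_toType, card_ord]
    exact hml
  obtain ⟨p, hp⟩ := choose_one hc hι.le
    (fun p D α => {i | i < l.ord ∧ c p α (i + 1) ∈ D ∧ (c p α (i + 1)).cof = θ})
    (fun p D D' α hDD' i hi => ⟨hi.1, hDD' hi.2.1, hi.2.2⟩) (fun p D α x hx => hx.1) (by
      intro D hD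
      obtain ⟨α, ⟨hακ, hcof, E, hE, hED⟩, hαD⟩ := (hA.guess D hD).2 D hD
      refine ⟨α, hαD, hcof, ?_⟩
      have hT := (hh α hακ hcof).2 E hE
      have hhL := (hh α hακ hcof).1
      obtain ⟨p, hp⟩ := stat_union hr hc hι
        (fun p => {i | i < l.ord ∧ e α (s (h α i) (ToType.toOrd p).1) = e α (g α E i)})
        (fun p x hx => hx.1) hT (by
          rintro i ⟨hi, hgh⟩
          obtain ⟨η, hη, hηe⟩ := hs (h α i) (hhL i hi) (g α E i) hgh
          refine ⟨ToType.mk ⟨η, hη⟩, hi, ?_⟩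
          simp [hηe])
      refine ⟨p, (hp.inter_club hr hc (hce p α hακ hcof).2.1).mono ?_ fun x hx => hx.1⟩
      rintro i ⟨⟨hi, heq⟩, hie⟩
      obtain ⟨hlt, hdlt, hcofy, hL⟩ := hg2 α E i hακ hcof hE hi
      have hv := (hce p α hακ hcof).2.2 i hie (by rw [heq]; exact hdlt) (by rw [heq]; exact hlt)
      refine ⟨hi, ?_, ?_⟩
      · rw [hv, heq]
        refine hD.2.2 _ (hlt.trans hακ) ((zero_le).trans_lt hdlt) fun b hb => ?_
        obtain ⟨x, hx, hx'⟩ := hL b hb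
        exact ⟨x, hED hx, hx'⟩
      · rw [hv, heq]
        exact hcofy)
  exact ⟨c p, fun α h1 h2 => (hce p α h1 h2).1, hp⟩

/-- all regular cardinals: the candidates do not give an unbounded family -/
theorem cof_of_bounded {l : Cardinal.{0}} (hr : l.IsRegular) (hc : ℵ₀ < l)
    {A : Ordinal.{0} → Set (Set Ordinal.{0})} (hA : Predicts l A)
    (hN : ∀ α < (succ l).ord, α.cof = l →
      ∀ g : Set Ordinal.{0} → Ordinal.{0} → Ordinal.{0},
        (∀ E i, i < l.ord → g E i < l.ord) →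
        ∃ h : Ordinal.{0} → Ordinal.{0}, (∀ i < l.ord, h i < l.ord) ∧
          ∀ E ∈ A α, ∃ j < l.ord, ∀ i < l.ord, j ≤ i → g E i ≤ h i)
    {θ : Cardinal.{0}} (hθ : θ.IsRegular) (hθl : θ < l) : ∃ c, GuessesCof l θ c := by
  classical
  obtain ⟨d, hd⟩ := exists_ladders hc
  have hθlim : IsSuccLimit θ.ord := isSuccLimit_ord hθ.aleph0_le
  have hθL : θ.ord < l.ord := ord_lt_ord.2 hθl
  have hLcof : l.ord.cof = l := hr.cof_ord
  -- the index of the next point of a candidate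
  have hg : ∀ α (E : Set Ordinal.{0}) i, ∃ j, (i < l.ord → j < l.ord) ∧ i < j ∧
      (α < (succ l).ord → α.cof = l →
      E ∈ A α → i < l.ord → ∃ x ∈ E, d α i < x ∧ x ≤ d α j) := by
    intro α E i
    by_cases h : α < (succ l).ord ∧ α.cof = l ∧ E ∈ A α ∧ i < l.ord
    · obtain ⟨h1, h2, h3, h4⟩ := h
      obtain ⟨x, hx, hx'⟩ := (hA.unb α h1 h2 E h3).2 _ ((hd α h1 h2).lt i h4)
      obtain ⟨j, hj, hj'⟩ := (hd α h1 h2).unb x ((hA.unb α h1 h2 E h3).1 x hx)
      refine ⟨j, fun _ => hj, ?_, fun _ _ _ _ => ⟨x, hx, hx', hj'.le⟩⟩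
      by_contra hcon
      push Not at hcon
      exact absurd (hx'.trans hj') (not_lt.2 ((hd α h1 h2).le hcon h4))
    · exact ⟨i + 1, fun h5 => ord_succ_lt hc.le h5, lt_add_one i,
        fun h1 h2 h3 h4 => absurd ⟨h1, h2, h3, h4⟩ h⟩
  choose g hg1 hg2 hg3 using hg
  have hh : ∀ α, ∃ h : Ordinal.{0} → Ordinal.{0}, (∀ i, i < h i) ∧
      (∀ i < l.ord, h i < l.ord) ∧ (α < (succ l).ord → α.cof = l →
        ∀ E ∈ A α, ∃ j < l.ord, ∀ i < l.ord, j ≤ i → g α E i ≤ h i) := by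
    intro α
    by_cases h : α < (succ l).ord ∧ α.cof = l
    · obtain ⟨h', hh1, hh2⟩ := hN α h.1 h.2 (g α) (fun E i hi => hg1 α E i hi)
      refine ⟨fun i => max (h' i) (i + 1), fun i => lt_max_of_lt_right (lt_add_one i),
        fun i hi => max_lt (hh1 i hi) (ord_succ_lt hc.le hi), fun _ _ E hE => ?_⟩
      obtain ⟨j, hj, hj'⟩ := hh2 E hE
      exact ⟨j, hj, fun i hi hji => (hj' i hi hji).trans (le_max_left _ _)⟩
    · exact ⟨fun i => i + 1, fun i => lt_add_one i, fun i hi => ord_succ_lt hc.le hi,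
        fun h1 h2 => absurd ⟨h1, h2⟩ h⟩
  choose h hh1 hh2 hh3 using hh
  let R : Ordinal.{0} → Ordinal.{0} → Ordinal.{0} := fun α i =>
    recOrd (fun _ b => h α (max b i)) θ.ord
  have hgg : ∀ α i, ∀ (_ : Ordinal.{0}) (y : Ordinal.{0}), y < h α (max y i) := fun α i _ y =>
    (le_max_left y i).trans_lt (hh1 α _)
  have hRlt' : ∀ α, ∀ i < l.ord, ∀ k < l.ord,
      recOrd (fun _ b => h α (max b i)) k < l.ord := fun α i hi =>
    recOrd_lt hLcof _ fun j _ y hy => hh2 α _ (max_lt hy hi)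
  have hRlt : ∀ α, ∀ i < l.ord, R α i < l.ord := fun α i hi => hRlt' α i hi _ hθL
  have hRlim : ∀ α i, IsSuccLimit (R α i) := by
    intro α i
    refine one_lt_cof_iff.1 ?_
    have : (R α i).cof = θ := recOrd_cof _ (hgg α i) hθ
    rw [this]
    exact one_lt_aleph0.trans_le hθ.aleph0_le
  obtain ⟨c, e, hce⟩ := ladder_one hr hc d hd (fun α i => d α (R α i))
  refine ⟨c, fun α h1 h2 => (hce α h1 h2).1, fun D hD => (hA.guess D hD).mono ?_
    fun x hx => hx.1⟩
  rintro α ⟨hακ, hcof, E, hE, hED⟩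
  refine ⟨hακ, hcof, ?_⟩
  obtain ⟨j, hj, hj'⟩ := hh3 α hακ hcof E hE
  obtain ⟨_, he, hv⟩ := hce α hακ hcof
  have hl := hd α hακ hcof
  have hstat : Stat l.ord (e α ∩ {i | i < l.ord ∧ j ≤ i}) := by
    refine ⟨fun x hx => he.1 x hx.1, fun C hC => ?_⟩
    have h1 := club_inter hr hc he hC
    obtain ⟨x, hx, hx'⟩ := h1.2.1 j hj
    exact ⟨x, ⟨hx.1, he.1 x hx.1, hx'.le⟩, hx.2⟩
  refine hstat.mono ?_ fun x hx => hx.1
  rintro i ⟨hie, hi, hji⟩
  have hiR : i < R α i := by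
    have h1 := le_recOrd (fun _ b => h α (max b i)) hθlim.bot_lt
    exact ((le_max_right _ i).trans_lt (hh1 α _)).trans_le h1
  have hval : c α (i + 1) = d α (R α i) := hv i hie (hl.mono _ _ hiR (hRlt α i hi))
    (hl.lt _ (hRlt α i hi))
  refine ⟨hi, ?_, ?_⟩
  · rw [hval]
    refine hD.2.2 _ ((hl.lt _ (hRlt α i hi)).trans hακ)
      ((zero_le).trans_lt (hl.mono _ _ hiR (hRlt α i hi))) fun b hb => ?_
    by_contra hcon
    push Not at hcon
    refine absurd hb (not_lt.2 (hl.cont _ (hRlt α i hi) (hRlim α i) b fun x hx => ?_))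
    by_contra hxb
    push Not at hxb
    obtain ⟨k, hk, hk'⟩ := (lt_recOrd_iff _).1 hx
    have hk1 : k + 1 < θ.ord := hθlim.succ_lt hk
    have hk2 : k + 1 + 1 < θ.ord := hθlim.succ_lt hk1
    set q := recOrd (fun _ b => h α (max b i)) (k + 1) with hq
    have hxq : x < q := hk'.trans_le (le_recOrd (fun _ b => h α (max b i)) (lt_add_one k))
    have hiq : i ≤ q := by
      have h1 := le_recOrd (fun _ b => h α (max b i)) (lt_add_one k)
      exact (((le_max_right _ i).trans_lt (hh1 α _)).trans_le h1).le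
    have hqL : q < l.ord := hRlt' α i hi _ (hk1.trans hθL)
    obtain ⟨z, hz, hz1, hz2⟩ := hg3 α E q hακ hcof hE hqL
    have h3 : g α E q ≤ h α q := hj' q hqL (hji.trans hiq)
    have h4 : h α q ≤ recOrd (fun _ b => h α (max b i)) (k + 1 + 1) := by
      have := le_recOrd (fun _ b => h α (max b i)) (lt_add_one (k + 1))
      rw [← hq, max_eq_left hiq] at this
      exact this
    have h5 : recOrd (fun _ b => h α (max b i)) (k + 1 + 1) < R α i :=
      recOrd_mono _ (hgg α i) hk2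
    have h6 : z < d α (R α i) := hz2.trans_lt
      (hl.mono _ _ ((h3.trans h4).trans_lt h5) (hRlt α i hi))
    have h7 : b < z := (hxb.trans (hl.mono _ _ hxq hqL)).trans hz1
    exact absurd h6 (not_lt.2 (hcon z (hED hz) h7))
  · rw [hval, hl.cof_eq (hRlt α i hi) (hRlim α i)]
    exact recOrd_cof _ (hgg α i) hθ

end Pool.Agent.Lib.MP_d632e4_lc
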