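import Pool.Agent.Lib.MP_d632e4_lc.Club

set_option autoImplicit false

/-!
# Ladders
-/

namespace Pool.Agent.Lib.MP_d632e4_lc

open Cardinal Ordinal Order Set

/-- `c` is the increasing enumeration of a closed unbounded subset of `α` of order type `l`. -/
structure Ladder (l : Cardinal.{0}) (α : Ordinal.{0}) (c : Ordinal.{0} → Ordinal.{0}) :
    Prop where
  mono : ∀ i j, i < j → j < l.ord → c i < c j
  lt : ∀ i < l.ord, c i < α
  unb : ∀ β < α, ∃ i < l.ord, β < c i
  cont : ∀ i < l.ord, IsSuccLimit i → ∀ γ, (∀ j < i, c j ≤ γ) → c i ≤ γ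

/-- recursion on ordinals: `recOrd g i` is the supremum of `g j (recOrd g j)`, `j < i` -/
noncomputable def recOrd (g : Ordinal.{0} → Ordinal.{0} → Ordinal.{0}) :
    Ordinal.{0} → Ordinal.{0} :=
  WellFounded.fix Ordinal.lt_wf (fun i ih => ⨆ j : Set.Iio i, g j.1 (ih j.1 j.2))

theorem recOrd_eq (g : Ordinal.{0} → Ordinal.{0} → Ordinal.{0}) (i : Ordinal.{0}) :
    recOrd g i = ⨆ j : Set.Iio i, g j.1 (recOrd g j.1) := by
  rw [recOrd, WellFounded.fix_eq]

theorem le_recOrd (g : Ordinal.{0} → Ordinal.{0} → Ordinal.{0}) {i j : Ordinal.{0}} (h : j < i) :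
    g j (recOrd g j) ≤ recOrd g i := by
  rw [recOrd_eq g i]
  exact Ordinal.le_iSup (fun j : Set.Iio i => g j.1 (recOrd g j.1)) ⟨j, h⟩

theorem lt_recOrd_iff (g : Ordinal.{0} → Ordinal.{0} → Ordinal.{0}) {i x : Ordinal.{0}} :
    x < recOrd g i ↔ ∃ j < i, x < g j (recOrd g j) := by
  rw [recOrd_eq g i, Ordinal.lt_iSup_iff]
  simp

section

variable {l : Cardinal.{0}} {α : Ordinal.{0}}

theorem recOrd_lt (hl : α.cof = l) (g : Ordinal.{0} → Ordinal.{0} → Ordinal.{0})
    (hg : ∀ j < l.ord, ∀ y < α, g j y < α) :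
    ∀ i < l.ord, recOrd g i < α := by
  intro i
  induction i using WellFoundedLT.induction with
  | ind i ih =>
    intro hi
    obtain ⟨b, hb, hle⟩ := exists_bound_ord (δ := α) (ξ := i)
      (by rw [hl]; exact lt_ord.1 hi) (fun j => g j (recOrd g j))
      (fun j hj => hg j (hj.trans hi) _ (ih j hj (hj.trans hi)))
    refine lt_of_le_of_lt ?_ hb
    by_contra hcon
    push Not at hcon
    obtain ⟨j, hj, hj'⟩ := (lt_recOrd_iff g).1 hcon
    exact absurd (hle j hj) (not_le.2 hj')

theorem recOrd_mono (g : Ordinal.{0} → Ordinal.{0} → Ordinal.{0}) (hg : ∀ j y, y < g j y)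
    {i j : Ordinal.{0}} (h : i < j) : recOrd g i < recOrd g j :=
  (hg i _).trans_le (le_recOrd g h)

theorem self_le_recOrd (g : Ordinal.{0} → Ordinal.{0} → Ordinal.{0}) (hg : ∀ j y, y < g j y) :
    ∀ i, i ≤ recOrd g i := by
  intro i
  induction i using WellFoundedLT.induction with
  | ind i ih =>
    by_contra hcon
    push Not at hcon
    have h1 := ih _ hcon
    have h2 := recOrd_mono g hg hcon
    exact absurd h1 (not_le.2 h2)

theorem recOrd_cont (g : Ordinal.{0} → Ordinal.{0} → Ordinal.{0}) {i : Ordinal.{0}}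
    (hi : IsSuccLimit i) {γ : Ordinal.{0}} (h : ∀ j < i, recOrd g j ≤ γ) : recOrd g i ≤ γ := by
  by_contra hcon
  push Not at hcon
  obtain ⟨j, hj, hj'⟩ := (lt_recOrd_iff g).1 hcon
  have h1 : Order.succ j < i := hi.succ_lt hj
  have h2 := le_recOrd g (Order.lt_succ j)
  exact absurd ((hj'.trans_le h2).trans_le (h _ h1)) (lt_irrefl _)

/-- ordinals of uncountable cofinality are limits -/
theorem add_one_lt_of_cof (hc : ℵ₀ < α.cof) {β : Ordinal.{0}} (h : β < α) : β + 1 < α := by
  have : IsSuccLimit α := one_lt_cof_iff.1 (one_lt_aleph0.trans hc)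
  exact this.succ_lt h

theorem add_nat_lt_of_cof (hc : ℵ₀ < α.cof) {β : Ordinal.{0}} (h : β < α) (k : ℕ) :
    β + k < α := by
  induction k with
  | zero => simpa using h
  | succ k ih =>
    have := add_one_lt_of_cof hc ih
    rw [Nat.cast_succ, ← add_assoc]
    exact this

theorem exists_ladder (hc : ℵ₀ < l) (hα : α.cof = l) : ∃ c, Ladder l α c := by
  obtain ⟨f, hf⟩ := exists_isFundamentalSeq (o := α) rfl
  let f' : Ordinal.{0} → Ordinal.{0} := fun i =>
    if h : i < α.cof.ord then (f ⟨i, h⟩).1 else 0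
  have hcof : ℵ₀ < α.cof := by rwa [hα]
  have h0 : 0 < α := by
    rw [pos_iff_ne_zero]
    rintro rfl
    simp at hcof
  have hf' : ∀ i, f' i < α := by
    intro i
    by_cases h : i < α.cof.ord
    · simp only [f', h, dif_pos]
      exact (f ⟨i, h⟩).2
    · simp only [f', h, dif_neg, not_false_eq_true]
      exact h0
  let g : Ordinal.{0} → Ordinal.{0} → Ordinal.{0} := fun j y => max (f' j) y + 1
  have hg : ∀ j y, y < g j y := fun j y => (le_max_right _ _).trans_lt (lt_add_one _)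
  have hlt := recOrd_lt hα g (fun j _ y hy => add_one_lt_of_cof hcof (max_lt (hf' j) hy))
  refine ⟨recOrd g, fun i j h _ => recOrd_mono g hg h, hlt, fun β hβ => ?_,
    fun i _ hi γ hγ => recOrd_cont g hi hγ⟩
  obtain ⟨_, ⟨⟨i, hi⟩, rfl⟩, hle⟩ := hf.isCofinal_range ⟨β, hβ⟩
  have hi' : i < l.ord := by
    have := hi
    rw [Set.mem_Iio, hα] at this
    exact this
  refine ⟨i + 1, ord_succ_lt hc.le hi', ?_⟩
  have h1 := le_recOrd g (lt_add_one i)
  refine lt_of_lt_of_le ?_ h1
  have h2 : β ≤ f' i := by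
    have hi2 : i < α.cof.ord := hi
    simp only [f', hi2, dif_pos]
    exact hle
  exact (h2.trans (le_max_left _ _)).trans_lt (lt_add_one _)

theorem Ladder.le {d : Ordinal.{0} → Ordinal.{0}} (hd : Ladder l α d) {i j : Ordinal.{0}}
    (h : i ≤ j) (hj : j < l.ord) : d i ≤ d j := by
  rcases h.eq_or_lt with rfl | h
  · exact le_rfl
  · exact (hd.mono i j h hj).le

theorem exists_div (n : ℕ) (i : Ordinal.{0}) :
    ∃ a : Ordinal.{0}, ∃ k : ℕ, k ≤ n ∧ i = ((n + 1 : ℕ) : Ordinal.{0}) * a + k := by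
  have h1 := div_add_mod i ((n + 1 : ℕ) : Ordinal.{0})
  have h2 : i % ((n + 1 : ℕ) : Ordinal.{0}) < ((n + 1 : ℕ) : Ordinal.{0}) :=
    mod_lt i (by exact_mod_cast Nat.succ_ne_zero n)
  obtain ⟨k, hk⟩ := lt_omega0.1 (h2.trans (natCast_lt_omega0 _))
  refine ⟨i / ((n + 1 : ℕ) : Ordinal.{0}), k, ?_, ?_⟩
  · rw [hk] at h2
    exact Nat.lt_succ_iff.1 (by exact_mod_cast h2)
  · rw [← hk]
    exact h1.symm

theorem div_lt {n : ℕ} {a b : Ordinal.{0}} {k k' : ℕ} (hk : k ≤ n) (h : a < b) :
    ((n + 1 : ℕ) : Ordinal.{0}) * a + k < ((n + 1 : ℕ) : Ordinal.{0}) * b + k' := by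
  have h1 : ((n + 1 : ℕ) : Ordinal.{0}) * a + k < ((n + 1 : ℕ) : Ordinal.{0}) * (a + 1) := by
    rw [mul_add, mul_one]
    have : (k : Ordinal.{0}) < ((n + 1 : ℕ) : Ordinal.{0}) := by
      exact_mod_cast Nat.lt_succ_iff.2 hk
    simpa using this
  refine h1.trans_le (le_trans ?_ le_self_add)
  exact mul_le_mul_right (Order.add_one_le_of_lt h) _

theorem div_cases {n : ℕ} {a b : Ordinal.{0}} {k k' : ℕ} (hk' : k' ≤ n)
    (h : ((n + 1 : ℕ) : Ordinal.{0}) * a + k < ((n + 1 : ℕ) : Ordinal.{0}) * b + k') :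
    a < b ∨ (a = b ∧ k < k') := by
  rcases lt_trichotomy a b with h1 | h1 | h1
  · exact Or.inl h1
  · subst h1
    refine Or.inr ⟨rfl, ?_⟩
    have := (add_lt_add_iff_left _).1 h
    exact_mod_cast this
  · exact absurd (div_lt (k := k') (k' := k) hk' h1) (not_lt.2 h.le)

theorem succ_mul_limit (n : ℕ) {i : Ordinal.{0}} (hi : IsSuccLimit i) :
    ((n + 1 : ℕ) : Ordinal.{0}) * i = i := by
  have h1 : ω ∣ i := isSuccPrelimit_iff_omega0_dvd.1 hi.isSuccPrelimit
  exact mul_omega0_dvd (by exact_mod_cast Nat.succ_pos n) (natCast_lt_omega0 _) h1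

/-- Inserting `n` points after every point of a ladder: the new ladder has the old point in
position `i` and the new ones in the positions `i + 1, ..., i + n`, for a closed unbounded set of
limit ordinals `i`. -/
theorem ladder_insert (hr : l.IsRegular) (hc : ℵ₀ < l) (hα : α.cof = l)
    {d : Ordinal.{0} → Ordinal.{0}} (hd : Ladder l α d) (n : ℕ)
    (t : Ordinal.{0} → ℕ → Ordinal.{0}) :
    ∃ c, Ladder l α c ∧ ∃ e, Club l.ord e ∧ ∀ i ∈ e, d i < t i 1 →
      (∀ k, 1 ≤ k → k < n → t i k < t i (k + 1)) → (∀ k, 1 ≤ k → k ≤ n → t i k < α) →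
      ∀ k : ℕ, 1 ≤ k → k ≤ n → c (i + k) = t i k := by
  classical
  have hcof : ℵ₀ < α.cof := by rwa [hα]
  have hLcof : l.ord.cof = l := hr.cof_ord
  let good : Ordinal.{0} → Prop := fun i => d i < t i 1 ∧
    (∀ k, 1 ≤ k → k < n → t i k < t i (k + 1)) ∧ (∀ k, 1 ≤ k → k ≤ n → t i k < α)
  let s : Ordinal.{0} → ℕ → Ordinal.{0} := fun i k =>
    if k = 0 then d i else if good i then t i k else d i + k
  have s0 : ∀ i, s i 0 = d i := fun i => by simp [s]
  have sgood : ∀ i, good i → ∀ k, 1 ≤ k → s i k = t i k := by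
    intro i hi k hk
    have : k ≠ 0 := by omega
    simp [s, this, hi]
  have sbad : ∀ i, ¬ good i → ∀ k, 1 ≤ k → s i k = d i + k := by
    intro i hi k hk
    have : k ≠ 0 := by omega
    simp [s, this, hi]
  have sstep : ∀ i k, k < n → s i k < s i (k + 1) := by
    intro i k hk
    by_cases hg : good i
    · rcases Nat.eq_zero_or_pos k with rfl | hk0
      · rw [s0, sgood i hg 1 le_rfl]
        exact hg.1
      · rw [sgood i hg k hk0, sgood i hg (k + 1) (by omega)]
        exact hg.2.1 k hk0 hk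
    · rcases Nat.eq_zero_or_pos k with rfl | hk0
      · rw [s0, sbad i hg 1 le_rfl]
        simp
      · rw [sbad i hg k hk0, sbad i hg (k + 1) (by omega)]
        simp
  have sle : ∀ i k k', k ≤ k' → k' ≤ n → s i k ≤ s i k' := by
    intro i k k' hkk' hk'
    induction k' with
    | zero =>
      obtain rfl : k = 0 := by omega
      exact le_rfl
    | succ m ih =>
      rcases Nat.lt_or_ge m k with h | h
      · obtain rfl : k = m + 1 := by omega
        exact le_rfl
      · exact (ih h (by omega)).trans (sstep i m (by omega)).le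
  have slt : ∀ i k k', k < k' → k' ≤ n → s i k < s i k' := by
    intro i k k' hkk' hk'
    exact (sstep i k (by omega)).trans_le (sle i (k + 1) k' hkk' hk')
  have sα : ∀ i < l.ord, ∀ k ≤ n, s i k < α := by
    intro i hi k hk
    rcases Nat.eq_zero_or_pos k with rfl | hk0
    · rw [s0]
      exact hd.lt i hi
    · by_cases hg : good i
      · rw [sgood i hg k hk0]
        exact hg.2.2 k hk0 hk
      · rw [sbad i hg k hk0]
        exact add_nat_lt_of_cof hcof (hd.lt i hi) k
  have hq : ∀ y, ∃ j, y < j ∧ (y < l.ord → j < l.ord ∧ s y n < d j) := by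
    intro y
    by_cases hy : y < l.ord
    · obtain ⟨j, hj, hj'⟩ := hd.unb _ (sα y hy n le_rfl)
      refine ⟨max j (y + 1), lt_max_of_lt_right (lt_add_one y), fun _ => ⟨?_, ?_⟩⟩
      · exact max_lt hj (ord_succ_lt hc.le hy)
      · exact hj'.trans_le (hd.le (le_max_left _ _) (max_lt hj (ord_succ_lt hc.le hy)))
    · exact ⟨y + 1, lt_add_one y, fun h => absurd h hy⟩
  choose q hq1 hq2 using hq
  let E : Ordinal.{0} → Ordinal.{0} := recOrd (fun _ y => q y)
  have hEmono : ∀ i j, i < j → E i < E j := fun i j h => recOrd_mono _ (fun _ y => hq1 y) h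
  have hElt : ∀ i < l.ord, E i < l.ord :=
    recOrd_lt hLcof _ (fun j _ y hy => (hq2 y hy).1)
  have hEle : ∀ i j, i < j → q (E i) ≤ E j := fun i j h => le_recOrd (fun _ y => q y) h
  have hself : ∀ i, i ≤ E i := self_le_recOrd _ (fun _ y => hq1 y)
  have hmulL : ∀ a < l.ord, ∀ k : ℕ, ((n + 1 : ℕ) : Ordinal.{0}) * a + k < l.ord := by
    intro a ha k
    have h1 : ((n + 1 : ℕ) : Ordinal.{0}) < l.ord :=
      (natCast_lt_omega0 _).trans_le (omega0_le_ord.2 hc.le)
    have h2 : (k : Ordinal.{0}) < l.ord :=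
      (natCast_lt_omega0 _).trans_le (omega0_le_ord.2 hc.le)
    exact isPrincipal_add_ord hc.le (isPrincipal_mul_ord hc.le h1 ha) h2
  have hdiv : ∀ i : Ordinal.{0}, ∃ a : Ordinal.{0}, ∃ k : ℕ, k ≤ n ∧
      i = ((n + 1 : ℕ) : Ordinal.{0}) * a + k := exists_div n
  choose dv rm hrm hdr using hdiv
  have huniq : ∀ a k, k ≤ n → dv (((n + 1 : ℕ) : Ordinal.{0}) * a + (k : ℕ)) = a ∧
      rm (((n + 1 : ℕ) : Ordinal.{0}) * a + (k : ℕ)) = k := by
    intro a k hk
    set i := ((n + 1 : ℕ) : Ordinal.{0}) * a + (k : ℕ) with hi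
    have h1 := hdr i
    have h2 := hrm i
    rcases lt_trichotomy (dv i) a with h | h | h
    · exfalso
      have := div_lt (k := rm i) (k' := k) h2 h
      rw [← h1, ← hi] at this
      exact lt_irrefl _ this
    · refine ⟨h, ?_⟩
      rw [h] at h1
      have h3 : ((k : ℕ) : Ordinal.{0}) = (rm i : Ordinal.{0}) := by
        have h4 : ((n + 1 : ℕ) : Ordinal.{0}) * a + (k : ℕ) =
            ((n + 1 : ℕ) : Ordinal.{0}) * a + (rm i : Ordinal.{0}) := by
          rw [← hi]; exact h1
        exact (add_right_inj _).1 h4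
      exact (by exact_mod_cast h3 : k = rm i).symm
    · exfalso
      have := div_lt (k := k) (k' := rm i) hk h
      rw [← h1, ← hi] at this
      exact lt_irrefl _ this
  have hdvle : ∀ i, dv i ≤ i := by
    intro i
    conv_rhs => rw [hdr i]
    refine le_trans ?_ le_self_add
    exact le_mul_of_one_le_left (zero_le) (by exact_mod_cast Nat.succ_le_succ (Nat.zero_le n))
  let c : Ordinal.{0} → Ordinal.{0} := fun i => s (E (dv i)) (rm i)
  have hcval : ∀ a k, k ≤ n → c (((n + 1 : ℕ) : Ordinal.{0}) * a + (k : ℕ)) = s (E a) k := by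
    intro a k hk
    obtain ⟨h1, h2⟩ := huniq a k hk
    simp only [c, h1, h2]
  have hcL : Ladder l α c := by
    refine ⟨fun i j hij hj => ?_, fun i hi => ?_, fun β hβ => ?_, fun i hi hlim γ hγ => ?_⟩
    · have hlt : ((n + 1 : ℕ) : Ordinal.{0}) * dv i + rm i <
          ((n + 1 : ℕ) : Ordinal.{0}) * dv j + rm j := by
        rw [← hdr i, ← hdr j]
        exact hij
      have hdj : dv j < l.ord := (hdvle j).trans_lt hj
      rcases div_cases (hrm j) hlt with h | ⟨h, h'⟩
      · have hdi : dv i < l.ord := h.trans hdj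
        calc s (E (dv i)) (rm i) ≤ s (E (dv i)) n := sle _ _ _ (hrm i) le_rfl
          _ < d (q (E (dv i))) := (hq2 _ (hElt _ hdi)).2
          _ ≤ d (E (dv j)) := hd.le (hEle _ _ h) (hElt _ hdj)
          _ = s (E (dv j)) 0 := (s0 _).symm
          _ ≤ s (E (dv j)) (rm j) := sle _ _ _ (Nat.zero_le _) (hrm j)
      · simp only [c]
        rw [h]
        exact slt _ _ _ h' (hrm j)
    · exact sα _ (hElt _ ((hdvle i).trans_lt hi)) _ (hrm i)
    · obtain ⟨j, hj, hj'⟩ := hd.unb β hβ
      refine ⟨((n + 1 : ℕ) : Ordinal.{0}) * j + (0 : ℕ), hmulL j hj 0, ?_⟩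
      rw [hcval j 0 (Nat.zero_le n), s0]
      exact hj'.trans_le (hd.le (hself j) (hElt j hj))
    · have hk0 : rm i = 0 := by
        rcases Nat.eq_zero_or_pos (rm i) with h | h
        · exact h
        · exfalso
          have h1 := hdr i
          obtain ⟨m, hm⟩ : ∃ m, rm i = m + 1 := ⟨rm i - 1, by omega⟩
          rw [hm, Nat.cast_succ m, ← add_assoc] at h1
          rw [h1] at hlim
          exact (not_isSuccLimit_add_one _) hlim
      have hi' : i = ((n + 1 : ℕ) : Ordinal.{0}) * dv i := by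
        have h1 := hdr i
        rw [hk0] at h1
        simpa using h1
      have hda : IsSuccLimit (dv i) := by
        rcases zero_or_succ_or_isSuccLimit (dv i) with h | ⟨a, h⟩ | h
        · rw [h, mul_zero] at hi'
          rw [hi'] at hlim
          exact absurd hlim (by simp)
        · exfalso
          rw [← h] at hi'
          have : i = ((n + 1 : ℕ) : Ordinal.{0}) * a + n + 1 := by
            rw [hi', Order.succ_eq_add_one, mul_add, mul_one, Nat.cast_succ, add_assoc]
          rw [this] at hlim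
          exact (not_isSuccLimit_add_one _) hlim
        · exact h
      have hdi : dv i < l.ord := (hdvle i).trans_lt hi
      have hElim : IsSuccLimit (E (dv i)) := by
        refine (isSuccLimit_iff_of_orderBot).2 ⟨?_, ?_⟩
        · have h0 : 0 < dv i := hda.bot_lt
          exact ((zero_le).trans_lt (hEmono 0 _ h0)).ne'
        · intro x hx
          obtain ⟨a, ha, ha'⟩ := (lt_recOrd_iff (fun _ y => q y)).1 hx.1
          have h1 : a + 1 < dv i := hda.succ_lt ha
          exact hx.2 (ha'.trans_le (hEle a (a + 1) (lt_add_one a))) (hEmono _ _ h1)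
      simp only [c, hk0, s0]
      refine hd.cont _ (hElt _ hdi) hElim γ fun x hx => ?_
      obtain ⟨a, ha, ha'⟩ := (lt_recOrd_iff (fun _ y => q y)).1 hx
      have h1 : a + 1 < dv i := hda.succ_lt ha
      have h2 : x ≤ E (a + 1) := (ha'.trans_le (hEle a (a + 1) (lt_add_one a))).le
      have h3 : ((n + 1 : ℕ) : Ordinal.{0}) * (a + 1) + (0 : ℕ) < i := by
        conv_rhs => rw [hdr i]
        exact div_lt (Nat.zero_le n) h1
      have h4 := hγ _ h3
      rw [hcval (a + 1) 0 (Nat.zero_le n), s0] at h4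
      exact (hd.le h2 (hElt _ (h1.trans hdi))).trans h4
  refine ⟨c, hcL, {x | x < l.ord ∧ IsSuccLimit x ∧ ∀ i < x, E i < x},
    club_closure hr hc E hElt, ?_⟩
  rintro i ⟨hi, hlim, hE⟩ h1 h2 h3 k hk1 hkn
  have hEi : E i = i := by
    refine le_antisymm ?_ (hself i)
    refine recOrd_cont _ hlim fun j hj => (hE j hj).le
  have hmul : ((n + 1 : ℕ) : Ordinal.{0}) * i = i := succ_mul_limit n hlim
  have h4 := hcval i k hkn
  rw [hmul, hEi, sgood i ⟨h1, h2, h3⟩ k hk1] at h4
  exact h4

end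

end Pool.Agent.Lib.MP_d632e4_lc
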