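import Pool.Agent.Lib.MP_d632e4_lc.Master

set_option autoImplicit false

/-!
# Guessing successor points of small cofinality
-/

namespace Pool.Agent.Lib.MP_d632e4_lc

open Cardinal Ordinal Order Set

/-- a cofinal function on `y.cof.ord` for every ordinal `y` -/
theorem exists_cofinal (y : Ordinal.{0}) : ∃ e : Ordinal.{0} → Ordinal.{0},
    (∀ η < y.cof.ord, e η < y) ∧ ∀ β < y, ∃ η < y.cof.ord, β ≤ e η := by
  obtain ⟨f, hf⟩ := exists_isFundamentalSeq (o := y) rfl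
  refine ⟨fun η => if h : η < y.cof.ord then (f ⟨η, h⟩).1 else 0, fun η hη => ?_,
    fun β hβ => ?_⟩
  · simp only [hη, dif_pos]
    exact (f ⟨η, hη⟩).2
  · obtain ⟨_, ⟨⟨η, hη⟩, rfl⟩, hle⟩ := hf.isCofinal_range ⟨β, hβ⟩
    have hη' : η < y.cof.ord := hη
    refine ⟨η, hη', ?_⟩
    simp only [hη', dif_pos]
    exact hle

theorem card_fin_le {l : Cardinal.{0}} (hc : ℵ₀ ≤ l) (n : ℕ) : #(Fin n → l.ord.ToType) ≤ l := by
  have h1 : #(Fin n → l.ord.ToType) = l ^ n := by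
    simp [Cardinal.mk_pi]
  rw [h1]
  exact Cardinal.power_nat_le hc

/-- If some sequence of ladders guesses one successor point of cofinality at most `|i|` at
stationary many positions `i`, then for every `n` some sequence of ladders guesses `n` consecutive
successor points. -/
theorem small_cofinality {l : Cardinal.{0}} (hr : l.IsRegular) (hc : ℵ₀ < l)
    (c0 : Ordinal.{0} → Ordinal.{0} → Ordinal.{0})
    (h0 : ∀ α < (succ l).ord, α.cof = l → Ladder l α (c0 α))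
    (hS : ∀ D, Club (succ l).ord D → Stat (succ l).ord
      {α | α < (succ l).ord ∧ α.cof = l ∧
        Stat l.ord {i | i < l.ord ∧ c0 α (i + 1) ∈ D ∧ (c0 α (i + 1)).cof ≤ i.card}})
    (n : ℕ) : ∃ c, Guesses l n c := by
  classical
  have hR : (succ l).IsRegular := isRegular_succ hc.le
  have hC : ℵ₀ < succ l := hc.trans (lt_succ l)
  rcases Nat.eq_zero_or_pos n with rfl | hn
  · suffices ∃ c, Guesses l 1 c by
      obtain ⟨c, hc'⟩ := this
      exact ⟨c, hc'.zero (Nat.zero_le 1)⟩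
    refine ⟨c0, h0, fun D hD => (hS D hD).mono ?_ fun x hx => hx.1⟩
    rintro α ⟨h1, h2, h3⟩
    refine ⟨h1, h2, h3.mono ?_ fun x hx => hx.1⟩
    rintro i ⟨h4, h5, _⟩
    refine ⟨h4, fun k hk1 hk2 => ?_⟩
    obtain rfl : k = 1 := by omega
    simpa using h5
  choose e he1 he2 using exists_cofinal
  refine master hr hc hn (card_fin_le hc.le n) c0 h0
    (fun (η : Fin n → l.ord.ToType) α i k => if k = 0 then c0 α i else
      e (c0 α (i + 1)) (if h : k - 1 < n then (ToType.toOrd (η ⟨k - 1, h⟩)).1 else 0))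
    fun D hD => ?_
  obtain ⟨α, ⟨hακ, hcof, hT⟩, hαD⟩ := (hS (acc D) (club_acc hR hC hD)).2 D hD
  refine ⟨α, hαD, hcof, ?_⟩
  have hl := h0 α hακ hcof
  have hstep : ∀ i, ∃ s : Ordinal.{0} → Ordinal.{0}, c0 α (i + 1) ∈ acc D →
      ∀ b < c0 α (i + 1), s b < (c0 α (i + 1)).cof.ord ∧
        ∃ x ∈ D, b < x ∧ x ≤ e (c0 α (i + 1)) (s b) := by
    intro i
    by_cases h : c0 α (i + 1) ∈ acc D
    · have h1 : ∀ b, ∃ η, b < c0 α (i + 1) → η < (c0 α (i + 1)).cof.ord ∧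
          ∃ x ∈ D, b < x ∧ x ≤ e (c0 α (i + 1)) η := by
        intro b
        by_cases hb : b < c0 α (i + 1)
        · obtain ⟨x, hx, hbx, hxy⟩ := h.2.2 b hb
          obtain ⟨η, hη, hle⟩ := he2 (c0 α (i + 1)) x hxy
          exact ⟨η, fun _ => ⟨hη, x, hx, hbx, hle⟩⟩
        · exact ⟨0, fun h2 => absurd h2 hb⟩
      choose s hs using h1
      exact ⟨s, fun _ b hb => hs b hb⟩
    · exact ⟨fun _ => 0, fun h2 => absurd h2 h⟩
  choose s hs using hstep
  -- the indices of the anchors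
  let f : ℕ → Ordinal.{0} → Ordinal.{0} := fun k i =>
    Nat.rec (s i (c0 α i)) (fun _ y => s i (e (c0 α (i + 1)) y)) k
  have f0 : ∀ i, f 0 i = s i (c0 α i) := fun i => rfl
  have fS : ∀ k i, f (k + 1) i = s i (e (c0 α (i + 1)) (f k i)) := fun k i => rfl
  have hlt1 : ∀ i < l.ord, c0 α i < c0 α (i + 1) := fun i hi =>
    hl.mono _ _ (lt_add_one i) (ord_succ_lt hc.le hi)
  have hfk : ∀ i < l.ord, c0 α (i + 1) ∈ acc D → ∀ k, f k i < (c0 α (i + 1)).cof.ord := by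
    intro i hi hacc k
    induction k with
    | zero =>
      rw [f0]
      exact (hs i hacc _ (hlt1 i hi)).1
    | succ k ih =>
      rw [fS]
      exact (hs i hacc _ (he1 _ _ ih)).1
  have hreg : ∀ k < n, ∀ i ∈ {i | i < l.ord ∧ c0 α (i + 1) ∈ acc D ∧
      (c0 α (i + 1)).cof ≤ i.card}, f k i < i := by
    rintro k _ i ⟨hi, hacc, hcard⟩
    refine (hfk i hi hacc k).trans_le ?_
    exact (ord_le_ord.2 hcard).trans (ord_card_le i)
  obtain ⟨η, hη⟩ := fodor_fin hr hc hT f n hreg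
  obtain ⟨i0, ⟨hi0, _⟩⟩ := hη.2 _ (club_top hc.le)
  have hηL : ∀ k < n, η k < l.ord := by
    intro k hk
    rw [← hi0.2 k hk]
    exact (hreg k hk i0 hi0.1).trans hi0.1.1
  refine ⟨fun k => ToType.mk ⟨η k, hηL k k.2⟩, hη.mono ?_ fun x hx => hx.1⟩
  rintro i ⟨⟨hi, hacc, hcard⟩, hf⟩
  have hval : ∀ k, k < n → (if k + 1 = 0 then c0 α i else e (c0 α (i + 1))
      (if h : k + 1 - 1 < n then (ToType.toOrd (ToType.mk
        ⟨η (⟨k + 1 - 1, h⟩ : Fin n), hηL _ (⟨k + 1 - 1, h⟩ : Fin n).2⟩)).1 else 0)) =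
        e (c0 α (i + 1)) (f k i) := by
    intro k hk
    rw [if_neg (Nat.succ_ne_zero k)]
    have h1 : k + 1 - 1 < n := by omega
    rw [dif_pos h1]
    congr 1
    simp [hf k hk]
  refine ⟨hi, ?_, ?_, fun k hk => ?_⟩
  · simp
  · obtain ⟨k, rfl⟩ : ∃ k, n = k + 1 := ⟨n - 1, by omega⟩
    simp only []
    rw [hval k (Nat.lt_succ_self k)]
    exact (he1 _ _ (hfk i hi hacc k)).trans (hl.lt _ (ord_succ_lt hc.le hi))
  · simp only []
    rw [hval k hk]
    rcases Nat.eq_zero_or_pos k with rfl | hk0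
    · simp only [if_true]
      rw [f0]
      exact (hs i hacc _ (hlt1 i hi)).2
    · obtain ⟨j, rfl⟩ : ∃ j, k = j + 1 := ⟨k - 1, by omega⟩
      rw [hval j (by omega), fS]
      exact (hs i hacc _ (he1 _ _ (hfk i hi hacc j))).2

end Pool.Agent.Lib.MP_d632e4_lc
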