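import Pool.Agent.Lib.MP_d632e4_lc.Block
import Pool.Agent.Lib.MP_d632e4_lc.Small

set_option autoImplicit false

/-!
# Guessing infinitely many consecutive successor points
-/

namespace Pool.Agent.Lib.MP_d632e4_lc

open Cardinal Ordinal Order Set

theorem recOrd_succ (g : Ordinal.{0} → Ordinal.{0} → Ordinal.{0}) (hg : ∀ j y, y < g j y)
    (j : Ordinal.{0}) : recOrd g (j + 1) = g j (recOrd g j) := by
  refine le_antisymm ?_ (le_recOrd g (lt_add_one j))
  by_contra hcon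
  push Not at hcon
  obtain ⟨a, ha, ha'⟩ := (lt_recOrd_iff g).1 hcon
  rcases (Order.lt_add_one_iff.1 ha).eq_or_lt with rfl | h
  · exact lt_irrefl _ ha'
  · exact absurd (ha'.trans_le (le_recOrd g h)) (not_lt.2 (hg j _).le)

/-- the next value above `b` of the function `ρ` on `T` -/
noncomputable def nxtv (T : Ordinal.{0}) (ρ : Ordinal.{0} → Ordinal.{0}) (b : Ordinal.{0}) :
    Ordinal.{0} := by
  classical
  exact if ∃ j < T, b < ρ j then ρ (sInf {j | j < T ∧ b < ρ j}) else b + 1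

theorem lt_nxtv (T : Ordinal.{0}) (ρ : Ordinal.{0} → Ordinal.{0}) (b : Ordinal.{0}) :
    b < nxtv T ρ b := by
  classical
  by_cases h : ∃ j < T, b < ρ j
  · have h1 : sInf {j | j < T ∧ b < ρ j} ∈ {j | j < T ∧ b < ρ j} := csInf_mem h
    simp only [nxtv]
    rw [if_pos h]
    exact h1.2
  · simp only [nxtv]
    rw [if_neg h]
    exact lt_add_one b

theorem nxtv_spec {T : Ordinal.{0}} {ρ : Ordinal.{0} → Ordinal.{0}} {b : Ordinal.{0}}
    (h : ∃ j < T, b < ρ j) : ∃ j < T, b < ρ j ∧ nxtv T ρ b = ρ j := by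
  classical
  have h1 : sInf {j | j < T ∧ b < ρ j} ∈ {j | j < T ∧ b < ρ j} := csInf_mem h
  refine ⟨_, h1.1, h1.2, ?_⟩
  simp only [nxtv]
  rw [if_pos h]

/-- the increasing sequence of the values of `ρ` above `b0` -/
noncomputable def blk (T : Ordinal.{0}) (ρ : Ordinal.{0} → Ordinal.{0}) (b0 k : Ordinal.{0}) :
    Ordinal.{0} :=
  recOrd (fun _ b => nxtv T ρ (max b b0)) k

theorem blk_aux (T : Ordinal.{0}) (ρ : Ordinal.{0} → Ordinal.{0}) (b0 : Ordinal.{0}) :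
    ∀ (_ : Ordinal.{0}) (y : Ordinal.{0}), y < nxtv T ρ (max y b0) := fun _ y =>
  (le_max_left y b0).trans_lt (lt_nxtv T ρ _)

theorem blk_mono (T : Ordinal.{0}) (ρ : Ordinal.{0} → Ordinal.{0}) (b0 : Ordinal.{0})
    {k k' : Ordinal.{0}} (h : k < k') : blk T ρ b0 k < blk T ρ b0 k' :=
  recOrd_mono _ (blk_aux T ρ b0) h

theorem lt_blk (T : Ordinal.{0}) (ρ : Ordinal.{0} → Ordinal.{0}) (b0 : Ordinal.{0})
    {k : Ordinal.{0}} (h : 0 < k) : b0 < blk T ρ b0 k := by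
  have h1 := le_recOrd (fun _ b => nxtv T ρ (max b b0)) h
  exact ((le_max_right _ b0).trans_lt (lt_nxtv T ρ _)).trans_le h1

theorem blk_cont (T : Ordinal.{0}) (ρ : Ordinal.{0} → Ordinal.{0}) (b0 : Ordinal.{0})
    {k : Ordinal.{0}} (hk : IsSuccLimit k) {γ : Ordinal.{0}}
    (h : ∀ k', 0 < k' → k' < k → blk T ρ b0 k' ≤ γ) : blk T ρ b0 k ≤ γ := by
  refine recOrd_cont _ hk fun j hj => ?_
  rcases eq_or_ne j 0 with rfl | hj0
  · have h0 : recOrd (fun _ b => nxtv T ρ (max b b0)) 0 = 0 := by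
      by_contra hcon
      obtain ⟨a, ha, _⟩ := (lt_recOrd_iff _).1 (pos_iff_ne_zero.2 hcon)
      exact absurd ha (not_lt.2 zero_le)
    rw [h0]
    exact zero_le
  · exact h j (pos_iff_ne_zero.2 hj0) hj

theorem blk_lt {θ : Cardinal.{0}} {y b0 : Ordinal.{0}} (hy : y.cof = θ) (hb0 : b0 < y)
    (ρ : Ordinal.{0} → Ordinal.{0}) (hρ : ∀ j < θ.ord, ρ j < y)
    (hunb : ∀ b < y, ∃ j < θ.ord, b < ρ j) : ∀ k < θ.ord, blk θ.ord ρ b0 k < y := by
  refine recOrd_lt hy _ fun j _ b hb => ?_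
  obtain ⟨j', hj', _, h2⟩ := nxtv_spec (hunb (max b b0) (max_lt hb hb0))
  rw [h2]
  exact hρ j' hj'

theorem blk_mem {θ : Cardinal.{0}} {y b0 κ : Ordinal.{0}} (hy : y.cof = θ) (hb0 : b0 < y)
    (hyκ : y ≤ κ) (ρ : Ordinal.{0} → Ordinal.{0}) (hρ : ∀ j < θ.ord, ρ j < y)
    (hunb : ∀ b < y, ∃ j < θ.ord, b < ρ j) {D : Set Ordinal.{0}} (hD : Club κ D)
    (hρD : ∀ j < θ.ord, b0 < ρ j → ρ j ∈ D) :
    ∀ k < θ.ord, 0 < k → blk θ.ord ρ b0 k ∈ D := by
  have hlt := blk_lt hy hb0 ρ hρ hunb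
  have hsucc : ∀ k, k + 1 < θ.ord → blk θ.ord ρ b0 (k + 1) ∈ D := by
    intro k hk
    have h1 : blk θ.ord ρ b0 (k + 1) = nxtv θ.ord ρ (max (blk θ.ord ρ b0 k) b0) :=
      recOrd_succ _ (blk_aux _ ρ b0) k
    have hk' : k < θ.ord := (lt_add_one k).trans hk
    obtain ⟨j', hj', h2, h3⟩ := nxtv_spec (hunb _ (max_lt (hlt k hk') hb0))
    rw [h1, h3]
    exact hρD j' hj' ((le_max_right _ _).trans_lt h2)
  intro k hk hk0
  rcases zero_or_succ_or_isSuccLimit k with h | ⟨a, h⟩ | h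
  · exact absurd h hk0.ne'
  · rw [← h, Order.succ_eq_add_one]
    exact hsucc a (by rw [← Order.succ_eq_add_one, h]; exact hk)
  · refine hD.2.2 _ ((hlt k hk).trans_le hyκ) ((zero_le).trans_lt (lt_blk _ ρ b0 hk0))
      fun b hb => ?_
    obtain ⟨a, ha, ha'⟩ := (lt_recOrd_iff _).1 hb
    have h1 : a + 1 < k := h.succ_lt ha
    refine ⟨blk θ.ord ρ b0 (a + 1), hsucc a (h1.trans hk), ?_, blk_mono _ _ _ h1⟩
    exact ha'.trans_le (le_recOrd _ (lt_add_one a))

theorem club_iInter_ord {c : Cardinal.{0}} (hr : c.IsRegular) (hc : ℵ₀ < c) {ξ : Ordinal.{0}}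
    (hξ : ξ < c.ord) (D : Ordinal.{0} → Set Ordinal.{0}) (hD : ∀ η < ξ, Club c.ord (D η)) :
    Club c.ord {x | x < c.ord ∧ ∀ η < ξ, x ∈ D η} := by
  have h := club_iInter hr hc (ι := ξ.ToType) (by rw [Cardinal.mk_toType]; exact lt_ord.1 hξ)
    (fun x => D (ToType.toOrd x).1) (fun x => hD _ (ToType.toOrd x).2)
  have heq : {x | x < c.ord ∧ ∀ η < ξ, x ∈ D η} =
      {x | x < c.ord ∧ ∀ i : ξ.ToType, x ∈ D (ToType.toOrd i).1} := by
    ext x
    refine ⟨fun hx => ⟨hx.1, fun i => hx.2 _ (ToType.toOrd i).2⟩, fun hx => ⟨hx.1, ?_⟩⟩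
    intro η hη
    have := hx.2 (ToType.mk ⟨η, hη⟩)
    simpa using this
  rw [heq]
  exact h

/-- the cofinality of a limit point of a ladder -/
theorem Ladder.cof_eq {l : Cardinal.{0}} {α : Ordinal.{0}} {c : Ordinal.{0} → Ordinal.{0}}
    (hc : Ladder l α c) {j : Ordinal.{0}} (hj : j < l.ord) (hlim : IsSuccLimit j) :
    (c j).cof = j.cof := by
  have h1 : c j = ⨆ i : Set.Iio j, c i.1 := by
    refine le_antisymm ?_ (Ordinal.iSup_le fun i => (hc.mono _ _ i.2 hj).le)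
    exact hc.cont j hj hlim _ fun i hi =>
      Ordinal.le_iSup (fun i : Set.Iio j => c i.1) ⟨i, hi⟩
  rw [h1]
  exact cof_iSup_Iio (f := fun i : Set.Iio j => c i.1)
    (fun a b hab => hc.mono _ _ hab (lt_trans b.2 hj)) hlim.isSuccPrelimit

/-- `c` is a sequence of ladders which guesses the points in the positions `i + k`, `0 < k < T`. -/
def GuessesBlock (l : Cardinal.{0}) (T : Ordinal.{0})
    (c : Ordinal.{0} → Ordinal.{0} → Ordinal.{0}) : Prop :=
  (∀ α < (succ l).ord, α.cof = l → Ladder l α (c α)) ∧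
    ∀ D, Club (succ l).ord D → Stat (succ l).ord
      {α | α < (succ l).ord ∧ α.cof = l ∧
        Stat l.ord {i | i < l.ord ∧ ∀ k, 0 < k → k < T → c α (i + k) ∈ D}}

/-- `c` is a sequence of ladders which guesses one successor point of cofinality `θ`. -/
def GuessesCof (l θ : Cardinal.{0}) (c : Ordinal.{0} → Ordinal.{0} → Ordinal.{0}) : Prop :=
  (∀ α < (succ l).ord, α.cof = l → Ladder l α (c α)) ∧
    ∀ D, Club (succ l).ord D → Stat (succ l).ord
      {α | α < (succ l).ord ∧ α.cof = l ∧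
        Stat l.ord {i | i < l.ord ∧ c α (i + 1) ∈ D ∧ (c α (i + 1)).cof = θ}}

theorem cof_of_block {l θ : Cardinal.{0}} (hr : l.IsRegular) (hc : ℵ₀ < l) (hθ : θ.IsRegular)
    (hθl : θ < l) {c : Ordinal.{0} → Ordinal.{0} → Ordinal.{0}}
    (h : GuessesBlock l θ.ord c) : ∃ c', GuessesCof l θ c' := by
  have hθlim : IsSuccLimit θ.ord := isSuccLimit_ord hθ.aleph0_le
  have hone : (1 : Ordinal.{0}) < 2 := by exact_mod_cast (by norm_num : (1 : ℕ) < 2)
  have htwo : (2 : Ordinal.{0}) < l.ord := by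
    have h1 : ((2 : ℕ) : Ordinal.{0}) < l.ord :=
      (natCast_lt_omega0 2).trans_le (omega0_le_ord.2 hc.le)
    exact_mod_cast h1
  have hins : ∀ α, ∃ c' : Ordinal.{0} → Ordinal.{0}, ∃ e : Set Ordinal.{0},
      α < (succ l).ord → α.cof = l → Ladder l α c' ∧ Club l.ord e ∧ ∀ i ∈ e,
        c' (i + 1) = c α (i + θ.ord) := by
    intro α
    by_cases hα : α < (succ l).ord ∧ α.cof = l
    · have hl := h.1 α hα.1 hα.2
      obtain ⟨c', h1, e, h2, h3⟩ := ladder_block hr hc hα.2 hl hone htwo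
        (fun i _ => c α (i + θ.ord))
      refine ⟨c', e, fun _ _ => ⟨h1, h2, fun i hi => ?_⟩⟩
      have hiL : i < l.ord := h2.1 i hi
      have hiθ : i + θ.ord < l.ord :=
        isPrincipal_add_ord hc.le hiL (ord_lt_ord.2 hθl)
      refine h3 i hi (fun k _ _ => ⟨?_, hl.lt _ hiθ⟩) (fun k k' hk hkk' hk' => ?_)
        (fun k hk hlim => ?_) 1 zero_lt_one hone
      · exact hl.mono _ _ ((lt_add_iff_pos_right _).2 hθlim.bot_lt) hiθ
      · exfalso
        have h4 : (1 : Ordinal.{0}) ≤ k := by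
          have := Order.add_one_le_of_lt hk
          rwa [zero_add] at this
        have h5 : (2 : Ordinal.{0}) ≤ k' := by
          have h6 := Order.add_one_le_of_lt (h4.trans_lt hkk')
          have h7 : (1 : Ordinal.{0}) + 1 = 2 := one_add_one_eq_two
          rwa [h7] at h6
        exact absurd hk' (not_lt.2 h5)
      · exfalso
        have h4 : ω ≤ k := omega0_le_of_isSuccLimit hlim
        have h5 : (2 : Ordinal.{0}) < ω := by exact_mod_cast natCast_lt_omega0 2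
        exact absurd (hk.trans h5) (not_lt.2 h4)
    · exact ⟨fun _ => 0, ∅, fun h1 h2 => absurd ⟨h1, h2⟩ hα⟩
  choose c' e hce using hins
  refine ⟨c', fun α h1 h2 => (hce α h1 h2).1, fun D hD => (h.2 D hD).mono ?_ fun x hx => hx.1⟩
  rintro α ⟨hακ, hcof, hst⟩
  refine ⟨hακ, hcof, ?_⟩
  obtain ⟨_, he, hv⟩ := hce α hακ hcof
  have hl := h.1 α hακ hcof
  refine (hst.inter_club hr hc he).mono ?_ fun x hx => hx.1
  rintro i ⟨⟨hi, hik⟩, hie⟩
  have hiθ : i + θ.ord < l.ord := isPrincipal_add_ord hc.le hi (ord_lt_ord.2 hθl)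
  have hlim : IsSuccLimit (i + θ.ord) := by
    have := (isNormal_add_right i).map_isSuccLimit hθlim
    exact this
  refine ⟨hi, ?_, ?_⟩
  · rw [hv i hie]
    refine hD.2.2 _ ((hl.lt _ hiθ).trans hακ) ?_ fun b hb => ?_
    · refine (zero_le).trans_lt (hl.mono i _ ?_ hiθ)
      exact (lt_add_iff_pos_right _).2 hθlim.bot_lt
    · by_contra hcon
      push Not at hcon
      refine absurd hb (not_lt.2 (hl.cont _ hiθ hlim b fun j hj => ?_))
      by_contra hjb
      push Not at hjb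
      -- `j < i + θ`, find a later point of the block
      obtain ⟨k, hk, hjk⟩ : ∃ k < θ.ord, j < i + k := by
        by_contra h5
        push Not at h5
        have : i + θ.ord ≤ j := (add_le_iff_of_isSuccLimit hθlim).2 fun k hk => h5 k hk
        exact absurd hj (not_lt.2 this)
      have hk1 : k + 1 < θ.ord := hθlim.succ_lt hk
      have h6 : j < i + (k + 1) := hjk.trans ((add_lt_add_iff_left _).2 (lt_add_one k))
      have h7 : i + (k + 1) < l.ord := ((add_lt_add_iff_left _).2 hk1).trans hiθ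
      have h8 := hik (k + 1) ((zero_le).trans_lt (lt_add_one k)) hk1
      have h9 := hcon _ h8 (hjb.trans (hl.mono _ _ h6 h7))
      exact absurd (hl.mono _ _ ((add_lt_add_iff_left _).2 hk1) hiθ) (not_lt.2 h9)
  · rw [hv i hie, hl.cof_eq hiθ hlim, cof_add i hθlim.ne_bot, hθ.cof_ord]

/-- the decreasing sequence of closed unbounded sets given by an operation -/
noncomputable def iter (κ : Ordinal.{0}) (nxt : Set Ordinal.{0} → Set Ordinal.{0}) :
    Ordinal.{0} → Set Ordinal.{0} :=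
  WellFounded.fix Ordinal.lt_wf
    (fun ξ ih => {x | x < κ ∧ ∀ η (h : η < ξ), x ∈ nxt (ih η h)})

theorem iter_eq (κ : Ordinal.{0}) (nxt : Set Ordinal.{0} → Set Ordinal.{0}) (ξ : Ordinal.{0}) :
    iter κ nxt ξ = {x | x < κ ∧ ∀ η < ξ, x ∈ nxt (iter κ nxt η)} := by
  rw [iter, WellFounded.fix_eq]

theorem block_of_cof {l θ : Cardinal.{0}} (hr : l.IsRegular) (hc : ℵ₀ < l) (hθ : θ.IsRegular)
    (hθl : succ θ < l) {c0 : Ordinal.{0} → Ordinal.{0} → Ordinal.{0}}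
    (h0 : GuessesCof l θ c0) : ∃ c, GuessesBlock l θ.ord c := by
  classical
  by_contra hno
  push Not at hno
  have hR : (succ l).IsRegular := isRegular_succ hc.le
  have hC : ℵ₀ < succ l := hc.trans (lt_succ l)
  have hθl' : θ < l := (lt_succ θ).trans hθl
  have hθlim : IsSuccLimit θ.ord := isSuccLimit_ord hθ.aleph0_le
  have hθ1 : 1 < θ.ord := by
    have := hθlim.succ_lt hθlim.bot_lt
    simpa using this
  have hθL : θ.ord < l.ord := ord_lt_ord.2 hθl'
  choose e he1 he2 using exists_cofinal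
  let t : Set Ordinal.{0} → Ordinal.{0} → Ordinal.{0} → Ordinal.{0} → Ordinal.{0} :=
    fun D α i k => blk θ.ord (fun j => nu D (e (c0 α (i + 1)) j)) (c0 α i) k
  -- the step
  have hstep : ∀ D, ∃ D', Club (succ l).ord D → D' ⊆ D ∧ Club (succ l).ord D' ∧
      ∀ α ∈ D', α.cof = l → ¬ Stat l.ord
        {i | i < l.ord ∧ (∀ k, 0 < k → k < θ.ord → t D α i k < α) ∧
          ∀ k, 0 < k → k < θ.ord → t D α i k ∈ D'} := by
    intro D
    by_cases hD : Club (succ l).ord D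
    swap
    · exact ⟨D, fun h => absurd h hD⟩
    have hins : ∀ α, ∃ c : Ordinal.{0} → Ordinal.{0}, ∃ e' : Set Ordinal.{0},
        α < (succ l).ord → α.cof = l → Ladder l α c ∧ Club l.ord e' ∧ ∀ i ∈ e',
          (∀ k, 0 < k → k < θ.ord → t D α i k < α) →
          ∀ k, 0 < k → k < θ.ord → c (i + k) = t D α i k := by
      intro α
      by_cases h : α < (succ l).ord ∧ α.cof = l
      · obtain ⟨c, h1, e', h2, h3⟩ := ladder_block hr hc h.2 (h0.1 α h.1 h.2) hθ1 hθL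
          (t D α)
        refine ⟨c, e', fun _ _ => ⟨h1, h2, fun i hi hlt => ?_⟩⟩
        exact h3 i hi (fun k hk hk' => ⟨lt_blk _ _ _ hk, hlt k hk hk'⟩)
          (fun k k' _ hkk' _ => blk_mono _ _ _ hkk')
          (fun k _ hlim γ hγ => blk_cont _ _ _ hlim hγ)
      · exact ⟨fun _ => 0, ∅, fun h1 h2 => absurd ⟨h1, h2⟩ h⟩
    choose c e' hce using hins
    have h1 := hno c
    have h2 : ∃ E, Club (succ l).ord E ∧ ¬ Stat (succ l).ord
        {α | α < (succ l).ord ∧ α.cof = l ∧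
          Stat l.ord {i | i < l.ord ∧ ∀ k, 0 < k → k < θ.ord → c α (i + k) ∈ E}} := by
      by_contra hcon
      refine h1 ⟨fun α h2 h3 => (hce α h2 h3).1, fun E hE => ?_⟩
      by_contra h4
      exact hcon ⟨E, hE, h4⟩
    obtain ⟨E, hE, hE'⟩ := h2
    obtain ⟨F, hF, hF'⟩ := exists_club_of_not_stat (fun x hx => hx.1) hE'
    refine ⟨D ∩ (E ∩ F), fun _ => ⟨Set.inter_subset_left,
      club_inter hR hC hD (club_inter hR hC hE hF), ?_⟩⟩
    intro α hα hcof hstat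
    have hακ : α < (succ l).ord := hD.1 α hα.1
    obtain ⟨hl, he, hv⟩ := hce α hακ hcof
    refine hF' α ⟨hακ, hcof, ?_⟩ hα.2.2
    refine (hstat.inter_club hr hc he).mono ?_ (fun x hx => hx.1)
    rintro i ⟨⟨hi, h3, h4⟩, hie⟩
    refine ⟨hi, fun k hk1 hk2 => ?_⟩
    rw [hv i hie h3 k hk1 hk2]
    exact (h4 k hk1 hk2).2.1
  choose nxt hnxt using hstep
  let F : Ordinal.{0} → Set Ordinal.{0} := iter (succ l).ord nxt
  have hFeq : ∀ ξ, F ξ = {x | x < (succ l).ord ∧ ∀ η < ξ, x ∈ nxt (F η)} :=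
    iter_eq (succ l).ord nxt
  have hFclub : ∀ ξ < (succ l).ord, Club (succ l).ord (F ξ) := by
    intro ξ
    induction ξ using WellFoundedLT.induction with
    | ind ξ ih =>
      intro hξ
      rw [hFeq]
      exact club_iInter_ord hR hC hξ (fun η => nxt (F η))
        (fun η hη => (hnxt _ (ih η hη (hη.trans hξ))).2.1)
  have hFsub : ∀ η ξ, η < ξ → F ξ ⊆ nxt (F η) := by
    intro η ξ h x hx
    rw [hFeq] at hx
    exact hx.2 η h
  set Θ : Ordinal.{0} := (succ θ).ord with hΘ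
  have hΘκ : Θ < (succ l).ord := ord_lt_ord.2 (hθl.trans (lt_succ l))
  have hΘlim : IsSuccLimit Θ := isSuccLimit_ord (hθ.aleph0_le.trans (le_succ θ))
  have hΘreg : (succ θ).IsRegular := isRegular_succ hθ.aleph0_le
  have hFanti : ∀ η ξ, η ≤ ξ → ξ ≤ Θ → F ξ ⊆ F η := by
    intro η ξ h hξ
    rcases h.eq_or_lt with rfl | h
    · exact subset_rfl
    · exact (hFsub η ξ h).trans (hnxt _ (hFclub η ((h.trans_le hξ).trans hΘκ))).1
  have hFΘ := hFclub Θ hΘκ
  obtain ⟨α, ⟨hακ, hcof, hT⟩, hαD⟩ := (h0.2 _ (club_acc hR hC hFΘ)).2 _ hFΘ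
  have hl := h0.1 α hακ hcof
  obtain ⟨ξ, hξ⟩ := stat_union hr hc (ι := Θ.ToType)
    (by rw [Cardinal.mk_toType, hΘ, card_ord]; exact hθl)
    (fun ξ => {i | i < l.ord ∧
      (∀ k, 0 < k → k < θ.ord → t (F (ToType.toOrd ξ).1) α i k < α) ∧
        ∀ k, 0 < k → k < θ.ord →
          t (F (ToType.toOrd ξ).1) α i k ∈ F ((ToType.toOrd ξ).1 + 1)})
    (fun ξ x hx => hx.1) hT (by
      rintro i ⟨hi, hacc, hcofy⟩
      set y := c0 α (i + 1) with hy
      have hyα : y < α := hl.lt _ (ord_succ_lt hc.le hi)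
      have hiy : c0 α i < y := hl.mono _ _ (lt_add_one i) (ord_succ_lt hc.le hi)
      -- stabilisation
      have hst : ∀ j, ∃ ξ < Θ, ∀ ξ' < Θ, ξ ≤ ξ' → nu (F ξ') (e y j) = nu (F ξ) (e y j) := by
        intro j
        obtain ⟨_, ⟨ξ, hξ, rfl⟩, hmin⟩ := WellFounded.has_min Ordinal.lt_wf
          ((fun ξ => nu (F ξ) (e y j)) '' Set.Iio Θ) ⟨_, 0, hΘlim.bot_lt, rfl⟩
        refine ⟨ξ, hξ, fun ξ' hξ' hle => ?_⟩
        exact le_antisymm (nu_mono (hFanti ξ ξ' hle hξ'.le) _)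
          (not_lt.1 (hmin _ ⟨ξ', hξ', rfl⟩))
      choose st hst1 hst2 using hst
      obtain ⟨ξ, hξ, hξst⟩ := exists_bound_ord (δ := Θ) (ξ := θ.ord)
        (by rw [card_ord, hΘ, hΘreg.cof_ord]; exact lt_succ θ) st (fun j _ => hst1 j)
      have hconst : ∀ j < θ.ord, ∀ ξ' < Θ, ξ ≤ ξ' →
          nu (F ξ') (e y j) = nu (F ξ) (e y j) := by
        intro j hj ξ' hξ' hle
        rw [hst2 j ξ' hξ' ((hξst j hj).trans hle), hst2 j ξ hξ (hξst j hj)]
      have hejy : ∀ j < θ.ord, e y j < y := fun j hj => he1 y j (by rw [hcofy]; exact hj)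
      have hmemF : ∀ j < θ.ord, c0 α i < nu (F ξ) (e y j) →
          nu (F ξ) (e y j) ∈ F (ξ + 1) := by
        intro j hj hlt
        have hξ1 : ξ + 1 < Θ := hΘlim.succ_lt hξ
        rw [← hconst j hj (ξ + 1) hξ1 (lt_add_one ξ).le] at hlt ⊢
        refine nu_mem (hFclub _ (hξ1.trans hΘκ)) (((hejy j hj).trans hyα).trans hακ) ?_
        by_contra hcon
        have hemp : {x | x ∈ F (ξ + 1) ∧ x ≤ e y j} = ∅ := by
          ext x
          simp only [Set.mem_ofPred_eq, Set.mem_empty_iff_false, iff_false]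
          exact fun hx => hcon ⟨x, hx⟩
        rw [nu, hemp, csSup_empty] at hlt
        exact absurd hlt (not_lt.2 bot_le)
      have hunb : ∀ b < y, ∃ j < θ.ord, b < nu (F ξ) (e y j) := by
        intro b hb
        obtain ⟨x, hx, hbx, hxy⟩ := hacc.2.2 b hb
        obtain ⟨j, hj, hle⟩ := he2 y x hxy
        rw [hcofy] at hj
        exact ⟨j, hj, hbx.trans_le (le_nu (hFanti ξ Θ hξ.le le_rfl hx) hle)⟩
      have hρ : ∀ j < θ.ord, nu (F ξ) (e y j) < y := fun j hj =>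
        (nu_le _ _).trans_lt (hejy j hj)
      refine ⟨ToType.mk ⟨ξ, hξ⟩, hi, fun k hk0 hk => ?_, fun k hk0 hk => ?_⟩
      · have h1 := blk_lt hcofy hiy (fun j => nu (F ξ) (e y j)) hρ hunb k hk
        have h2 := h1.trans hyα
        simpa [t] using h2
      · have h1 := blk_mem hcofy hiy (hyα.trans hακ).le (fun j => nu (F ξ) (e y j)) hρ hunb
          (hFclub (ξ + 1) ((hΘlim.succ_lt hξ).trans hΘκ)) hmemF k hk hk0
        simpa [t] using h1)
  have hξΘ : (ToType.toOrd ξ).1 < Θ := (ToType.toOrd ξ).2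
  have hξ1 : (ToType.toOrd ξ).1 + 1 < Θ := hΘlim.succ_lt hξΘ
  have hα1 : α ∈ nxt (F (ToType.toOrd ξ).1) :=
    hFsub _ _ (lt_add_one _) (hFanti _ Θ hξ1.le le_rfl hαD)
  refine (hnxt _ (hFclub _ (hξΘ.trans hΘκ))).2.2 α hα1 hcof (hξ.mono ?_ fun x hx => hx.1)
  rintro i ⟨h1, h2, h3⟩
  exact ⟨h1, h2, fun k hk0 hk => hFsub _ _ (lt_add_one _) (h3 k hk0 hk)⟩

end Pool.Agent.Lib.MP_d632e4_lc
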