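import Pool.Agent.Lib.MP_d632e4_lc.Windows

set_option autoImplicit false

/-!
# Fewer than `b(l)` ladders at every point do not help

`sparse_many`: if no sequence of ladders guesses `T` consecutive successor points, then for all
sets `P α` of pairs (ladder, window function) whose index functions are bounded by one function,
there is one closed unbounded set `D` such that every pair of every `P α` fails from some index on.
-/

namespace Pool.Agent.Lib.MP_d632e4_lc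

open Cardinal Ordinal Order Set

/-- the index function of a ladder `c` with windows `w` relative to a ladder `d` -/
theorem exists_index {l : Cardinal.{0}} (hr : l.IsRegular) (hc : ℵ₀ < l) {α : Ordinal.{0}}
    {c d w π : Ordinal.{0} → Ordinal.{0}} (hc' : Ladder l α c) (hd : Ladder l α d)
    (hw : ∀ i < l.ord, w i < l.ord) (hπ : ∀ β < α, ∃ ε < l.ord, π ε = β) (i : Ordinal.{0})
    (hi : i < l.ord) : ∃ g < l.ord, ∀ i' < l.ord, c i' < d (i + 1) → ∀ j ≤ w i' + 1,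
      ∃ ε < g, π ε = c j := by
  have hlcof : l.ord.cof = l := hr.cof_ord
  obtain ⟨b, hb, hb'⟩ := hc'.unb _ (hd.lt _ (ord_succ_lt hc.le hi))
  obtain ⟨B, hB, hB'⟩ := exists_bound_ord (δ := l.ord) (ξ := b)
    (by rw [hlcof]; exact card_lt_of_lt_ord hb) (fun i' => w i' + 1)
    (fun i' hi' => ord_succ_lt hc.le (hw i' (hi'.trans hb)))
  have h1 : ∀ j, ∃ ε, ε < l.ord ∧ (j < l.ord → π ε = c j) := by
    intro j
    by_cases hj : j < l.ord
    · obtain ⟨ε, hε, hε'⟩ := hπ _ (hc'.lt j hj)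
      exact ⟨ε, hε, fun _ => hε'⟩
    · exact ⟨0, omega0_pos.trans_le (omega0_le_ord.2 hc.le), fun h2 => absurd h2 hj⟩
  choose ι hι hι' using h1
  have hB1 : B + 1 < l.ord := ord_succ_lt hc.le hB
  obtain ⟨g, hg, hg'⟩ := exists_bound_ord (δ := l.ord) (ξ := B + 1)
    (by rw [hlcof]; exact card_lt_of_lt_ord hB1) ι (fun j _ => hι j)
  refine ⟨g + 1, ord_succ_lt hc.le hg, fun i' hi' hlt j hj => ?_⟩
  have hi'b : i' < b := by
    by_contra hcon
    push Not at hcon
    exact absurd (hb'.trans_le (hc'.le hcon hi')) (not_lt.2 hlt.le)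
  have hjB : j < B + 1 := (hj.trans (hB' i' hi'b)).trans_lt (lt_add_one B)
  exact ⟨ι j, (hg' j hjB).trans_lt (lt_add_one g), hι' j (hjB.trans hB1)⟩

/-- the last point of a ladder below a given ordinal -/
theorem exists_last {l : Cardinal.{0}} {α : Ordinal.{0}} {d : Ordinal.{0} → Ordinal.{0}}
    (hd : Ladder l α d) {x i₁ : Ordinal.{0}} (hx : x < α) (hi₁ : i₁ < l.ord) (h : d i₁ < x) :
    ∃ i, i₁ ≤ i ∧ i < l.ord ∧ d i ≤ x ∧ x < d (i + 1) := by
  have hne : {q | q < l.ord ∧ x < d q}.Nonempty := by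
    obtain ⟨q, hq, hq'⟩ := hd.unb x hx
    exact ⟨q, hq, hq'⟩
  obtain ⟨hq, hq'⟩ := csInf_mem hne
  set q := sInf {q | q < l.ord ∧ x < d q} with hqdef
  have hmin : ∀ j < q, d j ≤ x := by
    intro j hj
    by_contra hcon
    push Not at hcon
    have h2 : q ≤ j := csInf_le' (show j ∈ {q | q < l.ord ∧ x < d q} from ⟨hj.trans hq, hcon⟩)
    exact absurd h2 (not_le.2 hj)
  have h1 : i₁ < q := by
    by_contra hcon
    push Not at hcon
    exact absurd (hq'.trans_le (hd.le hcon hi₁)) (not_lt.2 h.le)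
  rcases zero_or_succ_or_isSuccLimit q with h2 | ⟨i, h2⟩ | h2
  · rw [h2] at h1
    exact absurd h1 (not_lt.2 zero_le)
  · rw [Order.succ_eq_add_one] at h2
    refine ⟨i, ?_, ?_, hmin i ?_, ?_⟩
    · rw [← h2] at h1
      exact Order.lt_add_one_iff.1 h1
    · exact (lt_add_one i).trans (by rw [h2]; exact hq)
    · rw [← h2]
      exact lt_add_one i
    · rw [h2]
      exact hq'
  · exact absurd (hd.cont q hq h2 x hmin) (not_le.2 hq')

theorem sparse_many {l m : Cardinal.{0}} (hm : ℵ₀ ≤ m) (hl : l = succ m) {T : Ordinal.{0}}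
    (hT : (∃ n : ℕ, 1 ≤ n ∧ T = n ∧ ∀ c, ¬ Guesses l n c) ∨
      ∃ θ : Cardinal.{0}, θ.IsRegular ∧ T = θ.ord ∧ ∀ c, ¬ GuessesCof l θ c)
    (P : Ordinal.{0} → Set ((Ordinal.{0} → Ordinal.{0}) × (Ordinal.{0} → Ordinal.{0})))
    (hP : ∀ α < (succ l).ord, α.cof = l → ∀ p ∈ P α, Ladder l α p.1 ∧ ∀ i < l.ord, p.2 i < l.ord)
    (hB : ∀ α < (succ l).ord, α.cof = l →
      ∀ g : (Ordinal.{0} → Ordinal.{0}) × (Ordinal.{0} → Ordinal.{0}) →
        Ordinal.{0} → Ordinal.{0}, (∀ p i, i < l.ord → g p i < l.ord) →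
        ∃ h : Ordinal.{0} → Ordinal.{0}, (∀ i < l.ord, h i < l.ord) ∧
          ∀ p ∈ P α, ∃ j < l.ord, ∀ i < l.ord, j ≤ i → g p i ≤ h i) :
    ∃ D, Club (succ l).ord D ∧ ∀ α < (succ l).ord, α.cof = l → ∀ p ∈ P α, ∃ i₀ < l.ord,
      ∀ i < l.ord, i₀ ≤ i → ¬ Meets D p.1 T i (p.2 i) := by
  classical
  have hml : m < l := by rw [hl]; exact lt_succ m
  have hr : l.IsRegular := by rw [hl]; exact isRegular_succ hm
  have hc : ℵ₀ < l := hm.trans_lt hml
  have h0l : 0 < l.ord := omega0_pos.trans_le (omega0_le_ord.2 hc.le)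
  have hT0 : 0 < T := by
    rcases hT with ⟨n, hn, rfl, _⟩ | ⟨θ, hθ, rfl, _⟩
    · exact_mod_cast hn
    · exact (isSuccLimit_ord hθ.aleph0_le).bot_lt
  obtain ⟨d, hd⟩ := exists_ladders hc
  obtain ⟨π, hπ⟩ := exists_pi (l := l)
  -- the index functions and their bound
  have hg : ∀ α (p : (Ordinal.{0} → Ordinal.{0}) × (Ordinal.{0} → Ordinal.{0})) i, ∃ g,
      (i < l.ord → g < l.ord) ∧ (α < (succ l).ord → α.cof = l → p ∈ P α → i < l.ord →
        ∀ i' < l.ord, p.1 i' < d α (i + 1) → ∀ j ≤ p.2 i' + 1, ∃ ε < g, π α ε = p.1 j) := by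
    intro α p i
    by_cases h : α < (succ l).ord ∧ α.cof = l ∧ p ∈ P α ∧ i < l.ord
    · obtain ⟨h1, h2, h3, h4⟩ := h
      have hα0 : 0 < α := zero_le.trans_lt ((hd α h1 h2).lt 0 h0l)
      obtain ⟨g, hg, hg'⟩ := exists_index hr hc (hP α h1 h2 p h3).1 (hd α h1 h2)
        (hP α h1 h2 p h3).2 (hπ α h1 hα0).2 i h4
      exact ⟨g, fun _ => hg, fun _ _ _ _ => hg'⟩
    · exact ⟨0, fun _ => h0l, fun h1 h2 h3 h4 => absurd ⟨h1, h2, h3, h4⟩ h⟩
  choose g hg1 hg2 using hg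
  have hh : ∀ α, ∃ h : Ordinal.{0} → Ordinal.{0}, (∀ i < l.ord, h i < l.ord) ∧
      (α < (succ l).ord → α.cof = l →
        ∀ p ∈ P α, ∃ j < l.ord, ∀ i < l.ord, j ≤ i → g α p i ≤ h i) := by
    intro α
    by_cases h : α < (succ l).ord ∧ α.cof = l
    · obtain ⟨h', hh1, hh2⟩ := hB α h.1 h.2 (g α) (fun p i hi => hg1 α p i hi)
      exact ⟨h', hh1, fun _ _ => hh2⟩
    · exact ⟨fun _ => 0, fun _ _ => h0l, fun h1 h2 => absurd ⟨h1, h2⟩ h⟩
  choose h hh1 hh2 using hh
  have key : ∃ D, Club (succ l).ord D ∧ ∀ α ∈ D, α.cof = l → ∀ p ∈ P α, ∃ i₀ < l.ord,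
      ∀ i < l.ord, i₀ ≤ i → ¬ Meets D p.1 T i (p.2 i) := by
    -- the common part of both cases
    have main : ∀ V : Set Ordinal.{0} → Ordinal.{0} → Ordinal.{0} → Ordinal.{0} → Prop,
        (∀ D α i i' h h', α < (succ l).ord → α.cof = l → i < l.ord → i' ≤ i → h ≤ h' →
          V D α i h → V D α i' h') →
        (∃ D, Club (succ l).ord D ∧ ∀ α ∈ D, α.cof = l → ∃ i₀ < l.ord, ∀ i < l.ord, i₀ ≤ i →
          ¬ V D α i (h α i)) →
        (∀ D α p i i', Club (succ l).ord D → α ∈ D → α.cof = l → p ∈ P α → i < l.ord →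
          i' < l.ord → d α i ≤ p.1 i' → p.1 i' < d α (i + 1) → Meets D p.1 T i' (p.2 i') →
          V D α i (g α p i)) →
        ∃ D, Club (succ l).ord D ∧ ∀ α ∈ D, α.cof = l → ∀ p ∈ P α, ∃ i₀ < l.ord,
          ∀ i < l.ord, i₀ ≤ i → ¬ Meets D p.1 T i (p.2 i) := by
      rintro V hVw ⟨D, hD, hD'⟩ hVM
      refine ⟨D, hD, fun α hα hcof p hp => ?_⟩
      have hακ : α < (succ l).ord := hD.1 α hα
      have hla := hd α hακ hcof
      have hlp := (hP α hακ hcof p hp).1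
      obtain ⟨i₀, hi₀, hi₀'⟩ := hD' α hα hcof
      obtain ⟨j, hj, hj'⟩ := hh2 α hακ hcof p hp
      have hi₁ : max i₀ j < l.ord := max_lt hi₀ hj
      obtain ⟨q, hq, hq'⟩ := hlp.unb _ (hla.lt _ hi₁)
      refine ⟨q, hq, fun i' hi' hqi hM => ?_⟩
      obtain ⟨i, h1, h2, h3, h4⟩ := exists_last hla (hlp.lt i' hi') hi₁
        (hq'.trans_le (hlp.le hqi hi'))
      refine hi₀' i h2 ((le_max_left _ _).trans h1) ?_
      refine hVw D α i i _ _ hακ hcof h2 le_rfl (hj' i h2 ((le_max_right _ _).trans h1)) ?_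
      exact hVM D α p i i' hD hα hcof hp h2 hi' h3 h4 hM
    rcases hT with ⟨n, hn, rfl, hno⟩ | ⟨θ, hθ, rfl, hno⟩
    · have hVw : ∀ (D : Set Ordinal.{0}) (α i i' h h' : Ordinal.{0}), α < (succ l).ord →
          α.cof = l → i < l.ord → i' ≤ i → h ≤ h' → Anch D (π α) (d α i) n h →
            Anch D (π α) (d α i') n h' := fun D α i i' h h' h1 h2 h3 h4 h5 hA =>
        hA.mono subset_rfl ((hd α h1 h2).le h4 h3) h5
      refine main (fun D α i h => Anch D (π α) (d α i) n h) hVw ?_ ?_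
      · exact kill hr hc (fun D α i h => Anch D (π α) (d α i) n h)
          (fun D D' α i h hDD' hA => hA.mono hDD' le_rfl le_rfl) hVw
          (fun D α i f hf hA => anch_sup hf hA)
          (step_anch hm hl hn hno d hd π fun α h1 h2 => (hπ α h1 h2).1) h hh1
      · rintro D α p i i' hD hα hcof hp hi hi' h1 h2 ⟨t, ht, ht'⟩
        have hακ : α < (succ l).ord := hD.1 α hα
        have hlp := (hP α hακ hcof p hp).1
        have hgi := hg2 α p i hακ hcof hp hi i' hi' h2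
        have hwl := (hP α hακ hcof p hp).2 i' hi'
        refine ⟨fun k => if k = 0 then d α i else p.1 (t ((k - 1 : ℕ) : Ordinal.{0}) + 1),
          by simp, fun k hk => ?_⟩
        obtain ⟨h3, h4, x, hx, hx1, hx2⟩ := ht' (k : ℕ) (by exact_mod_cast hk)
        have h5 : t (k : ℕ) + 1 < l.ord := ord_succ_lt hc.le (h4.trans hwl)
        simp only [Nat.succ_ne_zero, if_false, Nat.add_sub_cancel]
        refine ⟨?_, x, hx, ?_, hx2⟩
        · exact hgi _ ((Order.add_one_le_of_lt h4).trans (lt_add_one _).le)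
        · refine lt_of_le_of_lt ?_ hx1
          rcases Nat.eq_zero_or_pos k with rfl | hk0
          · simp only [if_true]
            exact h1.trans (hlp.le h3 ((lt_add_one _).trans h5))
          · obtain ⟨q, rfl⟩ : ∃ q, k = q + 1 := ⟨k - 1, by omega⟩
            simp only [Nat.succ_ne_zero, if_false, Nat.add_sub_cancel]
            refine hlp.le (Order.add_one_le_of_lt (ht _ _ ?_ (by exact_mod_cast hk)))
              ((lt_add_one _).trans h5)
            exact_mod_cast Nat.lt_succ_self q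
    · have hVw : ∀ (D : Set Ordinal.{0}) (α i i' h h' : Ordinal.{0}), α < (succ l).ord →
          α.cof = l → i < l.ord → i' ≤ i → h ≤ h' → PtCof θ D (π α) (d α i) h →
            PtCof θ D (π α) (d α i') h' := fun D α i i' h h' h1 h2 h3 h4 h5 hA => by
        obtain ⟨ε, hε, hε1, hε2⟩ := hA
        exact ⟨ε, hε.trans_le h5, ((hd α h1 h2).le h4 h3).trans_lt hε1, hε2⟩
      refine main (fun D α i h => PtCof θ D (π α) (d α i) h) hVw ?_ ?_
      · exact kill hr hc (fun D α i h => PtCof θ D (π α) (d α i) h)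
          (fun D D' α i h hDD' ⟨ε, h1, h2, h3, h4⟩ => ⟨ε, h1, h2, hDD' h3, h4⟩) hVw
          (fun D α i f hf ⟨ε, h1, h2⟩ => by
            obtain ⟨k, hk⟩ := Ordinal.lt_iSup_iff.1 h1
            exact ⟨k, ε, hk, h2⟩)
          (step_cof hm hl hno d hd π fun α h1 h2 => (hπ α h1 h2).1) h hh1
      · rintro D α p i i' hD hα hcof hp hi hi' h1 h2 hM
        have hακ : α < (succ l).ord := hD.1 α hα
        have hlp := (hP α hακ hcof p hp).1
        have hgi := hg2 α p i hακ hcof hp hi i' hi' h2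
        have hwl := (hP α hακ hcof p hp).2 i' hi'
        obtain ⟨j, h3, h4, h5, h6⟩ := meetsCof_of_meets hθ hD hακ hlp hwl hM
        obtain ⟨ε, hε, hε'⟩ := hgi j h4.le
        have hjl : j < l.ord := h4.trans (ord_succ_lt hc.le hwl)
        refine ⟨ε, hε, ?_, ?_, ?_⟩
        · rw [hε']
          exact h1.trans_lt (hlp.mono _ _ h3 hjl)
        · rw [hε']
          exact h5
        · rw [hε']
          exact h6
  obtain ⟨D, hD, hD'⟩ := key
  refine ⟨D, hD, fun α hακ hcof p hp => ?_⟩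
  by_cases hα : α ∈ D
  · exact hD' α hα hcof p hp
  obtain ⟨hla, hw⟩ := hP α hακ hcof p hp
  have hα0 : 0 < α := zero_le.trans_lt (hla.lt 0 h0l)
  obtain ⟨β, hβ, hβ'⟩ : ∃ β < α, ∀ x ∈ D, β < x → ¬ x < α := by
    by_contra hcon
    push Not at hcon
    exact hα (hD.2.2 α hακ hα0 fun β hβ => by
      obtain ⟨x, hx, h1, h2⟩ := hcon β hβ
      exact ⟨x, hx, h1, h2⟩)
  obtain ⟨i₀, hi₀, hi₀'⟩ := hla.unb β hβ
  refine ⟨i₀, hi₀, fun i hi hi0 ⟨t, _, ht⟩ => ?_⟩
  obtain ⟨h1, h2, x, hx, hx1, hx2⟩ := ht 0 hT0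
  have h3 : t 0 + 1 < l.ord := ord_succ_lt hc.le (h2.trans (hw i hi))
  refine hβ' x hx (lt_of_lt_of_le (hi₀'.trans_le (hla.le (hi0.trans h1)
    ((lt_add_one _).trans h3))) hx1.le) ?_
  exact lt_of_le_of_lt hx2 (hla.lt _ h3)

end Pool.Agent.Lib.MP_d632e4_lc
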