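import Pool.Agent.Lib.MP_d632e4_lc.Ladder

set_option autoImplicit false

/-!
# From anchored guessing to guessing consecutive successor points
-/

namespace Pool.Agent.Lib.MP_d632e4_lc

open Cardinal Ordinal Order Set

/-- the largest element of `D` which is at most `y` -/
noncomputable def nu (D : Set Ordinal.{0}) (y : Ordinal.{0}) : Ordinal.{0} :=
  sSup {x | x ∈ D ∧ x ≤ y}

theorem nu_bdd (D : Set Ordinal.{0}) (y : Ordinal.{0}) : BddAbove {x | x ∈ D ∧ x ≤ y} :=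
  ⟨y, fun _ hx => hx.2⟩

theorem nu_le (D : Set Ordinal.{0}) (y : Ordinal.{0}) : nu D y ≤ y :=
  csSup_le' fun _ hx => hx.2

theorem le_nu {D : Set Ordinal.{0}} {x y : Ordinal.{0}} (hx : x ∈ D) (h : x ≤ y) : x ≤ nu D y :=
  le_csSup (nu_bdd D y) ⟨hx, h⟩

theorem nu_mono {D E : Set Ordinal.{0}} (h : D ⊆ E) (y : Ordinal.{0}) : nu D y ≤ nu E y :=
  csSup_le' fun _ hx => le_nu (h hx.1) hx.2

theorem nu_mem {δ : Ordinal.{0}} {D : Set Ordinal.{0}} (hD : Club δ D) {y : Ordinal.{0}}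
    (hy : y < δ) (h : ∃ x ∈ D, x ≤ y) : nu D y ∈ D := by
  by_contra hcon
  obtain ⟨x, hx, hxy⟩ := h
  have hlt : ∀ z, z ∈ D → z ≤ y → z < nu D y := fun z hz hzy =>
    lt_of_le_of_ne (le_nu hz hzy) fun h => hcon (h ▸ hz)
  refine hcon (hD.2.2 _ ((nu_le D y).trans_lt hy) ((zero_le).trans_lt (hlt x hx hxy)) ?_)
  intro β hβ
  obtain ⟨z, hz, hz'⟩ := exists_lt_of_lt_csSup (s := {x | x ∈ D ∧ x ≤ y}) ⟨x, hx, hxy⟩ hβ
  exact ⟨z, hz.1, hz', hlt z hz.1 hz.2⟩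

/-- rounding by a decreasing sequence of closed unbounded sets is eventually constant -/
theorem nu_stable {δ : Ordinal.{0}} (D : ℕ → Set Ordinal.{0}) (hD : ∀ m, Club δ (D m))
    (hdec : ∀ m, D (m + 1) ⊆ D m) {y : Ordinal.{0}} (hy : y < δ)
    (h : ∃ x, (∀ m, x ∈ D m) ∧ x ≤ y) :
    ∃ M, ∀ m ≥ M, ∀ m', nu (D m) y ∈ D m' := by
  have hanti : ∀ m m', m ≤ m' → D m' ⊆ D m := by
    intro m m' hmm'
    induction m' with
    | zero =>
      obtain rfl : m = 0 := by omega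
      exact subset_rfl
    | succ k ih =>
      rcases Nat.lt_or_ge k m with h1 | h1
      · obtain rfl : m = k + 1 := by omega
        exact subset_rfl
      · exact (hdec k).trans (ih h1)
  have hmem : ∀ m, nu (D m) y ∈ D m := fun m => by
    obtain ⟨x, hx, hxy⟩ := h
    exact nu_mem (hD m) hy ⟨x, hx m, hxy⟩
  obtain ⟨_, ⟨M, rfl⟩, hM⟩ := WellFounded.has_min Ordinal.lt_wf
    (Set.range fun m => nu (D m) y) ⟨_, 0, rfl⟩
  refine ⟨M, fun m hm m' => ?_⟩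
  rcases le_total m' m with h1 | h1
  · exact hanti m' m h1 (hmem m)
  · have h2 : nu (D m) y = nu (D m') y := by
      refine le_antisymm ?_ (nu_mono (hanti m m' h1) y)
      have h3 : nu (D M) y ≤ nu (D m') y := not_lt.1 (hM _ ⟨m', rfl⟩)
      exact (nu_mono (hanti M m hm) y).trans h3
    rw [h2]
    exact hmem m'

/-- `c` is a sequence of ladders which guesses `n` consecutive successor points. -/
def Guesses (l : Cardinal.{0}) (n : ℕ) (c : Ordinal.{0} → Ordinal.{0} → Ordinal.{0}) : Prop :=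
  (∀ α < (succ l).ord, α.cof = l → Ladder l α (c α)) ∧
    ∀ D, Club (succ l).ord D → Stat (succ l).ord
      {α | α < (succ l).ord ∧ α.cof = l ∧
        Stat l.ord {i | i < l.ord ∧ ∀ k : ℕ, 1 ≤ k → k ≤ n → c α (i + k) ∈ D}}

section

variable {l : Cardinal.{0}}

theorem step (hr : l.IsRegular) (hc : ℵ₀ < l) (n : ℕ)
    (d : Ordinal.{0} → Ordinal.{0} → Ordinal.{0})
    (hd : ∀ α < (succ l).ord, α.cof = l → Ladder l α (d α))
    (hno : ∀ c, ¬ Guesses l n c) (b : Ordinal.{0} → Ordinal.{0} → ℕ → Ordinal.{0})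
    (D : Set Ordinal.{0}) (hD : Club (succ l).ord D) :
    ∃ D' ⊆ D, Club (succ l).ord D' ∧ ∀ α ∈ D', α.cof = l → ¬ Stat l.ord
      {i | i < l.ord ∧ d α i < nu D (b α i 1) ∧
        (∀ k, 1 ≤ k → k < n → nu D (b α i k) < nu D (b α i (k + 1))) ∧
        ∀ k, 1 ≤ k → k ≤ n → nu D (b α i k) < α ∧ nu D (b α i k) ∈ D'} := by
  have hR : (succ l).IsRegular := isRegular_succ hc.le
  have hC : ℵ₀ < succ l := hc.trans (lt_succ l)
  have hins : ∀ α, ∃ c : Ordinal.{0} → Ordinal.{0}, ∃ e : Set Ordinal.{0},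
      α < (succ l).ord → α.cof = l → Ladder l α c ∧ Club l.ord e ∧ ∀ i ∈ e,
        d α i < nu D (b α i 1) →
        (∀ k, 1 ≤ k → k < n → nu D (b α i k) < nu D (b α i (k + 1))) →
        (∀ k, 1 ≤ k → k ≤ n → nu D (b α i k) < α) →
        ∀ k : ℕ, 1 ≤ k → k ≤ n → c (i + k) = nu D (b α i k) := by
    intro α
    by_cases h : α < (succ l).ord ∧ α.cof = l
    · obtain ⟨c, h1, e, h2, h3⟩ := ladder_insert hr hc h.2 (hd α h.1 h.2) n
        (fun i k => nu D (b α i k))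
      exact ⟨c, e, fun _ _ => ⟨h1, h2, h3⟩⟩
    · exact ⟨fun _ => 0, ∅, fun h1 h2 => absurd ⟨h1, h2⟩ h⟩
  choose c e hce using hins
  have h1 := hno c
  have h2 : ∃ E, Club (succ l).ord E ∧ ¬ Stat (succ l).ord
      {α | α < (succ l).ord ∧ α.cof = l ∧
        Stat l.ord {i | i < l.ord ∧ ∀ k : ℕ, 1 ≤ k → k ≤ n → c α (i + k) ∈ E}} := by
    by_contra hcon
    refine h1 ⟨fun α h2 h3 => (hce α h2 h3).1, fun E hE => ?_⟩
    by_contra h4
    exact hcon ⟨E, hE, h4⟩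
  obtain ⟨E, hE, hE'⟩ := h2
  obtain ⟨F, hF, hF'⟩ := exists_club_of_not_stat (fun x hx => hx.1) hE'
  refine ⟨D ∩ (E ∩ F), Set.inter_subset_left, club_inter hR hC hD (club_inter hR hC hE hF), ?_⟩
  intro α hα hcof hstat
  have hακ : α < (succ l).ord := hD.1 α hα.1
  obtain ⟨hl, he, hv⟩ := hce α hακ hcof
  refine hF' α ⟨hακ, hcof, ?_⟩ hα.2.2
  refine (hstat.inter_club hr hc he).mono ?_ (fun x hx => hx.1)
  rintro i ⟨⟨hi, h3, h4, h5⟩, hie⟩
  refine ⟨hi, fun k hk1 hk2 => ?_⟩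
  rw [hv i hie h3 h4 (fun k hk1 hk2 => (h5 k hk1 hk2).1) k hk1 hk2]
  exact (h5 k hk1 hk2).2.2.1

/-- Guessing in the anchored form, with at most `l` many choices of the anchors, implies
guessing `n` consecutive successor points. -/
theorem master (hr : l.IsRegular) (hc : ℵ₀ < l) {n : ℕ} (hn : 1 ≤ n) {ι : Type} (hι : #ι ≤ l)
    (d : Ordinal.{0} → Ordinal.{0} → Ordinal.{0})
    (hd : ∀ α < (succ l).ord, α.cof = l → Ladder l α (d α))
    (a : ι → Ordinal.{0} → Ordinal.{0} → ℕ → Ordinal.{0})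
    (H : ∀ D, Club (succ l).ord D → ∃ α ∈ D, α.cof = l ∧ ∃ η, Stat l.ord
      {i | i < l.ord ∧ d α i ≤ a η α i 0 ∧ a η α i n < α ∧
        ∀ k < n, ∃ x ∈ D, a η α i k < x ∧ x ≤ a η α i (k + 1)}) :
    ∃ c, Guesses l n c := by
  classical
  by_contra hno
  push Not at hno
  have hR : (succ l).IsRegular := isRegular_succ hc.le
  have hC : ℵ₀ < succ l := hc.trans (lt_succ l)
  have hnext : ∀ D : {D : Set Ordinal.{0} // Club (succ l).ord D},
      ∃ D' : {D : Set Ordinal.{0} // Club (succ l).ord D}, D'.1 ⊆ D.1 ∧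
        ∀ η, ∀ α ∈ D'.1, α.cof = l → ¬ Stat l.ord
          {i | i < l.ord ∧ d α i < nu D.1 (a η α i 1) ∧
            (∀ k, 1 ≤ k → k < n → nu D.1 (a η α i k) < nu D.1 (a η α i (k + 1))) ∧
            ∀ k, 1 ≤ k → k ≤ n → nu D.1 (a η α i k) < α ∧ nu D.1 (a η α i k) ∈ D'.1} := by
    rintro ⟨D, hD⟩
    choose D' hsub hcl hst using fun η => step hr hc n d hd hno (a η) D hD
    have hI := club_iInter hR hC (hι.trans_lt (lt_succ l)) D' hcl
    refine ⟨⟨D ∩ {x | x < (succ l).ord ∧ ∀ η, x ∈ D' η}, club_inter hR hC hD hI⟩,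
      Set.inter_subset_left, fun η α hα hcof hs => ?_⟩
    refine hst η α (hα.2.2 η) hcof (hs.mono ?_ fun x hx => hx.1)
    rintro i ⟨h1, h2, h3, h4⟩
    exact ⟨h1, h2, h3, fun k hk1 hk2 => ⟨(h4 k hk1 hk2).1, (h4 k hk1 hk2).2.2.2 η⟩⟩
  choose nxt hnxt1 hnxt2 using hnext
  let D : ℕ → {D : Set Ordinal.{0} // Club (succ l).ord D} := fun m =>
    nxt^[m] ⟨_, club_top hC.le⟩
  have hDs : ∀ m, D (m + 1) = nxt (D m) := fun m => Function.iterate_succ_apply' nxt m _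
  have hdec : ∀ m, (D (m + 1)).1 ⊆ (D m).1 := fun m => by
    rw [hDs]
    exact hnxt1 _
  have hω : #ℕ < succ l := by simpa using hC
  have hI := club_iInter hR hC hω (fun m => (D m).1) (fun m => (D m).2)
  obtain ⟨α, hα, hcof, η, hT⟩ := H _ hI
  have hακ : α < (succ l).ord := hα.1
  have hchain : ∀ i, (∀ k < n, ∃ x, (x < (succ l).ord ∧ ∀ m, x ∈ (D m).1) ∧
      a η α i k < x ∧ x ≤ a η α i (k + 1)) → ∀ k ≤ n, a η α i k ≤ a η α i n := by
    intro i hi k hk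
    have : ∀ j, k + j ≤ n → a η α i k ≤ a η α i (k + j) := by
      intro j
      induction j with
      | zero => intro _; exact le_rfl
      | succ j ih =>
        intro hj
        obtain ⟨x, _, h1, h2⟩ := hi (k + j) (by omega)
        exact (ih (by omega)).trans (h1.le.trans h2)
    have h1 := this (n - k) (by omega)
    rwa [Nat.add_sub_cancel' hk] at h1
  obtain ⟨m, hm⟩ := stat_union hr hc (ι := ℕ) (by simpa using hc)
    (fun m => {i | i < l.ord ∧ (d α i ≤ a η α i 0 ∧ a η α i n < α ∧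
        ∀ k < n, ∃ x ∈ {x | x < (succ l).ord ∧ ∀ m, x ∈ (D m).1},
          a η α i k < x ∧ x ≤ a η α i (k + 1)) ∧
        ∀ k, 1 ≤ k → k ≤ n → ∀ m', nu (D m).1 (a η α i k) ∈ (D m').1})
    (fun m x hx => hx.1) hT (by
      rintro i ⟨hi, h1, h2, h3⟩
      have hex : ∀ k, ∃ M, 1 ≤ k → k ≤ n → ∀ m ≥ M, ∀ m',
          nu (D m).1 (a η α i k) ∈ (D m').1 := by
        intro k
        by_cases hk : 1 ≤ k ∧ k ≤ n
        · obtain ⟨x, hx, hx1, hx2⟩ := h3 (k - 1) (by omega)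
          have hk' : k - 1 + 1 = k := by omega
          rw [hk'] at hx2
          obtain ⟨M, hM⟩ := nu_stable (fun m => (D m).1) (fun m => (D m).2) hdec
            (((hchain i h3 k hk.2).trans_lt h2).trans hακ) ⟨x, hx.2, hx2⟩
          exact ⟨M, fun _ _ => hM⟩
        · exact ⟨0, fun h4 h5 => absurd ⟨h4, h5⟩ hk⟩
      choose M hM using hex
      refine ⟨(Finset.range (n + 1)).sup M, hi, ⟨h1, h2, h3⟩, fun k hk1 hk2 m' => ?_⟩
      exact hM k hk1 hk2 _ (Finset.le_sup (f := M) (Finset.mem_range.2 (by omega))) m')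
  have hα1 : α ∈ (D (m + 1)).1 := hα.2 (m + 1)
  rw [hDs] at hα1
  refine hnxt2 (D m) η α hα1 hcof (hm.mono ?_ fun x hx => hx.1)
  rintro i ⟨hi, ⟨h1, h2, h3⟩, h4⟩
  refine ⟨hi, ?_, fun k hk1 hk2 => ?_, fun k hk1 hk2 => ⟨?_, ?_⟩⟩
  · obtain ⟨x, hx, hx1, hx2⟩ := h3 0 (by omega)
    exact (h1.trans_lt hx1).trans_le (le_nu (hx.2 m) hx2)
  · obtain ⟨x, hx, hx1, hx2⟩ := h3 k hk2
    exact ((nu_le _ _).trans_lt hx1).trans_le (le_nu (hx.2 m) hx2)
  · exact (nu_le _ _).trans_lt ((hchain i h3 k hk2).trans_lt h2)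
  · rw [← hDs]
    exact h4 k hk1 hk2 (m + 1)

theorem Guesses.zero {c : Ordinal.{0} → Ordinal.{0} → Ordinal.{0}} {n : ℕ}
    (h : Guesses l n c) {m : ℕ} (hm : m ≤ n) : Guesses l m c := by
  refine ⟨h.1, fun D hD => (h.2 D hD).mono ?_ fun x hx => hx.1⟩
  rintro α ⟨h1, h2, h3⟩
  refine ⟨h1, h2, h3.mono ?_ fun x hx => hx.1⟩
  rintro i ⟨h4, h5⟩
  exact ⟨h4, fun k hk1 hk2 => h5 k hk1 (hk2.trans hm)⟩

end

end Pool.Agent.Lib.MP_d632e4_lc
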