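import Pool.Agent.Lib.MP_d632e4_lc.Few

set_option autoImplicit false

/-!
# The weakest form of guessing consecutive successor points

`kill`: if the windows `[i, H α i)` can be made free of a pattern `V` for `i` in a closed unbounded
subset of `l`, then for all but boundedly many `i` the windows `[i, h α i)` can be made free of it.
Proof: the windows of stage `m + 1` end in the closed unbounded set of stage `m`, so the unions of
the windows of the `ω` stages cover a final segment of `l`.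
-/

namespace Pool.Agent.Lib.MP_d632e4_lc

open Cardinal Ordinal Order Set

theorem kill {l : Cardinal.{0}} (hr : l.IsRegular) (hc : ℵ₀ < l)
    (V : Set Ordinal.{0} → Ordinal.{0} → Ordinal.{0} → Ordinal.{0} → Prop)
    (hVD : ∀ D D' α i h, D ⊆ D' → V D α i h → V D' α i h)
    (hVw : ∀ D α i i' h h', α < (succ l).ord → α.cof = l → i < l.ord → i' ≤ i → h ≤ h' →
      V D α i h → V D α i' h')
    (hVs : ∀ D α i (f : ℕ → Ordinal.{0}), (∀ k, f k < f (k + 1)) → V D α i (⨆ k, f k) →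
      ∃ k, V D α i (f k))
    (step : ∀ H : Ordinal.{0} → Ordinal.{0} → Ordinal.{0},
      (∀ α, ∀ i < l.ord, H α i < l.ord) → ∃ D, Club (succ l).ord D ∧
        ∀ α ∈ D, α.cof = l → ∃ C, Club l.ord C ∧ ∀ i ∈ C, ¬ V D α i (H α i))
    (h : Ordinal.{0} → Ordinal.{0} → Ordinal.{0}) (hh : ∀ α, ∀ i < l.ord, h α i < l.ord) :
    ∃ D, Club (succ l).ord D ∧ ∀ α ∈ D, α.cof = l → ∃ i₀ < l.ord, ∀ i < l.ord, i₀ ≤ i →
      ¬ V D α i (h α i) := by
  classical
  have hR : (succ l).IsRegular := isRegular_succ hc.le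
  have hC : ℵ₀ < succ l := hc.trans (lt_succ l)
  have hlcof : l.ord.cof = l := hr.cof_ord
  -- one stage
  have step' : ∀ H : Ordinal.{0} → Ordinal.{0} → Ordinal.{0}, ∃ D : Set Ordinal.{0},
      ∃ C : Ordinal.{0} → Set Ordinal.{0}, Club (succ l).ord D ∧ (∀ α, Club l.ord (C α)) ∧
        ((∀ α, ∀ i < l.ord, H α i < l.ord) →
          ∀ α ∈ D, α.cof = l → ∀ i ∈ C α, ¬ V D α i (H α i)) := by
    intro H
    by_cases hH : ∀ α, ∀ i < l.ord, H α i < l.ord
    · obtain ⟨D, hD, hDC⟩ := step H hH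
      have h1 : ∀ α, ∃ C, Club l.ord C ∧ (α ∈ D → α.cof = l → ∀ i ∈ C, ¬ V D α i (H α i)) := by
        intro α
        by_cases hα : α ∈ D ∧ α.cof = l
        · obtain ⟨C, hC1, hC2⟩ := hDC α hα.1 hα.2
          exact ⟨C, hC1, fun _ _ => hC2⟩
        · exact ⟨_, club_top hc.le, fun h2 h3 => absurd ⟨h2, h3⟩ hα⟩
      choose C hC1 hC2 using h1
      exact ⟨D, C, hD, hC1, fun _ => hC2⟩
    · exact ⟨_, fun _ => _, club_top hC.le, fun _ => club_top hc.le, fun h2 => absurd h2 hH⟩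
  choose Dn Cn hDn hCn hV using step'
  -- the next window ends in the closed unbounded set
  let nx : Set Ordinal.{0} → Ordinal.{0} → Ordinal.{0} := fun K b =>
    if hb : ∃ x ∈ K, b < x then hb.choose else b + 1
  have hnx1 : ∀ K b, b < nx K b := by
    intro K b
    by_cases hb : ∃ x ∈ K, b < x
    · simp only [nx, dif_pos hb]
      exact hb.choose_spec.2
    · simp only [nx, dif_neg hb]
      exact lt_add_one b
  have hnx2 : ∀ K, Club l.ord K → ∀ b < l.ord, nx K b ∈ K := by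
    intro K hK b hb
    have hb' : ∃ x ∈ K, b < x := hK.2.1 b hb
    simp only [nx, dif_pos hb']
    exact hb'.choose_spec.1
  let K0 : Ordinal.{0} → Set Ordinal.{0} := fun α =>
    {x | x < l.ord ∧ IsSuccLimit x ∧ ∀ i < x, h α i < x}
  have hK0 : ∀ α, Club l.ord (K0 α) := fun α => club_closure hr hc (h α) (hh α)
  let S : ℕ → (Ordinal.{0} → Ordinal.{0} → Ordinal.{0}) × (Ordinal.{0} → Set Ordinal.{0}) :=
    fun m => Nat.rec ((fun _ i => i + 1), K0)
      (fun _ p => ((fun α i => nx (p.2 α ∩ Cn p.1 α) (p.1 α i)), fun α => p.2 α ∩ Cn p.1 α)) m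
  have hS0 : S 0 = ((fun _ i => i + 1), K0) := rfl
  have hS1 : ∀ m α i, (S (m + 1)).1 α i = nx ((S m).2 α ∩ Cn (S m).1 α) ((S m).1 α i) :=
    fun m α i => rfl
  have hS2 : ∀ m α, (S (m + 1)).2 α = (S m).2 α ∩ Cn (S m).1 α := fun m α => rfl
  have hK : ∀ m α, Club l.ord ((S m).2 α) := by
    intro m
    induction m with
    | zero => exact hK0
    | succ m ih => exact fun α => club_inter hr hc (ih α) (hCn _ α)
  have hH : ∀ m α, ∀ i < l.ord, (S m).1 α i < l.ord := by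
    intro m
    induction m with
    | zero => exact fun α i hi => ord_succ_lt hc.le hi
    | succ m ih =>
      intro α i hi
      have h1 := hnx2 _ (hK (m + 1) α) _ (ih α i hi)
      exact (hK (m + 1) α).1 _ h1
  have hHK : ∀ m α, ∀ i < l.ord, (S (m + 1)).1 α i ∈ (S (m + 1)).2 α := fun m α i hi =>
    hnx2 _ (hK (m + 1) α) _ (hH m α i hi)
  have hanti : ∀ m m' α, m ≤ m' → (S m').2 α ⊆ (S m).2 α := by
    intro m m' α hmm'
    induction m', hmm' using Nat.le_induction with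
    | base => exact subset_rfl
    | succ k _ ih => exact Set.inter_subset_left.trans ih
  have hω : #ℕ < succ l := by simpa using hC
  have hω' : #ℕ < l := by simpa using hc
  refine ⟨{x | x < (succ l).ord ∧ ∀ m, x ∈ Dn (S m).1},
    club_iInter hR hC hω _ fun m => hDn _, fun α hα hcof => ?_⟩
  have hKω := club_iInter hr hc hω' (fun m => (S m).2 α) fun m => hK m α
  set Kω : Set Ordinal.{0} := {x | x < l.ord ∧ ∀ m, x ∈ (S m).2 α} with hKωdef
  have h0l : 0 < l.ord := omega0_pos.trans_le (omega0_le_ord.2 hc.le)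
  obtain ⟨i₀, hi₀, _⟩ := hKω.2.1 0 h0l
  refine ⟨i₀, hKω.1 _ hi₀, fun i hi hi0 hcon => ?_⟩
  have hi' : nu Kω i ∈ Kω := nu_mem hKω hi ⟨i₀, hi₀, hi0⟩
  have hi'l : nu Kω i < l.ord := hKω.1 _ hi'
  let f : ℕ → Ordinal.{0} := fun m => (S m).1 α (nu Kω i)
  have hfm : ∀ m, f m < f (m + 1) := fun m => hnx1 _ _
  have hfl : ∀ m, f m < l.ord := fun m => hH m α _ hi'l
  have hsl : (⨆ m, f m) < l.ord := iSup_lt_of_lt_cof (by rw [hlcof]; exact hω') hfl
  have hfs : ∀ m, f m < ⨆ m, f m := fun m => (hfm m).trans_le (Ordinal.le_iSup f (m + 1))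
  have hsK : ∀ m, (⨆ m, f m) ∈ (S m).2 α := by
    intro m
    refine (hK m α).2.2 _ hsl (zero_le.trans_lt (hfs 0)) fun β hβ => ?_
    obtain ⟨k, hk⟩ := Ordinal.lt_iSup_iff.1 hβ
    have hmono : StrictMono f := strictMono_nat_of_lt_succ hfm
    obtain ⟨q, hq1, hq2⟩ : ∃ q : ℕ, m ≤ q ∧ k ≤ q := ⟨max m k, le_max_left _ _, le_max_right _ _⟩
    refine ⟨f (q + 1), ?_, ?_, hfs (q + 1)⟩
    · exact hanti m (q + 1) α (by omega) (hHK q α _ hi'l)
    · exact lt_trans hk (hmono (show k < q + 1 by omega))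
  have hsω : (⨆ m, f m) ∈ Kω := ⟨hsl, hsK⟩
  have his : i < ⨆ m, f m := by
    by_contra hle
    push Not at hle
    have h1 := le_nu hsω hle
    have h2 : nu Kω i < ⨆ m, f m := by
      have h3 : nu Kω i < f 0 := lt_add_one _
      exact h3.trans (hfs 0)
    exact absurd h1 (not_le.2 h2)
  have hhs : h α i < ⨆ m, f m := (hsK 0).2.2 i his
  obtain ⟨k, hk⟩ := hVs _ α _ f hfm
    (hVw _ α i (nu Kω i) _ _ hα.1 hcof hi (nu_le _ _) hhs.le hcon)
  refine hV (S k).1 (hH k) α (hα.2 k) hcof (nu Kω i) ?_ (hVD _ _ _ _ _ ?_ hk)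
  · exact (hi'.2 (k + 1)).2
  · exact fun x hx => hx.2 k

/-- at least `T` of the intervals `(c j, c (j + 1)]`, `i ≤ j < h`, meet `D` -/
def Meets (D : Set Ordinal.{0}) (c : Ordinal.{0} → Ordinal.{0}) (T i h : Ordinal.{0}) : Prop :=
  ∃ t : Ordinal.{0} → Ordinal.{0}, (∀ k k', k < k' → k' < T → t k < t k') ∧
    ∀ k < T, i ≤ t k ∧ t k < h ∧ ∃ x ∈ D, c (t k) < x ∧ x ≤ c (t k + 1)

/-- a point `c j`, `i < j < h`, of the ladder is in `D` and has cofinality `θ` -/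
def MeetsCof (θ : Cardinal.{0}) (D : Set Ordinal.{0}) (c : Ordinal.{0} → Ordinal.{0})
    (i h : Ordinal.{0}) : Prop :=
  ∃ j, i < j ∧ j < h ∧ c j ∈ D ∧ (c j).cof = θ

/-- `θ` intervals which meet `D` give a point of the ladder in `D` of cofinality `θ` -/
theorem meetsCof_of_meets {l θ : Cardinal.{0}} (hθ : θ.IsRegular) {κ α : Ordinal.{0}}
    {D : Set Ordinal.{0}} (hD : Club κ D) (hακ : α < κ) {c : Ordinal.{0} → Ordinal.{0}}
    (hla : Ladder l α c) {i h : Ordinal.{0}} (hh : h < l.ord)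
    (hM : Meets D c θ.ord i h) : MeetsCof θ D c i (h + 1) := by
  obtain ⟨t, ht, ht'⟩ := hM
  have hθlim : IsSuccLimit θ.ord := isSuccLimit_ord hθ.aleph0_le
  have hsucc : ∀ k < θ.ord, k + 1 < θ.ord := fun k hk => hθlim.succ_lt hk
  let j : Ordinal.{0} := ⨆ k : Set.Iio θ.ord, t k.1
  have hle : ∀ k < θ.ord, t k ≤ j := fun k hk =>
    Ordinal.le_iSup (fun k : Set.Iio θ.ord => t k.1) ⟨k, hk⟩
  have hlt : ∀ k < θ.ord, t k < j := fun k hk =>
    (ht k (k + 1) (lt_add_one k) (hsucc k hk)).trans_le (hle _ (hsucc k hk))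
  have hjh : j ≤ h := Ordinal.iSup_le fun k => (ht' k.1 k.2).2.1.le
  have hjl : j < l.ord := hjh.trans_lt hh
  have hex : ∀ β < j, ∃ k < θ.ord, β < t k := by
    intro β hβ
    obtain ⟨k, hk⟩ := Ordinal.lt_iSup_iff.1 hβ
    exact ⟨k.1, k.2, hk⟩
  have h0 : i < j := (ht' 0 hθlim.bot_lt).1.trans_lt (hlt 0 hθlim.bot_lt)
  have hjlim : IsSuccLimit j := by
    refine (isSuccLimit_iff_of_orderBot).2 ⟨(zero_le.trans_lt h0).ne', ?_⟩
    intro a ha
    obtain ⟨k, hk, hk'⟩ := hex a ha.1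
    exact ha.2 hk' (hlt k hk)
  have hjcof : j.cof = θ := by
    have h1 : (⨆ k : Set.Iio θ.ord, t k.1).cof = θ.ord.cof :=
      cof_iSup_Iio (f := fun k : Set.Iio θ.ord => t k.1)
        (fun a b hab => ht _ _ hab b.2) hθlim.isSuccPrelimit
    exact h1.trans hθ.cof_ord
  refine ⟨j, h0, hjh.trans_lt (lt_add_one h), ?_, ?_⟩
  · refine hD.2.2 _ ((hla.lt _ hjl).trans hακ) (zero_le.trans_lt (hla.mono _ _ h0 hjl))
      fun β hβ => ?_
    obtain ⟨q, hq, hβq⟩ : ∃ q < j, β < c q := by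
      by_contra hcon
      push Not at hcon
      exact absurd (hla.cont j hjl hjlim β hcon) (not_le.2 hβ)
    obtain ⟨k, hk, hqk⟩ := hex q hq
    obtain ⟨_, _, x, hx, hx1, hx2⟩ := ht' k hk
    refine ⟨x, hx, (hβq.trans (hla.mono _ _ hqk ((hlt k hk).trans hjl))).trans hx1, ?_⟩
    refine lt_of_le_of_lt hx2 (hla.mono _ _ ?_ hjl)
    exact hjlim.succ_lt (hlt k hk)
  · rw [hla.cof_eq hjl hjlim, hjcof]

/-- an enumeration of the indices up to `j` in type `m` -/
theorem exists_enum_le {l m : Cardinal.{0}} (hm : ℵ₀ ≤ m) (hl : l = succ m) :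
    ∃ s : Ordinal.{0} → Ordinal.{0} → Ordinal.{0},
      ∀ j < l.ord, ∀ β ≤ j, ∃ η < m.ord, s j η = β := by
  have hc : ℵ₀ ≤ l := by rw [hl]; exact hm.trans (le_succ m)
  have hs : ∀ j, ∃ s : Ordinal.{0} → Ordinal.{0},
      j < l.ord → ∀ β ≤ j, ∃ η < m.ord, s η = β := by
    intro j
    by_cases h : j < l.ord
    · have h1 : (j + 1).card ≤ m := by
        have := lt_ord.1 (ord_succ_lt hc h)
        rw [hl] at this
        exact lt_succ_iff.1 this
      obtain ⟨s, hs⟩ := exists_enum h1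
      exact ⟨s, fun _ β hβ => hs β (lt_of_le_of_lt hβ (lt_add_one j))⟩
    · exact ⟨fun _ => 0, fun h' => absurd h' h⟩
  choose s hs using hs
  exact ⟨s, hs⟩

/-- enumerations of the ordinals below the successor of `l` -/
theorem exists_pi {l : Cardinal.{0}} :
    ∃ π : Ordinal.{0} → Ordinal.{0} → Ordinal.{0}, ∀ α < (succ l).ord, 0 < α →
      (∀ ε, π α ε < α) ∧ ∀ β < α, ∃ ε < l.ord, π α ε = β := by
  classical
  have h1 : ∀ α, ∃ p : Ordinal.{0} → Ordinal.{0}, α < (succ l).ord → 0 < α →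
      (∀ ε, p ε < α) ∧ ∀ β < α, ∃ ε < l.ord, p ε = β := by
    intro α
    by_cases h : α < (succ l).ord ∧ 0 < α
    · obtain ⟨e, he⟩ := exists_enum (α := α) (c := l) (lt_succ_iff.1 (lt_ord.1 h.1))
      refine ⟨fun ε => if e ε < α then e ε else 0, fun _ _ => ⟨fun ε => ?_, fun β hβ => ?_⟩⟩
      · by_cases hε : e ε < α
        · simp only [hε, if_true]
        · simp only [hε, if_false]
          exact h.2
      · obtain ⟨ε, hε, rfl⟩ := he β hβ
        exact ⟨ε, hε, by simp only [hβ, if_true]⟩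
    · exact ⟨fun _ => 0, fun h2 h3 => absurd ⟨h2, h3⟩ h⟩
  choose π hπ using h1
  exact ⟨π, hπ⟩

/-- `D` meets `n` consecutive intervals above `b` whose ends are among the points `π η`, `η < h` -/
def Anch (D : Set Ordinal.{0}) (π : Ordinal.{0} → Ordinal.{0}) (b : Ordinal.{0}) (n : ℕ)
    (h : Ordinal.{0}) : Prop :=
  ∃ a : ℕ → Ordinal.{0}, a 0 = b ∧ ∀ k < n, (∃ η < h, π η = a (k + 1)) ∧
    ∃ x ∈ D, a k < x ∧ x ≤ a (k + 1)

theorem Anch.mono {D D' : Set Ordinal.{0}} {π : Ordinal.{0} → Ordinal.{0}}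
    {b b' h h' : Ordinal.{0}} {n : ℕ} (hA : Anch D π b n h) (hD : D ⊆ D') (hb : b' ≤ b)
    (hh : h ≤ h') : Anch D' π b' n h' := by
  obtain ⟨a, ha0, ha⟩ := hA
  refine ⟨fun k => if k = 0 then b' else a k, by simp, fun k hk => ?_⟩
  obtain ⟨⟨η, hη, hη'⟩, x, hx, hx1, hx2⟩ := ha k hk
  refine ⟨⟨η, hη.trans_le hh, by simpa using hη'⟩, x, hD hx, ?_, by simpa using hx2⟩
  rcases Nat.eq_zero_or_pos k with rfl | hk0
  · simp only [if_true]
    rw [ha0] at hx1
    exact hb.trans_lt hx1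
  · have : k ≠ 0 := by omega
    simpa only [this, if_false] using hx1

theorem anch_sup {D : Set Ordinal.{0}} {π : Ordinal.{0} → Ordinal.{0}} {b : Ordinal.{0}} {n : ℕ}
    {f : ℕ → Ordinal.{0}} (hf : ∀ k, f k < f (k + 1)) (hA : Anch D π b n (⨆ k, f k)) :
    ∃ k, Anch D π b n (f k) := by
  obtain ⟨a, ha0, ha⟩ := hA
  have hmono : StrictMono f := strictMono_nat_of_lt_succ hf
  have h1 : ∀ k : ℕ, ∃ q, k < n → ∃ η < f q, π η = a (k + 1) := by
    intro k
    by_cases hk : k < n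
    · obtain ⟨⟨η, hη, hη'⟩, _⟩ := ha k hk
      obtain ⟨q, hq⟩ := Ordinal.lt_iSup_iff.1 hη
      exact ⟨q, fun _ => ⟨η, hq, hη'⟩⟩
    · exact ⟨0, fun h2 => absurd h2 hk⟩
  choose q hq using h1
  refine ⟨(Finset.range n).sup q, a, ha0, fun k hk => ⟨?_, (ha k hk).2⟩⟩
  obtain ⟨η, hη, hη'⟩ := hq k hk
  refine ⟨η, hη.trans_le (hmono.monotone ?_), hη'⟩
  exact Finset.le_sup (f := q) (Finset.mem_range.2 hk)

/-- one stage for finitely many points -/
theorem step_anch {l m : Cardinal.{0}} (hm : ℵ₀ ≤ m) (hl : l = succ m) {n : ℕ} (hn : 1 ≤ n)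
    (hno : ∀ c, ¬ Guesses l n c) (d : Ordinal.{0} → Ordinal.{0} → Ordinal.{0})
    (hd : ∀ α < (succ l).ord, α.cof = l → Ladder l α (d α))
    (π : Ordinal.{0} → Ordinal.{0} → Ordinal.{0})
    (hπ : ∀ α < (succ l).ord, 0 < α → ∀ ε, π α ε < α)
    (H : Ordinal.{0} → Ordinal.{0} → Ordinal.{0}) (hH : ∀ α, ∀ i < l.ord, H α i < l.ord) :
    ∃ D, Club (succ l).ord D ∧ ∀ α ∈ D, α.cof = l → ∃ C, Club l.ord C ∧ ∀ i ∈ C,
      ¬ Anch D (π α) (d α i) n (H α i) := by
  classical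
  have hml : m < l := by rw [hl]; exact lt_succ m
  have hr : l.IsRegular := by rw [hl]; exact isRegular_succ hm
  have hc : ℵ₀ < l := hm.trans_lt hml
  obtain ⟨s, hs⟩ := exists_enum_le hm hl
  have hι : #(Fin n → m.ord.ToType) < l := (card_fin_le hm n).trans_lt hml
  let a : (Fin n → m.ord.ToType) → Ordinal.{0} → Ordinal.{0} → ℕ → Ordinal.{0} :=
    fun η α i k => if k = 0 then d α i else
      π α (s (H α i) (if h : k - 1 < n then (ToType.toOrd (η ⟨k - 1, h⟩)).1 else 0))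
  have key : ∃ D, Club (succ l).ord D ∧ ∀ α ∈ D, α.cof = l → ∀ η, ¬ Stat l.ord
      {i | i < l.ord ∧ d α i ≤ a η α i 0 ∧ a η α i n < α ∧
        ∀ k < n, ∃ x ∈ D, a η α i k < x ∧ x ≤ a η α i (k + 1)} := by
    by_contra hcon
    push Not at hcon
    obtain ⟨c, hc'⟩ := master hr hc hn hι.le d hd a hcon
    exact hno c hc'
  obtain ⟨D, hD, hDst⟩ := key
  refine ⟨D, hD, fun α hα hcof => ?_⟩
  have hακ : α < (succ l).ord := hD.1 α hα
  have hla := hd α hακ hcof
  have h0l : 0 < l.ord := omega0_pos.trans_le (omega0_le_ord.2 hc.le)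
  have hα0 : 0 < α := zero_le.trans_lt (hla.lt 0 h0l)
  have hns : ¬ Stat l.ord {i | i < l.ord ∧ Anch D (π α) (d α i) n (H α i)} := by
    intro hst
    obtain ⟨η, hη⟩ := stat_union hr hc hι
      (fun η => {i | i < l.ord ∧ d α i ≤ a η α i 0 ∧ a η α i n < α ∧
        ∀ k < n, ∃ x ∈ D, a η α i k < x ∧ x ≤ a η α i (k + 1)}) (fun η x hx => hx.1) hst (by
        rintro i ⟨hi, b, hb0, hb⟩
        have h1 : ∀ k : Fin n, ∃ η < m.ord, π α (s (H α i) η) = b ((k : ℕ) + 1) := fun k => by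
          obtain ⟨⟨ε, hε, hε'⟩, _⟩ := hb (k : ℕ) k.2
          obtain ⟨η, hη, hη'⟩ := hs _ (hH α i hi) ε hε.le
          exact ⟨η, hη, by rw [hη', hε']⟩
        choose η hη hη' using h1
        have hval : ∀ k < n, a (fun k => ToType.mk ⟨η k, hη k⟩) α i (k + 1) = b (k + 1) := by
          intro k hk
          have h2 : k + 1 - 1 < n := by omega
          simp only [a, Nat.succ_ne_zero, if_false, dif_pos h2, OrderIso.symm_apply_apply]
          rw [← hη' ⟨k, hk⟩]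
          simp
        refine ⟨fun k => ToType.mk ⟨η k, hη k⟩, hi, ?_, ?_, fun k hk => ?_⟩
        · simp [a]
        · obtain ⟨k, rfl⟩ : ∃ k, n = k + 1 := ⟨n - 1, by omega⟩
          rw [hval k (Nat.lt_succ_self k), ← hη' ⟨k, Nat.lt_succ_self k⟩]
          exact hπ α hακ hα0 _
        · rw [hval k hk]
          obtain ⟨_, x, hx, hx1, hx2⟩ := hb k hk
          refine ⟨x, hx, ?_, hx2⟩
          rcases Nat.eq_zero_or_pos k with rfl | hk0
          · simp only [a, if_true]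
            rwa [hb0] at hx1
          · obtain ⟨j, rfl⟩ : ∃ j, k = j + 1 := ⟨k - 1, by omega⟩
            rw [hval j (by omega)]
            exact hx1)
    exact hDst α hα hcof η hη
  obtain ⟨C, hC, hCd⟩ := exists_club_of_not_stat (fun x hx => hx.1) hns
  exact ⟨C, hC, fun i hi hM => hCd i ⟨hC.1 i hi, hM⟩ hi⟩

/-- a point `π η > b`, `η < h`, is in `D` and has cofinality `θ` -/
def PtCof (θ : Cardinal.{0}) (D : Set Ordinal.{0}) (π : Ordinal.{0} → Ordinal.{0})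
    (b h : Ordinal.{0}) : Prop :=
  ∃ η < h, b < π η ∧ π η ∈ D ∧ (π η).cof = θ

/-- one stage for a point of cofinality `θ` -/
theorem step_cof {l m θ : Cardinal.{0}} (hm : ℵ₀ ≤ m) (hl : l = succ m)
    (hno : ∀ c, ¬ GuessesCof l θ c) (d : Ordinal.{0} → Ordinal.{0} → Ordinal.{0})
    (hd : ∀ α < (succ l).ord, α.cof = l → Ladder l α (d α))
    (π : Ordinal.{0} → Ordinal.{0} → Ordinal.{0})
    (hπ : ∀ α < (succ l).ord, 0 < α → ∀ ε, π α ε < α)
    (H : Ordinal.{0} → Ordinal.{0} → Ordinal.{0}) (hH : ∀ α, ∀ i < l.ord, H α i < l.ord) :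
    ∃ D, Club (succ l).ord D ∧ ∀ α ∈ D, α.cof = l → ∃ C, Club l.ord C ∧ ∀ i ∈ C,
      ¬ PtCof θ D (π α) (d α i) (H α i) := by
  classical
  have hml : m < l := by rw [hl]; exact lt_succ m
  have hr : l.IsRegular := by rw [hl]; exact isRegular_succ hm
  have hc : ℵ₀ < l := hm.trans_lt hml
  obtain ⟨s, hs⟩ := exists_enum_le hm hl
  have hι : #m.ord.ToType < l := by
    rw [Cardinal.mk_toType, card_ord]
    exact hml
  have hlad := fun p : m.ord.ToType => ladder_one hr hc d hd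
    (fun α i => π α (s (H α i) (ToType.toOrd p).1))
  choose c e hce using hlad
  have key : ∃ D, Club (succ l).ord D ∧ ∀ α ∈ D, α.cof = l → ∀ p, ¬ Stat l.ord
      {i | i < l.ord ∧ c p α (i + 1) ∈ D ∧ (c p α (i + 1)).cof = θ} := by
    by_contra hcon
    push Not at hcon
    obtain ⟨p, hp⟩ := choose_one hc hι.le
      (fun p D α => {i | i < l.ord ∧ c p α (i + 1) ∈ D ∧ (c p α (i + 1)).cof = θ})
      (fun p D D' α hDD' i hi => ⟨hi.1, hDD' hi.2.1, hi.2.2⟩) (fun p D α x hx => hx.1) hcon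
    exact hno (c p) ⟨fun α h1 h2 => (hce p α h1 h2).1, hp⟩
  obtain ⟨D, hD, hDst⟩ := key
  refine ⟨D, hD, fun α hα hcof => ?_⟩
  have hακ : α < (succ l).ord := hD.1 α hα
  have hla := hd α hακ hcof
  have h0l : 0 < l.ord := omega0_pos.trans_le (omega0_le_ord.2 hc.le)
  have hα0 : 0 < α := zero_le.trans_lt (hla.lt 0 h0l)
  have hns : ¬ Stat l.ord {i | i < l.ord ∧ PtCof θ D (π α) (d α i) (H α i)} := by
    intro hst
    obtain ⟨p, hp⟩ := stat_union hr hc hι
      (fun p => {i | i < l.ord ∧ d α i < π α (s (H α i) (ToType.toOrd p).1) ∧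
        π α (s (H α i) (ToType.toOrd p).1) ∈ D ∧
        (π α (s (H α i) (ToType.toOrd p).1)).cof = θ}) (fun p x hx => hx.1) hst (by
        rintro i ⟨hi, ε, hε, h1, h2, h3⟩
        obtain ⟨η, hη, rfl⟩ := hs _ (hH α i hi) ε hε.le
        refine ⟨ToType.mk ⟨η, hη⟩, hi, ?_⟩
        simp only [OrderIso.symm_apply_apply]
        exact ⟨h1, h2, h3⟩)
    refine hDst α hα hcof p ((hp.inter_club hr hc (hce p α hακ hcof).2.1).mono ?_
      fun x hx => hx.1)
    rintro i ⟨⟨hi, h1, h2, h3⟩, hie⟩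
    have hv := (hce p α hακ hcof).2.2 i hie h1 (hπ α hακ hα0 _)
    exact ⟨hi, by rw [hv]; exact h2, by rw [hv]; exact h3⟩
  obtain ⟨C, hC, hCd⟩ := exists_club_of_not_stat (fun x hx => hx.1) hns
  exact ⟨C, hC, fun i hi hM => hCd i ⟨hC.1 i hi, hM⟩ hi⟩

end Pool.Agent.Lib.MP_d632e4_lc
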